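import Pool.Agent.Helper53K9.BD.Stm

/-!
# Leaf A2
-/

set_option autoImplicit false

open MvPolynomial FF Pool.Agent.W603.LV Pool.Agent.W603.PV Pool.Agent.W602.RG Pool.Agent.TH145.GH
open Pool.Agent.TH145.GC (Data Gen Full Cf)

namespace Pool.Agent.Helper53K9.BD

theorem a2 : S_A2 := by
  intro k L M _ _ _ _ _ _ _ _ _ _ _ _ P s δ h
  obtain ⟨σ, hσ⟩ : ∃ σ, σ = algebraMap L M s := ⟨_, rfl⟩
  have hσ1 : 0 < P.ord σ := by rw [hσ]; exact h.pos
  have hδσ : δ σ = 1 := by rw [hσ]; exact h.der
  have hσ0 : σ ≠ 0 := by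
    rintro h0
    rw [h0, P.ord_zero] at hσ1
    exact lt_irrefl _ hσ1
  obtain ⟨π, hπ0, hπ⟩ := P.surj
  obtain ⟨d0, hd0⟩ := exists_der (k := k) (K := M)
  have h0 := der_pi_ne_zero hd0 P hπ
  obtain ⟨d, hd⟩ : ∃ d : Derivation k M M, d = (d0 π)⁻¹ • d0 := ⟨_, rfl⟩
  have hdπ : d π = 1 := by
    rw [hd]; simp [h0]
  have hd0' : d ≠ 0 := by
    rintro rfl
    simp at hdπ
  obtain ⟨c, hc⟩ := der_smul (k := k) (K := M) (D := d) (D' := δ) hd0'
  obtain ⟨N, hN⟩ : ∃ N : ℕ, -(N : ℤ) ≤ P.ord c := ⟨(-P.ord c).toNat, by omega⟩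
  have key : ∀ n : ℕ, ∀ f : L, Ge P 0 (algebraMap L M f) →
      Ge P (min 0 (-(N : ℤ) + n)) (δ (algebraMap L M f)) := by
    intro n
    induction n with
    | zero =>
      intro f hf
      have h1 := der_reg P hπ d hdπ hf
      have h2 : Ge P (-(N : ℤ)) c := Or.inr hN
      have h3 := h2.mul h1
      rw [hc, Derivation.coe_smul, Pi.smul_apply, smul_eq_mul]
      exact h3.mono (by omega)
    | succ n ih =>
      intro f hf
      obtain ⟨a, ha⟩ := exists_const P hf
      obtain ⟨f1, hf1⟩ : ∃ f1 : L, f1 = (f - algebraMap k L a) / s := ⟨_, rfl⟩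
      have hs0 : s ≠ 0 := by
        rintro rfl
        rw [map_zero] at hσ
        exact hσ0 hσ
      have h1 : algebraMap L M f - algebraMap k M a = σ * algebraMap L M f1 := by
        rw [hf1, hσ, ← map_mul, mul_div_cancel₀ _ hs0, map_sub, ← IsScalarTower.algebraMap_apply]
      have h2 : Ge P 0 (algebraMap L M f1) := by
        by_cases hz : algebraMap L M f1 = 0
        · exact Or.inl hz
        right
        rw [h1] at ha
        have h3 := ha.resolve_left (mul_ne_zero hσ0 hz)
        have h4 : P.ord σ ∣ P.ord (σ * algebraMap L M f1) := by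
          rw [hσ, ← map_mul]
          exact h.dvd _
        have h5 := Int.le_of_dvd (by omega) h4
        rw [P.ord_mul hσ0 hz] at h5
        omega
      have h3 := ih f1 h2
      have h4 : δ (algebraMap L M f) = algebraMap L M f1 + σ * δ (algebraMap L M f1) := by
        have h5 : algebraMap L M f = algebraMap k M a + σ * algebraMap L M f1 := by
          rw [← h1]; ring
        rw [h5, map_add, δ.map_algebraMap, zero_add, δ.leibniz, hδσ, smul_eq_mul, smul_eq_mul,
          mul_one, add_comm]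
      rw [h4]
      refine (h2.mono (min_le_left _ _)).add ?_
      have h5 : Ge P 1 σ := Or.inr hσ1
      exact (h5.mul h3).mono (by push_cast; omega)
  intro f hf
  have h1 := key N f hf
  exact h1.mono (by omega)

end Pool.Agent.Helper53K9.BD
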