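import Pool.Agent.Helper53K9.BD.Stm

/-!
# Leaf DETL
-/

set_option autoImplicit false

open MvPolynomial FF Pool.Agent.W603.LV Pool.Agent.W603.PV Pool.Agent.W602.RG Pool.Agent.TH145.GH
open Pool.Agent.TH145.GC (Data Gen Full Cf)

namespace Pool.Agent.Helper53K9.BD

/-- A determinant whose rows are bounded. -/
theorem ge_det {k M : Type} [Field k] [Field M] [Algebra k M] (P : Place k M) {R : Type}
    [Fintype R] [DecidableEq R] (A : R → R → M) (c : R → ℤ) (h : ∀ i j, Ge P (c i) (A i j)) :
    Ge P (∑ i, c i) (Matrix.of A).det := by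
  rw [Matrix.det_apply]
  refine Ge.sum _ _ fun σ _ => ?_
  have h1 : Ge P (∑ i, c (σ i)) (∏ i, A (σ i) i) := Ge.prod _ _ _ fun i _ => h _ _
  rw [Equiv.sum_comp σ c] at h1
  have h2 : Ge P 0 (((Equiv.Perm.sign σ : ℤ) : M)) := Ge.intCast _
  have h3 := h2.mul h1
  rw [zero_add] at h3
  rw [Units.smul_def, zsmul_eq_mul]
  exact h3

theorem detl : S_DETL := by
  classical
  intro k M _ _ _ P R _ _ α v β a b ha hb hα hv hβ
  rw [← Matrix.det_transpose]
  have h0 : (Matrix.of fun i j => α i * v j + β i j).transpose =
      (Matrix.of ((fun j => v j • α) + fun j i => β i j)) := by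
    ext i j
    simp [Matrix.transpose_apply, mul_comm]
  rw [h0]
  have h1 := (Matrix.detRowAlternating (R := M) (n := R)).toMultilinearMap.map_add_univ
    (fun j => v j • α) (fun j i => β i j)
  have h2 : (Matrix.of ((fun j => v j • α) + fun j i => β i j)).det =
      ∑ s : Finset R, (Matrix.of (s.piecewise (fun j => v j • α) fun j i => β i j)).det := h1
  rw [h2]
  refine Ge.sum _ _ fun s _ => ?_
  by_cases hs : s.card ≤ 1
  · have h3 := ge_det P (s.piecewise (fun j => v j • α) fun j i => β i j)
      (s.piecewise (fun _ => -(a + b)) fun _ => 0) (fun i j => ?_)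
    · refine h3.mono ?_
      rw [Finset.sum_piecewise, Finset.sum_const, Finset.sum_const_zero, add_zero, nsmul_eq_mul,
        Finset.univ_inter]
      have h4 : ((s.card : ℕ) : ℤ) ≤ 1 := by exact_mod_cast hs
      nlinarith
    · by_cases hi : i ∈ s
      · rw [Finset.piecewise_eq_of_mem _ _ _ hi, Finset.piecewise_eq_of_mem _ _ _ hi]
        have h4 := (hv i).mul (hα j)
        exact h4.mono (by omega)
      · rw [Finset.piecewise_eq_of_notMem _ _ _ hi, Finset.piecewise_eq_of_notMem _ _ _ hi]
        exact hβ _ _
  · left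
    obtain ⟨i, hi, j, hj, hij⟩ := Finset.one_lt_card.1 (not_le.1 hs)
    by_contra hdet
    have h3 := Matrix.linearIndependent_rows_of_det_ne_zero hdet
    have h4 : (v j) • (Matrix.of (s.piecewise (fun j => v j • α) fun j i => β i j)).row i =
        (v i) • (Matrix.of (s.piecewise (fun j => v j • α) fun j i => β i j)).row j := by
      ext l
      simp only [Matrix.row, Matrix.of_apply, Pi.smul_apply, smul_eq_mul,
        Finset.piecewise_eq_of_mem _ _ _ hi, Finset.piecewise_eq_of_mem _ _ _ hj]
      ring
    have h5 : v j = 0 := by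
      have h8 := Fintype.linearIndependent_iff.1 h3
        (fun l => if l = i then v j else if l = j then - v i else 0) (by
          rw [Finset.sum_eq_add i j hij]
          · rw [if_pos rfl, if_neg hij.symm, if_pos rfl, neg_smul]
            exact add_neg_eq_zero.2 h4
          · intro l _ hl
            rw [if_neg hl.1, if_neg hl.2, zero_smul]
          · intro hcon
            exact absurd (Finset.mem_univ _) hcon
          · intro hcon
            exact absurd (Finset.mem_univ _) hcon) i
      rwa [if_pos rfl] at h8
    have h6 := h3.ne_zero j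
    apply h6
    ext l
    simp [Finset.piecewise_eq_of_mem _ _ _ hj, h5]

end Pool.Agent.Helper53K9.BD
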