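import Pool.Agent.Helper53K9.BD.Stm

/-!
# Leaf GP
-/

set_option autoImplicit false

open MvPolynomial FF Pool.Agent.W603.LV Pool.Agent.W603.PV Pool.Agent.W602.RG Pool.Agent.TH145.GH
open Pool.Agent.TH145.GC (Data Gen Full Cf)

namespace Pool.Agent.Helper53K9.BD

namespace GpL

/-- A vector outside of finitely many hyperplanes. -/
theorem exists_vec {k : Type} [Field k] [Infinite k] {n : ℕ} {I : Type} (S : Finset I)
    (w : I → Fin (n + 1) → k) (h : ∀ i ∈ S, w i ≠ 0) :
    ∃ c : Fin (n + 1) → k, ∀ i ∈ S, ∑ l, c l * w i l ≠ 0 := by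
  classical
  obtain ⟨p, hp⟩ : ∃ p : I → Polynomial k, ∀ i, p i = ∑ l : Fin (n + 1),
    Polynomial.C (w i l) * Polynomial.X ^ (l : ℕ) := ⟨_, fun _ => rfl⟩
  have h1 : ∀ i ∈ S, p i ≠ 0 := by
    intro i hi h0
    apply h i hi
    ext l
    have h2 := congrArg (fun q => Polynomial.coeff q (l : ℕ)) h0
    simp only [hp, Polynomial.finsetSum_coeff, Polynomial.coeff_C_mul_X_pow,
      Polynomial.coeff_zero] at h2
    rw [Finset.sum_eq_single l] at h2
    · simpa using h2
    · intro b _ hb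
      rw [if_neg]
      intro h3
      exact hb (Fin.ext h3.symm)
    · intro h3
      exact absurd (Finset.mem_univ _) h3
  have h2 : ∏ i ∈ S, p i ≠ 0 := Finset.prod_ne_zero_iff.2 h1
  obtain ⟨τ, hτ⟩ : ∃ τ : k, (∏ i ∈ S, p i).eval τ ≠ 0 := by
    by_contra hcon
    push Not at hcon
    exact h2 (Polynomial.funext fun r => by rw [hcon, Polynomial.eval_zero])
  refine ⟨fun l => τ ^ (l : ℕ), fun i hi h0 => hτ ?_⟩
  rw [Polynomial.eval_prod]
  refine Finset.prod_eq_zero hi ?_
  rw [hp, Polynomial.eval_finsetSum, ← h0]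
  refine Finset.sum_congr rfl fun l _ => ?_
  rw [Polynomial.eval_mul, Polynomial.eval_C, Polynomial.eval_pow, Polynomial.eval_X, mul_comm]

variable {k M : Type} [Field k] [Field M] [Algebra k M]

/-- Congruence to a constant. -/
def Cg (P : Place k M) (f : M) (c : k) : Prop := Ge P 1 (f - algebraMap k M c)

theorem Cg.ge {P : Place k M} {f : M} {c : k} (h : Cg P f c) : Ge P 0 f := by
  have h1 := (Ge.mono (zero_le_one : (0 : ℤ) ≤ 1) h).add (Ge.const (P := P) c)
  rwa [sub_add_cancel] at h1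

theorem Cg.mul {P : Place k M} {f g : M} {c d : k} (hf : Cg P f c) (hg : Cg P g d) :
    Cg P (f * g) (c * d) := by
  have h1 : f * g - algebraMap k M (c * d) = f * (g - algebraMap k M d) +
      algebraMap k M d * (f - algebraMap k M c) := by
    rw [map_mul]; ring
  unfold Cg
  rw [h1]
  have h2 := (hf.ge).mul hg
  have h3 := (Ge.const (P := P) d).mul hf
  rw [zero_add] at h2 h3
  exact h2.add h3

theorem Cg.sub {P : Place k M} {f g : M} {c d : k} (hf : Cg P f c) (hg : Cg P g d) :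
    Cg P (f - g) (c - d) := by
  have h1 : f - g - algebraMap k M (c - d) = (f - algebraMap k M c) - (g - algebraMap k M d) := by
    rw [map_sub]; ring
  unfold Cg
  rw [h1]
  exact Ge.sub hf hg

theorem Cg.sum {P : Place k M} {ι : Type} (s : Finset ι) {f : ι → M} {c : ι → k}
    (h : ∀ i ∈ s, Cg P (f i) (c i)) : Cg P (∑ i ∈ s, f i) (∑ i ∈ s, c i) := by
  unfold Cg
  rw [map_sum, ← Finset.sum_sub_distrib]
  exact Ge.sum _ _ h

theorem Cg.const {P : Place k M} (c : k) : Cg P (algebraMap k M c) c := by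
  unfold Cg
  rw [sub_self]
  exact Ge.zero

theorem Cg.lin {P : Place k M} {n : ℕ} (a : Fin (n + 1) → k) {f : Fin (n + 1) → M}
    {c : Fin (n + 1) → k} (h : ∀ i, Cg P (f i) (c i)) :
    Cg P (∑ i, algebraMap k M (a i) * f i) (∑ i, a i * c i) :=
  Cg.sum _ fun i _ => (Cg.const (a i)).mul (h i)

theorem Cg.not_ge {P : Place k M} {f : M} {c : k} (h : Cg P f c) (hc : c ≠ 0) : ¬ Ge P 1 f := by
  intro h1
  have h2 := h1.sub h
  rw [sub_sub_cancel] at h2
  rcases h2 with h2 | h2
  · exact hc ((map_eq_zero _).1 h2)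
  · rw [P.ord_const hc] at h2
    omega

theorem Cg.unit {P : Place k M} {f : M} {c : k} (h : Cg P f c) (hc : c ≠ 0) :
    f ≠ 0 ∧ P.ord f = 0 := by
  have h1 := h.not_ge hc
  have h2 := h.ge
  have h3 : f ≠ 0 := by
    rintro rfl
    exact h1 Ge.zero
  have h4 := h2.resolve_left h3
  refine ⟨h3, ?_⟩
  by_contra h5
  exact h1 (Or.inr (by omega))

/-- The local computation. -/
theorem local_gp (P : Place k M) (δ : Derivation k M M) {n : ℕ} (y : Fin (n + 1) → M)
    (yb vb : Fin (n + 1) → k) (π : M) (hπ : P.ord π = 1) (ρ : ℕ) (hy : ∀ l, Cg P (y l) (yb l))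
    (hv : ∀ l, Cg P (π ^ ρ * δ (y l)) (vb l)) (a b : Fin (n + 1) → k)
    (hb : ∑ l, b l * yb l ≠ 0)
    (ha : (∑ l, a l * vb l) * (∑ l, b l * yb l) - (∑ l, a l * yb l) * ∑ l, b l * vb l ≠ 0) :
    (∑ l, algebraMap k M (b l) * y l) ≠ 0 ∧
    Ge P 0 ((∑ l, algebraMap k M (a l) * y l) / ∑ l, algebraMap k M (b l) * y l) ∧
    ¬ Ge P (-(ρ : ℤ) + 1)
      (δ ((∑ l, algebraMap k M (a l) * y l) / ∑ l, algebraMap k M (b l) * y l)) := by
  obtain ⟨A, hA⟩ : ∃ A, A = ∑ l, algebraMap k M (a l) * y l := ⟨_, rfl⟩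
  obtain ⟨B, hB⟩ : ∃ B, B = ∑ l, algebraMap k M (b l) * y l := ⟨_, rfl⟩
  rw [← hA, ← hB]
  have h1 : Cg P A (∑ l, a l * yb l) := hA ▸ Cg.lin a hy
  have h2 : Cg P B (∑ l, b l * yb l) := hB ▸ Cg.lin b hy
  have hδA : π ^ ρ * δ A = ∑ l, algebraMap k M (a l) * (π ^ ρ * δ (y l)) := by
    rw [hA, map_sum, Finset.mul_sum]
    refine Finset.sum_congr rfl fun l _ => ?_
    rw [δ.leibniz, δ.map_algebraMap, smul_zero, add_zero, smul_eq_mul]
    ring
  have hδB : π ^ ρ * δ B = ∑ l, algebraMap k M (b l) * (π ^ ρ * δ (y l)) := by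
    rw [hB, map_sum, Finset.mul_sum]
    refine Finset.sum_congr rfl fun l _ => ?_
    rw [δ.leibniz, δ.map_algebraMap, smul_zero, add_zero, smul_eq_mul]
    ring
  have h3 : Cg P (π ^ ρ * δ A) (∑ l, a l * vb l) := hδA ▸ Cg.lin a hv
  have h4 : Cg P (π ^ ρ * δ B) (∑ l, b l * vb l) := hδB ▸ Cg.lin b hv
  obtain ⟨hB0, hB1⟩ := h2.unit hb
  have hπ0 : π ≠ 0 := by
    rintro rfl
    rw [P.ord_zero] at hπ
    omega
  refine ⟨hB0, ?_, fun hcon => ?_⟩
  · by_cases hA0 : A = 0
    · rw [hA0, zero_div]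
      exact Ge.zero
    · right
      rw [P.ord_div hA0 hB0, hB1, sub_zero]
      exact h1.ge.resolve_left hA0
  · have h5 := (h3.mul h2).sub (h1.mul h4)
    apply h5.not_ge ha
    have h6 : π ^ ρ * δ A * B - A * (π ^ ρ * δ B) = π ^ ρ * (B ^ 2 * δ (A / B)) := by
      rw [Derivation.leibniz_div, smul_eq_mul, smul_eq_mul, smul_eq_mul]
      field_simp
    rw [h6]
    have h7 : Ge P (ρ : ℤ) (π ^ ρ) := Or.inr (by rw [P.ord_pow, hπ, mul_one])
    have h8 : Ge P 0 (B ^ 2) := by
      have := h2.ge.pow 2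
      simpa using this
    have h9 := h7.mul (h8.mul hcon)
    exact h9.mono (by omega)

/-- The height of a quotient of linear forms. -/
theorem hgt_lin [IsAlgClosed k] [CharZero k] [IsFF k M] {n : ℕ} (x : Fin (n + 1) → M)
    (hx : x ≠ 0) (a b : Fin (n + 1) → k) (hb : (∑ l, algebraMap k M (b l) * x l) ≠ 0) :
    hgt k ((∑ l, algebraMap k M (a l) * x l) / ∑ l, algebraMap k M (b l) * x l) ≤ pht k x := by
  classical
  obtain ⟨A, hA⟩ : ∃ A, A = ∑ l, algebraMap k M (a l) * x l := ⟨_, rfl⟩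
  obtain ⟨B, hB⟩ : ∃ B, B = ∑ l, algebraMap k M (b l) * x l := ⟨_, rfl⟩
  rw [← hB] at hb
  rw [← hA, ← hB]
  have hp := pord_finite (k := k) (Function.ne_iff.1 hx)
  obtain ⟨T0, hT0⟩ := exists_supp (k := k) (Finset.univ : Finset (Fin 2)) ![A / B, B]
  obtain ⟨T, hT⟩ : ∃ T : Finset (Place k M), T = T0 ∪ hp.toFinset := ⟨_, rfl⟩
  have h1 : ∀ P : Place k M, P.ord (A / B) ≠ 0 → P ∈ T := fun P hP => by
    rw [hT]; exact Finset.mem_union_left _ (hT0 0 (Finset.mem_univ _) P hP)
  have h2 : ∀ P : Place k M, P.ord B ≠ 0 → P ∈ T := fun P hP => by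
    rw [hT]; exact Finset.mem_union_left _ (hT0 1 (Finset.mem_univ _) P hP)
  have h3 : pht k x = - ∑ P ∈ T, pord P x := by
    unfold pht
    rw [finsum_eq_sum_of_support_subset (s := T)]
    intro P hP
    rw [hT]
    exact Finset.mem_union_right _ (hp.mem_toFinset.2 hP)
  have h4 : ∑ P ∈ T, P.ord B = 0 := sum_ord_finset _ _ h2
  rw [hgt_finset _ T h1, h3]
  have h5 : -∑ P ∈ T, pord P x = ∑ P ∈ T, (P.ord B - pord P x) := by
    rw [Finset.sum_sub_distrib, h4, zero_sub]
  rw [h5]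
  refine Finset.sum_le_sum fun P _ => ?_
  have h6 : ∀ c : Fin (n + 1) → k, Ge P (pord P x) (∑ l, algebraMap k M (c l) * x l) := by
    intro c
    refine Ge.sum _ _ fun l _ => ?_
    by_cases hl : x l = 0
    · rw [hl, mul_zero]
      exact Ge.zero
    · have h7 := (Ge.const (P := P) (c l)).mul (Or.inr (pord_le P hl) : Ge P (pord P x) (x l))
      rwa [zero_add] at h7
  have h7 := (hB ▸ h6 b : Ge P (pord P x) B).resolve_left hb
  refine max_le ?_ (by omega)
  by_cases hA0 : A = 0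
  · rw [hA0, zero_div, P.ord_zero]
    omega
  · have h8 := (hA ▸ h6 a : Ge P (pord P x) A).resolve_left hA0
    rw [P.ord_div hA0 hb]
    omega

/-- Two normalisations of a point. -/
theorem renorm (P : Place k M) (δ : Derivation k M M) {n : ℕ} (y x' : Fin (n + 1) → M)
    (e e1 : Fin (n + 1)) (he : y e = 1) (he1 : x' e1 = 1) (hy : ∀ l, Ge P 0 (y l))
    (hx' : ∀ l, Ge P 0 (x' l)) (c : M) (hc : ∀ l, x' l = c * y l) (ρ : ℤ) (hρ : 0 ≤ ρ)
    (h : ∀ l, Ge P (-ρ) (δ (y l))) (l : Fin (n + 1)) : Ge P (-ρ) (δ (x' l)) := by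
  have h1 : x' e = c := by rw [hc, he, mul_one]
  have hc0 : Ge P 0 c := h1 ▸ hx' e
  have h2 : c * y e1 = 1 := by rw [← hc, he1]
  have h3 : δ c = - (c * (c * δ (y e1))) := by
    have h4 : δ (c * y e1) = 0 := by rw [h2, Derivation.map_one_eq_zero]
    rw [δ.leibniz, smul_eq_mul, smul_eq_mul] at h4
    have h5 : δ c = (c * y e1) * δ c := by rw [h2, one_mul]
    rw [h5]
    linear_combination c * h4
  have h4 : Ge P (-ρ) (δ c) := by
    rw [h3]
    have h5 := hc0.mul (hc0.mul (h e1))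
    rw [zero_add, zero_add] at h5
    exact h5.neg
  rw [hc, δ.leibniz, smul_eq_mul, smul_eq_mul]
  have h5 := hc0.mul (h l)
  have h6 := (hy l).mul h4
  rw [zero_add] at h5 h6
  exact h5.add h6

end GpL

open GpL in
theorem gp (hMT : S_MT) : S_GP := by
  classical
  intro k L M _ _ _ _ _ _ _ _ _ _ _ _ _ s δ hsδ n ν U hU x l0 hl0 hxU
  have hx0 : x l0 ≠ 0 := by rw [hl0]; exact one_ne_zero
  have hx : x ≠ 0 := by
    rintro rfl
    exact hx0 rfl
  have hdeg : ∀ t ∈ U, (minpoly L t).natDegree ≤ ν := by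
    intro t ht
    have h1 : IsIntegral L t := Algebra.IsIntegral.isIntegral t
    rw [← IntermediateField.adjoin.finrank h1]
    refine le_trans ?_ hU
    have h2 : IntermediateField.adjoin L {t} ≤ U := by
      rw [IntermediateField.adjoin_simple_le_iff]
      exact ht
    exact LinearMap.finrank_le_finrank_of_injective
      (f := (IntermediateField.inclusion h2).toLinearMap) (IntermediateField.inclusion_injective h2)
  have hν : 1 ≤ ν := le_trans (Module.finrank_pos (R := L) (M := U)) hU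
  have hpht : 0 ≤ pht k x :=
    (hgt_nonneg _).trans (Pool.Agent.W603.CX.hgt_le_pht (k := k) x hx0 hx0)
  -- the normalisation
  choose e he0 he using fun P : Place k M => exists_pord (k := k) P (f := x) ⟨l0, hx0⟩
  obtain ⟨y, hy⟩ : ∃ y : Place k M → Fin (n + 1) → M, ∀ P l, y P l = x l / x (e P) :=
    ⟨_, fun _ _ => rfl⟩
  have hy1 : ∀ P, y P (e P) = 1 := fun P => by rw [hy, div_self (he0 P)]
  have hy0 : ∀ P l, Ge P 0 (y P l) := by
    intro P l
    rw [hy]
    by_cases hl : x l = 0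
    · rw [hl, zero_div]
      exact Ge.zero
    · right
      rw [P.ord_div hl (he0 P), he]
      have := pord_le P hl
      omega
  obtain ⟨ρ, hρ⟩ : ∃ ρ : Place k M → ℤ, ∀ P, ρ P =
    Finset.univ.sup' Finset.univ_nonempty fun l => max 0 (-P.ord (δ P (y P l))) :=
    ⟨_, fun _ => rfl⟩
  have hρ1 : ∀ P l, max 0 (-P.ord (δ P (y P l))) ≤ ρ P := fun P l => by
    rw [hρ]
    exact Finset.le_sup' (fun l => max 0 (-P.ord (δ P (y P l)))) (Finset.mem_univ l)
  have hρ0 : ∀ P, 0 ≤ ρ P := fun P => (le_max_left _ _).trans (hρ1 P l0)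
  have hρge : ∀ P l, Ge P (-ρ P) (δ P (y P l)) := fun P l => by
    right
    have h1 := (le_max_right _ _).trans (hρ1 P l)
    omega
  have hρex : ∀ P, ρ P ≠ 0 → ∃ l, P.ord (δ P (y P l)) = - ρ P := by
    intro P hP
    obtain ⟨l, -, hl⟩ := Finset.exists_mem_eq_sup' Finset.univ_nonempty
      fun l => max 0 (-P.ord (δ P (y P l)))
    refine ⟨l, ?_⟩
    have h1 : ρ P = max 0 (-P.ord (δ P (y P l))) := by rw [hρ, hl]
    have h2 := hρ0 P
    rcases max_cases 0 (-P.ord (δ P (y P l))) with h | h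
    · omega
    · omega
  -- finiteness
  have hmt : ∀ p : Fin (n + 1) × Fin (n + 1), ∃ μ : Place k M → ℤ, (∀ P, 0 ≤ μ P) ∧
      {P | μ P ≠ 0}.Finite ∧ ∀ P, Ge P 0 (x p.1 / x p.2) →
        Ge P (-μ P) (δ P (x p.1 / x p.2)) := by
    intro p
    obtain ⟨μ, h1, h2, -, h3⟩ := hMT k L M s δ hsδ (x p.1 / x p.2) ν
      (hdeg _ (div_mem (hxU _) (hxU _)))
    exact ⟨μ, h1, h2, h3⟩
  choose μ0 hμ0 hμ0f hμ0g using hmt
  have hρf : {P | ρ P ≠ 0}.Finite := by
    refine (Set.finite_iUnion hμ0f).subset fun P hP => ?_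
    rw [Set.mem_iUnion]
    by_contra hcon
    push Not at hcon
    obtain ⟨l, hl⟩ := hρex P hP
    have h1 : ¬ (μ0 (l, e P) P ≠ 0) := hcon (l, e P)
    rw [not_not] at h1
    have h2 := hμ0g (l, e P) P (by have := hy0 P l; rwa [hy] at this)
    have h3 := hρ0 P
    rw [h1] at h2
    simp only at h2
    rw [← hy] at h2
    have hP' : ρ P ≠ 0 := hP
    rcases h2 with h2 | h2
    · rw [h2, P.ord_zero] at hl
      omega
    · omega
  refine ⟨ρ, hρ0, hρf, ?_, ?_⟩
  · -- the sum
    obtain ⟨S, hS⟩ : ∃ S, S = hρf.toFinset := ⟨_, rfl⟩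
    have hSm : ∀ P, P ∈ S ↔ ρ P ≠ 0 := fun P => by
      rw [hS, Set.Finite.mem_toFinset]
      exact Iff.rfl
    choose yb hyb using fun (P : Place k M) (l : Fin (n + 1)) => exists_const P (hy0 P l)
    have hv0 : ∀ P l, Ge P 0 (unif P ^ (ρ P).toNat * δ P (y P l)) := by
      intro P l
      have h1 : Ge P (ρ P) (unif P ^ (ρ P).toNat) := Or.inr (by
        rw [P.ord_pow, ord_unif, mul_one]
        have := hρ0 P
        omega)
      have h2 := h1.mul (hρge P l)
      rwa [add_neg_cancel] at h2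
    choose vb hvb using fun (P : Place k M) (l : Fin (n + 1)) => exists_const P (hv0 P l)
    have hyb1 : ∀ P, yb P (e P) = 1 := by
      intro P
      refine const_unique P (hyb P (e P)) ?_
      rw [hy1, map_one, sub_self]
      exact Ge.zero
    have hvb0 : ∀ P, vb P (e P) = 0 := by
      intro P
      refine const_unique P (hvb P (e P)) ?_
      rw [hy1, Derivation.map_one_eq_zero, mul_zero, map_zero, sub_self]
      exact Ge.zero
    have hvbne : ∀ P ∈ S, vb P ≠ 0 := by
      intro P hP h0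
      obtain ⟨l, hl⟩ := hρex P ((hSm P).1 hP)
      have h1 := hvb P l
      rw [h0, Pi.zero_apply, map_zero, sub_zero] at h1
      have hδ0 : δ P (y P l) ≠ 0 := by
        intro h
        rw [h, P.ord_zero] at hl
        have := (hSm P).1 hP
        omega
      have hu : unif P ≠ 0 := by
        intro h
        have := ord_unif P
        rw [h, P.ord_zero] at this
        omega
      have h2 := h1.resolve_left (mul_ne_zero (pow_ne_zero _ hu) hδ0)
      rw [P.ord_mul (pow_ne_zero _ hu) hδ0, P.ord_pow, ord_unif, hl] at h2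
      have := hρ0 P
      omega
    have hinf : Infinite k := IsAlgClosed.instInfinite
    obtain ⟨b, hb⟩ := exists_vec S yb (fun P _ h0 => by
      have := hyb1 P
      rw [h0] at this
      exact zero_ne_one this)
    obtain ⟨w, hw⟩ : ∃ w : Place k M → Fin (n + 1) → k, ∀ P l, w P l =
      (∑ i, b i * yb P i) * vb P l - (∑ i, b i * vb P i) * yb P l := ⟨_, fun _ _ => rfl⟩
    obtain ⟨a, ha⟩ := exists_vec S w (fun P hP h0 => by
      have h1 : w P (e P) = 0 := by rw [h0]; rfl
      rw [hw, hvb0, hyb1, mul_zero, zero_sub, mul_one, neg_eq_zero] at h1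
      apply hvbne P hP
      ext l
      have h2 : w P l = 0 := by rw [h0]; rfl
      rw [hw, h1, zero_mul, sub_zero] at h2
      exact (mul_eq_zero.1 h2).resolve_left (hb P hP))
    have ha' : ∀ P ∈ S, (∑ l, a l * vb P l) * (∑ l, b l * yb P l) -
        (∑ l, a l * yb P l) * ∑ l, b l * vb P l ≠ 0 := by
      intro P hP h0
      apply ha P hP
      rw [← h0, Finset.sum_mul, Finset.sum_mul, ← Finset.sum_sub_distrib]
      refine Finset.sum_congr rfl fun l _ => ?_
      rw [hw]
      ring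
    by_cases hne : S.Nonempty
    · obtain ⟨P0, hP0⟩ := hne
      obtain ⟨t, ht⟩ : ∃ t, t = (∑ l, algebraMap k M (a l) * x l) /
        ∑ l, algebraMap k M (b l) * x l := ⟨_, rfl⟩
      have hsc : ∀ (P : Place k M) (c : Fin (n + 1) → k), ∑ l, algebraMap k M (c l) * x l =
          x (e P) * ∑ l, algebraMap k M (c l) * y P l := by
        intro P c
        rw [Finset.mul_sum]
        refine Finset.sum_congr rfl fun l _ => ?_
        have := he0 P
        rw [hy]
        field_simp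
      have htP : ∀ P, t = (∑ l, algebraMap k M (a l) * y P l) /
          ∑ l, algebraMap k M (b l) * y P l := by
        intro P
        rw [ht, hsc P, hsc P, mul_div_mul_left _ _ (he0 P)]
      have hloc : ∀ P ∈ S, (∑ l, algebraMap k M (b l) * y P l) ≠ 0 ∧ Ge P 0 t ∧
          ¬ Ge P (-ρ P + 1) (δ P t) := by
        intro P hP
        have h1 := local_gp P (δ P) (y P) (yb P) (vb P) (unif P) (ord_unif P) (ρ P).toNat
          (hyb P) (hvb P) a b (hb P hP) (ha' P hP)
        rw [← htP P, Int.toNat_of_nonneg (hρ0 P)] at h1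
        exact h1
      have hB : (∑ l, algebraMap k M (b l) * x l) ≠ 0 := by
        rw [hsc P0]
        exact mul_ne_zero (he0 P0) (hloc P0 hP0).1
      have htU : t ∈ U := by
        rw [ht]
        refine div_mem (sum_mem fun l _ => mul_mem ?_ (hxU l))
          (sum_mem fun l _ => mul_mem ?_ (hxU l)) <;>
        · rw [IsScalarTower.algebraMap_apply k L M]
          exact U.algebraMap_mem _
      obtain ⟨μ, hμ0, hμf, hμs, hμg⟩ := hMT k L M s δ hsδ t ν (hdeg t htU)
      have h1 : hgt k t ≤ pht k x := ht ▸ hgt_lin x hx a b hB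
      have h2 : ∀ P ∈ S, ρ P ≤ μ P := by
        intro P hP
        obtain ⟨-, h3, h4⟩ := hloc P hP
        by_contra hcon
        push Not at hcon
        exact h4 ((hμg P h3).mono (by omega))
      have h3 : ∑ᶠ P, ρ P = ∑ P ∈ S, ρ P := by
        rw [finsum_eq_sum_of_support_subset (s := S)]
        intro P hP
        exact (hSm P).2 hP
      have h4 : ∑ P ∈ S, μ P ≤ ∑ᶠ P, μ P := by
        rw [finsum_eq_sum_of_support_subset (s := S ∪ hμf.toFinset)]
        · exact Finset.sum_le_sum_of_subset_of_nonneg Finset.subset_union_left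
            fun P _ _ => hμ0 P
        · intro P hP
          rw [Finset.coe_union]
          exact Or.inr (by rw [Set.Finite.coe_toFinset]; exact hP)
      rw [h3]
      have h5 := Finset.sum_le_sum h2
      have h6 : (2 * (ν : ℤ) - 2) * hgt k t ≤ (2 * ν - 2) * pht k x :=
        mul_le_mul_of_nonneg_left h1 (by omega)
      linarith
    · rw [Finset.not_nonempty_iff_eq_empty] at hne
      have h1 : ∑ᶠ P, ρ P = 0 := by
        rw [finsum_eq_sum_of_support_subset (s := S), hne, Finset.sum_empty]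
        intro P hP
        exact (hSm P).2 hP
      rw [h1]
      exact mul_nonneg (by omega) hpht
  · rintro P lam x' hlam hxx hx' ⟨e1, he1⟩ l
    have h1 : ∀ l, x l = lam * x' l := fun l => by rw [hxx]; rfl
    have h2 : x e1 = lam := by rw [h1, he1, mul_one]
    refine renorm P (δ P) (y P) x' (e P) e1 (hy1 P) he1 (hy0 P) hx' (x (e P) / lam)
      (fun l => ?_) (ρ P) (hρ0 P) (hρge P) l
    rw [hy, h1 l]
    have := he0 P
    field_simp

end Pool.Agent.Helper53K9.BD
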