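import Pool.Agent.Helper53K9.BD.Stm

/-!
# Leaf HTS
-/

set_option autoImplicit false

open MvPolynomial FF Pool.Agent.W603.LV Pool.Agent.W603.PV Pool.Agent.W602.RG Pool.Agent.TH145.GH
open Pool.Agent.TH145.GC (Data Gen Full Cf)

namespace Pool.Agent.Helper53K9.BD

theorem hts : S_HTS := by
  intro k L M _ _ _ _ _ _ _ _ _ _ _ _ f
  exact hgt_algebraMap f

end Pool.Agent.Helper53K9.BD
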