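import Pool.Agent.Helper53K9.BD.Stm

/-!
[LAG] Heights of the coefficients of a polynomial with given roots and of an interpolating
polynomial.
-/

set_option autoImplicit false

open FF Pool.Agent.W603.LV Pool.Agent.W603.PV

namespace Pool.Agent.Helper53K9.BD

open Polynomial

namespace LagL

variable {k M : Type} [Field k] [Field M] [Algebra k M] [IsAlgClosed k] [CharZero k] [IsFF k M]

theorem hgt_sub_le (u v : M) : hgt k (u - v) ≤ hgt k u + hgt k v := by
  rw [sub_eq_add_neg]
  refine (Pool.Agent.TH145.MW.hgt_add_le u (-v)).trans ?_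
  rw [Pool.Agent.TH145.MW.hgt_neg]

theorem hgt_prod_le {α : Type} (s : Finset α) (f : α → M) {B : ℤ} (h : ∀ a ∈ s, hgt k (f a) ≤ B) :
    hgt k (∏ a ∈ s, f a) ≤ s.card * B := by
  classical
  induction s using Finset.induction_on with
  | empty => rw [Finset.prod_empty, hgt_one]; simp
  | insert a s ha ih =>
    rw [Finset.prod_insert ha, Finset.card_insert_of_notMem ha]
    have h1 := ih fun b hb => h b (Finset.mem_insert_of_mem hb)
    have h2 := h a (Finset.mem_insert_self a s)
    refine (Pool.Agent.TH145.MW.hgt_mul_le _ _).trans ?_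
    push_cast
    linarith

theorem hgt_coeff_prod (s : Finset M) {B : ℤ} (hB : 0 ≤ B) (h : ∀ t ∈ s, hgt k t ≤ B) :
    ∀ i, hgt k ((∏ t ∈ s, (X - C t)).coeff i) ≤ (2 ^ s.card : ℤ) * B := by
  classical
  -- the bound `2 ^ card - 1`
  suffices H : ∀ i, hgt k ((∏ t ∈ s, (X - C t)).coeff i) ≤ ((2 ^ s.card : ℤ) - 1) * B by
    intro i
    refine (H i).trans ?_
    nlinarith
  induction s using Finset.induction_on with
  | empty =>
    intro i
    rw [Finset.prod_empty, coeff_one]
    split_ifs
    · rw [hgt_one]; simp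
    · rw [hgt_zero]; simp
  | insert a s ha ih =>
    intro i
    have h1 := ih fun b hb => h b (Finset.mem_insert_of_mem hb)
    have h2 := h a (Finset.mem_insert_self a s)
    rw [Finset.prod_insert ha, Finset.card_insert_of_notMem ha, sub_mul]
    rw [coeff_sub, coeff_C_mul]
    have h3 : hgt k ((X * ∏ t ∈ s, (X - C t)).coeff i) ≤ ((2 ^ s.card : ℤ) - 1) * B := by
      rcases i with _ | i
      · rw [coeff_X_mul_zero, hgt_zero]
        have h5 : (1 : ℤ) ≤ 2 ^ s.card := one_le_pow₀ (by norm_num)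
        nlinarith
      · rw [coeff_X_mul]
        exact h1 i
    refine (hgt_sub_le _ _).trans ?_
    have h4 := Pool.Agent.TH145.MW.hgt_mul_le (k := k) a ((∏ t ∈ s, (X - C t)).coeff i)
    have h5 := h1 i
    rw [pow_succ]
    nlinarith

end LagL

theorem lag : S_LAG := by
  intro ν
  refine ⟨2 ^ ν + ν * (1 + 2 * ν + 2 ^ ν), ?_⟩
  intro k M _ _ _ _ _ _ s hs B hB h
  classical
  have hpow : ∀ m : ℕ, m ≤ ν → (2 ^ m : ℤ) ≤ 2 ^ ν := fun m hm =>
    pow_le_pow_right₀ (by norm_num) hm
  constructor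
  · intro i
    refine (LagL.hgt_coeff_prod (k := k) s hB h i).trans ?_
    refine mul_le_mul_of_nonneg_right ?_ hB
    push_cast
    have h1 := hpow _ hs
    have : (0 : ℤ) ≤ ν * (1 + 2 * ν + 2 ^ ν) := by positivity
    linarith
  · intro Q hQ hQB i
    have hQ2 : Q = Lagrange.interpolate s id fun t => Q.eval (id t) :=
      Lagrange.eq_interpolate (Set.injOn_id _) hQ
    rw [hQ2, Lagrange.interpolate_apply, finsetSum_coeff]
    refine (Pool.Agent.TH145.MW.hgt_sum_le _ _).trans ?_
    have key : ∀ t ∈ s, hgt k ((C (Q.eval (id t)) * Lagrange.basis s id t).coeff i) ≤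
        ((1 + 2 * ν + 2 ^ ν : ℕ) : ℤ) * B := by
      intro t ht
      rw [coeff_C_mul]
      have e1 : Lagrange.basis s id t = C (∏ t' ∈ s.erase t, (t - t')⁻¹) *
          ∏ t' ∈ s.erase t, (X - C t') := by
        unfold Lagrange.basis Lagrange.basisDivisor
        rw [Finset.prod_mul_distrib, map_prod]
        rfl
      rw [e1, coeff_C_mul]
      have hc : (s.erase t).card ≤ ν := (Finset.card_le_card (Finset.erase_subset _ _)).trans hs
      have h1 : hgt k (Q.eval (id t)) ≤ B := hQB t ht
      have h2 : hgt k (∏ t' ∈ s.erase t, (t - t')⁻¹) ≤ (s.erase t).card * (2 * B) := by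
        refine LagL.hgt_prod_le _ _ fun t' ht' => ?_
        rw [hgt_inv]
        refine (LagL.hgt_sub_le _ _).trans ?_
        have h3 := h t ht
        have h4 := h t' (Finset.mem_of_mem_erase ht')
        linarith
      have h3 := LagL.hgt_coeff_prod (k := k) (s.erase t) hB
        (fun t' ht' => h t' (Finset.mem_of_mem_erase ht')) i
      have h4 := Pool.Agent.TH145.MW.hgt_mul_le (k := k) (Q.eval (id t))
        ((∏ t' ∈ s.erase t, (t - t')⁻¹) * (∏ t' ∈ s.erase t, (X - C t')).coeff i)
      have h5 := Pool.Agent.TH145.MW.hgt_mul_le (k := k) (∏ t' ∈ s.erase t, (t - t')⁻¹)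
        ((∏ t' ∈ s.erase t, (X - C t')).coeff i)
      have h6 : ((s.erase t).card : ℤ) * (2 * B) ≤ ν * (2 * B) :=
        mul_le_mul_of_nonneg_right (by exact_mod_cast hc) (by linarith)
      have h7 : (2 ^ (s.erase t).card : ℤ) * B ≤ 2 ^ ν * B :=
        mul_le_mul_of_nonneg_right (hpow _ hc) hB
      push_cast
      nlinarith
    refine (Finset.sum_le_sum key).trans ?_
    rw [Finset.sum_const, nsmul_eq_mul]
    have h8 : (s.card : ℤ) * (((1 + 2 * ν + 2 ^ ν : ℕ) : ℤ) * B) ≤
        ν * (((1 + 2 * ν + 2 ^ ν : ℕ) : ℤ) * B) :=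
      mul_le_mul_of_nonneg_right (by exact_mod_cast hs) (by positivity)
    refine h8.trans ?_
    push_cast
    have h9 : (0 : ℤ) ≤ 2 ^ ν * B := by positivity
    nlinarith

end Pool.Agent.Helper53K9.BD
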