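import Pool.Agent.Helper53K9.AB.Fin

/-!
# Algebraic points of bounded degree on generic complete intersections: statements of the leaves

`k` is an algebraically closed field of characteristic zero, `M / L` a finite extension of function
fields of one variable over `k`. `Ge P c f` means `f = 0` or `c ≤ P.ord f`.

The idea: at a place `P` of `M` let `s ∈ L` have the least positive order among the elements of `L`
and let `δ = d / ds`. A derivation `D` that maps `k` to `k` is `D s • δ` plus a derivation that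
preserves the local ring at `P` (`S_LOC`). So in a determinant whose rows are derivatives of
the coordinates of a point the ramification enters only once (`S_DETL`), through `δ x`. The poles of
`δ x` are bounded, altogether, by `(2 ν - 2) h (x)`, `ν` the degree of the point over `L`
(`S_MT`, `S_GP`).
-/

set_option autoImplicit false

open MvPolynomial FF Pool.Agent.W603.LV Pool.Agent.W603.PV Pool.Agent.W602.RG Pool.Agent.TH145.GH
open Pool.Agent.TH145.GC (Data Gen Full Cf)

namespace Pool.Agent.Helper53K9.BD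

/-- `s` generates the values of `P` on `L`, and `δ` is the derivation with respect to `s`. -/
structure AtP {k L M : Type} [Field k] [Field L] [Field M] [Algebra k M] [Algebra L M]
    (P : Place k M) (s : L) (δ : Derivation k M M) : Prop where
  pos : 0 < P.ord (algebraMap L M s)
  dvd : ∀ f : L, P.ord (algebraMap L M s) ∣ P.ord (algebraMap L M f)
  der : δ (algebraMap L M s) = 1

/-- [RES] Restriction of a place. Some `f ∈ L` has `P.ord f ≠ 0` (otherwise `P` is trivial, as `M` is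
algebraic over `L`: use `Place.ord_eq_zero_of_isAlgebraic` for the place `P` over the field of
constants `L`, as in the proof of `TH145.GH.unif_dich`); divide by the generator of the group of
values of `P.ord ∘ algebraMap`. -/
def S_RES : Prop := ∀ (k L M : Type) [Field k] [Field L] [Field M] [Algebra k L] [Algebra L M]
  [Algebra k M] [IsScalarTower k L M] [IsAlgClosed k] [CharZero k] [IsFF k L] [IsFF k M]
  [FiniteDimensional L M] (P : Place k M),
  ∃ (Q : Place k L) (r : ℤ), 1 ≤ r ∧ ∀ f : L, P.ord (algebraMap L M f) = r * Q.ord f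

/-- [HTS] Heights in a finite extension. `hgt_eq_finrank` (W603/PV/Ext.lean) for transcendental `f`
and multiplicativity of degrees; both sides are zero for constants (`TH145.MG.hgt_const`). -/
def S_HTS : Prop := ∀ (k L M : Type) [Field k] [Field L] [Field M] [Algebra k L] [Algebra L M]
  [Algebra k M] [IsScalarTower k L M] [IsAlgClosed k] [CharZero k] [IsFF k L] [IsFF k M]
  [FiniteDimensional L M] (f : L), hgt k (algebraMap L M f) = Module.finrank L M * hgt k f

/-- [SUMQ] Transfer of a loss function. For `P` restricting to `Q` with index `r` put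
`e' P = r * e Q`; for fixed `Q` the sum of the `r` is at most the number of zeros of `unif Q` in `M`,
i.e. `hgt k (algebraMap L M (unif Q))`. -/
def S_SUMQ : Prop := ∀ (k L M : Type) [Field k] [Field L] [Field M] [Algebra k L] [Algebra L M]
  [Algebra k M] [IsScalarTower k L M] [IsAlgClosed k] [CharZero k] [IsFF k L] [IsFF k M]
  [FiniteDimensional L M] (e : Place k L → ℤ), (∀ Q, 0 ≤ e Q) → {Q | e Q ≠ 0}.Finite →
  ∃ e' : Place k M → ℤ, (∀ P, 0 ≤ e' P) ∧ {P | e' P ≠ 0}.Finite ∧
    (∀ (P : Place k M) (f g : L), Ge P 0 (algebraMap L M f) →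
      (∀ Q : Place k L, Ge Q 0 f → Ge Q (-e Q) g) → Ge P (-e' P) (algebraMap L M g)) ∧
    ∑ᶠ P, e' P ≤ Module.finrank L M * ∑ᶠ Q, e Q * hgt k (unif Q)

/-- [ATP] Existence, from `S_RES` (`s = unif Q`) and `exists_der` (W603/LV/Ex.lean), scaled. -/
def S_ATP : Prop := ∀ (k L M : Type) [Field k] [Field L] [Field M] [Algebra k L] [Algebra L M]
  [Algebra k M] [IsScalarTower k L M] [IsAlgClosed k] [CharZero k] [IsFF k L] [IsFF k M]
  [FiniteDimensional L M] (P : Place k M), ∃ (s : L) (δ : Derivation k M M), AtP P s δ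

/-- [LOC] `Δ = D - D s • δ` satisfies `Sem k Δ` and `Δ s = 0`. Let `π` be a uniformizer, `d` the
derivation of `M` over `k` with `d π = 1`; `Δ - Δ π • d` kills `π`, so by `reg_of_unif`
(TH145/GH/KL.lean) it preserves the local ring, and maps `f = π ^ m u` to `π ^ m` times something
integral. For `f = s`, of order `r`: `Δ π * d s` has order at least `r`, and `d s` has order `r - 1`
(`ord_der`), so `Ge P 1 (Δ π)`; now `reg_of_unif` for `Δ`. -/
def S_LOC : Prop := ∀ (k L M : Type) [Field k] [Field L] [Field M] [Algebra L M]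
  [Algebra k M] [IsAlgClosed k] [CharZero k] [IsFF k M] (P : Place k M) (s : L)
  (δ : Derivation k M M), AtP P s δ → ∀ D : Derivation ℤ M M, Sem k D → ∀ u : M, Ge P 0 u →
    Ge P 0 (D u - D (algebraMap L M s) * δ u)

/-- [A2] `δ` maps elements of `L` that are integral at `P` to integral elements. Either by
restricting to `L` and `der_reg` (W603/LV/Der2.lean) at the place `Q` below `P`, or directly: for
`f ∈ L` integral there is a constant `c` with `f - c = s f₁`, `f₁ ∈ L` integral, so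
`δ f = f₁ + s δ f₁`, and the pole of `δ` on integral elements is bounded. -/
def S_A2 : Prop := ∀ (k L M : Type) [Field k] [Field L] [Field M] [Algebra k L] [Algebra L M]
  [Algebra k M] [IsScalarTower k L M] [IsAlgClosed k] [CharZero k] [IsFF k L] [IsFF k M]
  [FiniteDimensional L M] (P : Place k M) (s : L) (δ : Derivation k M M), AtP P s δ →
  ∀ f : L, Ge P 0 (algebraMap L M f) → Ge P 0 (δ (algebraMap L M f))

/-- [MT] The poles of `δ t`. Let `F = ∑ c_j T ^ j` be the minimal polynomial of `t` over `L`, of degree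
`d ≤ ν`, `γ_P = min_j P.ord c_j ≤ 0` (the leading coefficient is `1`), `w_P = min 0 (P.ord t)`. Put
`μ P = P.ord (F' t) - γ_P - (d - 2) w_P`.
(1) `μ ≥ 0`: clear if `t` is integral; otherwise `t F' t = ∑_(j < d) (j - d) c_j t ^ j` since
`F t = 0`.
(2) If `t` is integral: let `g = c_j` have the least order (as an element of `L`) and `G = F / g`;
`0 = δ (G t) = (δ G) t + G' t * δ t`, and `δ G` has integral coefficients by [A2]. So
`Ge P (-μ P) (δ t)`.
(3) `∑ P.ord (F' t) = 0`, `- ∑ γ_P ≤ d hgt t`, because `M / L` is Galois: `F = ∏ (T - t_i)` in `M`, so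
`γ_P ≥ ∑_i min 0 (P.ord t_i)`, and the conjugates `t_i` have the same height (`hgt_equiv`,
TH145/GH/Lim.lean). So `∑ μ ≤ d hgt t + (d - 2) hgt t`. -/
def S_MT : Prop := ∀ (k L M : Type) [Field k] [Field L] [Field M] [Algebra k L] [Algebra L M]
  [Algebra k M] [IsScalarTower k L M] [IsAlgClosed k] [CharZero k] [IsFF k L] [IsFF k M]
  [FiniteDimensional L M] [IsGalois L M] (s : Place k M → L)
  (δ : Place k M → Derivation k M M), (∀ P, AtP P (s P) (δ P)) →
  ∀ (t : M) (ν : ℕ), (minpoly L t).natDegree ≤ ν → ∃ μ : Place k M → ℤ, (∀ P, 0 ≤ μ P) ∧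
    {P | μ P ≠ 0}.Finite ∧ ∑ᶠ P, μ P ≤ (2 * ν - 2) * hgt k t ∧
    ∀ P, Ge P 0 t → Ge P (-μ P) (δ P t)

/-- [GP] The poles of `δ x'`, `x'` the normalised coordinates of the point at the place. Let
`ρ P = max 0 (- min_l P.ord (δ P (x' l)))` (independent of the normalisation `x = lam x'` with
`x' e1 = 1`: the difference of two such is a multiple of `x'`, and `δ P (x' e1) = 0`; it is enough to
fix one normalisation and compare). The set `S` of the `P` with `ρ P ≠ 0` is finite: by [MT] for the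
finitely many `t = x l / x e1`. Choose vectors `a, b ∈ k ^ (n+1)` such that for the finitely many
`P ∈ S`, with reductions `x̄` of `x'` and `v̄ ≠ 0` of `π ^ ρ • δ x'` (so `v̄ e1 = 0`, `x̄ e1 = 1`)
`b·x̄ ≠ 0` and `(a·v̄)(b·x̄) - (a·x̄)(b·v̄) ≠ 0` (a nonzero polynomial in `a, b`; `k` is
infinite), and `b·x ≠ 0`. Then `t = (a·x)/(b·x) ∈ U` is integral at the `P ∈ S` and
`P.ord (δ P t) = - ρ P`; by [MT] `ρ P ≤ μ P` for `P ∈ S`, so
`∑ ρ ≤ ∑ μ ≤ (2 ν - 2) hgt t ≤ (2 ν - 2) pht x`. -/
def S_GP : Prop := ∀ (k L M : Type) [Field k] [Field L] [Field M] [Algebra k L] [Algebra L M]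
  [Algebra k M] [IsScalarTower k L M] [IsAlgClosed k] [CharZero k] [IsFF k L] [IsFF k M]
  [FiniteDimensional L M] [IsGalois L M] (s : Place k M → L)
  (δ : Place k M → Derivation k M M), (∀ P, AtP P (s P) (δ P)) →
  ∀ (n ν : ℕ) (U : IntermediateField L M), Module.finrank L U ≤ ν →
  ∀ (x : Fin (n + 1) → M) (l0 : Fin (n + 1)), x l0 = 1 → (∀ j, x j ∈ U) →
  ∃ ρ : Place k M → ℤ, (∀ P, 0 ≤ ρ P) ∧ {P | ρ P ≠ 0}.Finite ∧
    ∑ᶠ P, ρ P ≤ (2 * ν - 2) * pht k x ∧
    ∀ (P : Place k M) (lam : M) (x' : Fin (n + 1) → M), lam ≠ 0 → x = lam • x' →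
      (∀ l, Ge P 0 (x' l)) → (∃ e1, x' e1 = 1) → ∀ l, Ge P (-ρ P) (δ P (x' l))

/-- [DETL] The determinant of a matrix of rank one plus an integral matrix. If `v = 0` clear.
Otherwise take `j0` with `P.ord (v j0)` least, subtract `v j / v j0` times the column `j0` from the
column `j ≠ j0`: all columns but one are integral. -/
def S_DETL : Prop := ∀ (k M : Type) [Field k] [Field M] [Algebra k M] (P : Place k M) (R : Type)
  [Fintype R] [DecidableEq R] (α v : R → M) (β : R → R → M) (a b : ℤ), 0 ≤ a → 0 ≤ b →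
  (∀ i, Ge P (-a) (α i)) → (∀ j, Ge P (-b) (v j)) → (∀ i j, Ge P 0 (β i j)) →
  Ge P (-(a + b)) (Matrix.of fun i j => α i * v j + β i j).det

/-- [WSUM] as `TH145.GH.sum_local` (TH145/GH/Ineq.lean). -/
def S_WSUM : Prop := ∀ (k M : Type) [Field k] [Field M] [Algebra k M] [IsAlgClosed k] [CharZero k]
  [IsFF k M] (n : ℕ) (x : Fin (n + 1) → M), x ≠ 0 → ∀ (Θ : M) (a : ℤ) (C : Place k M → ℤ),
  {P | C P ≠ 0}.Finite → (∀ P : Place k M, (-a) * pord P x - C P ≤ P.ord Θ) →
  a * pht k x ≤ ∑ᶠ P, C P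

/-- [INEQ] The height inequality for points of degree at most `ν` over `L`. (Owner: helper53) -/
def S_INEQ : Prop := ∀ (k L M : Type) [Field k] [Field L] [Field M] [Algebra k L] [Algebra L M]
  [Algebra k M] [IsScalarTower k L M] [IsAlgClosed k] [CharZero k] [IsFF k L] [IsFF k M]
  [FiniteDimensional L M] [IsGalois L M] (n m ν : ℕ) (A : Type) [Fintype A] (dg : A → ℕ)
  (F : A → MvPolynomial (Fin (n + 1)) L) (D : A → (Fin (n + 1) →₀ ℕ) → Derivation ℤ L L)
  (e : Place k L → ℤ), Data k F dg D e →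
  ∀ D' : A → (Fin (n + 1) →₀ ℕ) → Derivation ℤ M M, (∀ a I, Sem k (D' a I)) →
  (∀ a I f, D' a I (algebraMap L M f) = algebraMap L M (D a I f)) →
  2 * m + 2 * ν ≤ ∑ a, (dg a + 1) →
  ∀ U : IntermediateField L M, Module.finrank L U ≤ ν →
  ∀ (x : Fin (n + 1) → M) (l0 : Fin (n + 1)), x l0 = 1 → (∀ j, x j ∈ U) →
  (∀ a, eval x (map (algebraMap L M) (F a)) = 0) →
  Module.finrank M (Full dg D' x) ≤ m + 1 →
  pht k x ≤ Module.finrank L M * ∑ᶠ Q, e Q * hgt k (unif Q)

/-- [PRIM] A primitive element with few possible coefficients. Two different embeddings of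
`E (x)` over `E` into `K` differ at some `x j`, so `∑ (σ x j - τ x j) u ^ j` has at most `n` zeros `u`;
choose `u` outside of the zeros for all the at most `ν ^ 2` pairs;
`Field.primitive_element_iff_algHom_eq_of_eval` or a count of embeddings. -/
def S_PRIM : Prop := ∀ (E K : Type) [Field E] [Field K] [Algebra E K] [CharZero K] [IsAlgClosed K]
  (n ν : ℕ) (x : Fin (n + 1) → K) (U : IntermediateField E K), FiniteDimensional E U →
  Module.finrank E U ≤ ν → (∀ j, x j ∈ U) → ∃ u : ℕ, u ≤ (n + 1) * ν * ν ∧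
    ∀ j, x j ∈ IntermediateField.adjoin E {∑ i : Fin (n + 1), (u : K) ^ (i : ℕ) * x i}

/-- [LAG] Heights of the coefficients of a polynomial with given roots, and of an interpolating
polynomial. Induction on the set for the first (`hgt_mul_le`, `hgt_add_le`, TH145/MW/Cramer.lean),
`Lagrange.interpolate` and `hgt_inv` for the second. -/
def S_LAG : Prop := ∀ ν : ℕ, ∃ c : ℕ, ∀ (k M : Type) [Field k] [Field M] [Algebra k M]
  [IsAlgClosed k] [CharZero k] [IsFF k M] (s : Finset M), s.card ≤ ν → ∀ B : ℤ, 0 ≤ B →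
  (∀ t ∈ s, hgt k t ≤ B) →
  (∀ i, hgt k ((∏ t ∈ s, (Polynomial.X - Polynomial.C t)).coeff i) ≤ c * B) ∧
  ∀ Q : Polynomial M, Q.degree < s.card → (∀ t ∈ s, hgt k (Q.eval t) ≤ B) →
    ∀ i, hgt k (Q.coeff i) ≤ c * B

/-- [RIG2] `TH145.GH.exists_rig` (TH145/GH/Rig.lean) with the element `z j1` replaced by any `ζ` that is
algebraic over the field generated by the `z j` and `E`. Copy the proof; `z j1` is used only through
`z j1 ∈ acl (...)` there. -/
def S_RIG2 : Prop := ∀ (k0 K : Type) [Field k0] [Field K] [Algebra k0 K] [IsAlgClosed k0]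
    [IsAlgClosed K] [CharZero K] (E : Subfield K) (_ : ∀ r : k0, algebraMap k0 K r ∈ E) (J : Type)
    [Finite J] (z : J → Om K) (_ : ∀ j, z j ∈ OE k0 (E : Set K)) (ζ : Om K)
    (_ : ζ ∈ acl (Set.range z ∪ cst K '' (E : Set K))) (_ : ζ ∉ acl (cst K '' (E : Set K))),
    ∃ (κ : Subfield (Om K)) (Λ : IntermediateField κ (Om K)) (M : Subfield Λ),
      IsAlgClosed κ ∧ IsFF κ Λ ∧ (∀ x ∈ E, cst K x ∈ κ) ∧ (∀ j, z j ∈ Λ) ∧ ζ ∉ κ ∧
      (∀ m ∈ M, ((m : Λ) : Om K) ∈ CC k0 K) ∧
      (∀ D : Derivation ℤ (Om K) (Om K), (∀ w ∈ CC k0 K, D w = 0) →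
        (∀ x ∈ E, ∃ x' ∈ E, D (cst K x) = cst K x') → (∀ x ∈ κ, D x ∈ κ) ∧ ∀ x ∈ Λ, D x ∈ Λ) ∧
      ∀ P : Place κ Λ, ((∀ m ∈ M, P.ord m = 0) ∧ ∃ θ ∈ M, ∃ c : κ,
        P.ord (θ - algebraMap κ Λ c) = 1) ∨ ∃ π ∈ M, P.ord π = 1

/-- [EHT] The heights of the points over `K` of degree at most `ν` over `E`, given by `t` with
minimal polynomial `G` and `x j = Q j (t)`: in the variable `i` the coefficients have bounded
height. Let `L = LL k0 y E i`, `κ = kap k0 y i`, `M` the intermediate field of `K / L` generated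
by the roots of `G` (Galois over `L`, `IsFF κ M`). For each root `t'` of `G` in `K` the point
`x' j = Q j (t')` satisfies the same equations (`G` divides everything that vanishes at `t`), and lies
in `U = L (t')`, of degree at most `ν`. Apply [INEQ] (data by `exists_data_L`, rank by
`TH145.GC.rank_le` and `hV`), `hgt x'_j ≤ pht x' ≤ [M : L] B`, `t' = ∑ u ^ j x' j`; [LAG] for
the set of the roots; [HTS] to go back to `L`. -/
def S_EHT : Prop := ∀ (k0 K ι : Type) [Field k0] [Field K] [Algebra k0 K] [IsAlgClosed K]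
  [CharZero K] (y : ι → K) (E : IntermediateField (IntermediateField.adjoin k0 (Set.range y)) K)
  (n m ν u : ℕ) (A : Type) [Fintype A] (dg : A → ℕ) (_ : AlgebraicIndependent k0 y)
  [FiniteDimensional (IntermediateField.adjoin k0 (Set.range y)) E]
  (F : A → MvPolynomial (Fin (n + 1)) E.toSubfield)
  (DE : A → (Fin (n + 1) →₀ ℕ) → E.toSubfield → E.toSubfield) (_ : Gen F dg DE)
  (D : A → (Fin (n + 1) →₀ ℕ) → Derivation ℤ K K)
  (_ : ∀ a I (x : E.toSubfield), D a I x = (DE a I x : K))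
  (_ : ∀ a I (r : k0), D a I (algebraMap k0 K r) = 0)
  (_ : ∀ a I j, ∃ r : k0, D a I (y j) = algebraMap k0 K r)
  (_ : 2 * m + 2 * ν ≤ ∑ a, (dg a + 1))
  (V : Set (MvPolynomial (Fin (n + 1)) k0)) (_ : Pool.Agent.TH145.MG.DimLE k0 V m)
  (l0 : Fin (n + 1)) (i : ι),
  ∃ B : ℤ, ∀ (t : K) (G : Polynomial E) (Q : Fin (n + 1) → Polynomial E), G.Monic →
    Irreducible G → G.natDegree ≤ ν → Polynomial.aeval t G = 0 →
    (∀ j, (Q j).degree < G.natDegree) →
    ∀ x : Fin (n + 1) → K, (∀ j, x j = Polynomial.aeval t (Q j)) → x l0 = 1 →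
      t = ∑ j : Fin (n + 1), (u : K) ^ (j : ℕ) * x j →
      (∀ f ∈ V, eval₂ (algebraMap k0 K) x f = 0) →
      (∀ a, eval x (map E.toSubfield.subtype (F a)) = 0) →
      (∀ r, hgt (kap k0 y i) (⟨(G.coeff r : K), subset_LL y _ i (G.coeff r).2⟩ :
        LL k0 y (E : Set K) i) ≤ B) ∧
      ∀ j r, hgt (kap k0 y i) (⟨((Q j).coeff r : K), subset_LL y _ i ((Q j).coeff r).2⟩ :
        LL k0 y (E : Set K) i) ≤ B

/-- [LIM3] Limit points of degree at most `ν` are constant. If some `z j` is not, apply [RIG2] to the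
coefficients of `G` and of the `Q j`, and `ζ = z j`; `M` = the field generated over `Λ` by the roots
of `G` in `Om K`; the derivations `hat (D a I)` preserve `Λ` (see the proof of
`TH145.GC.exists_rig_data`, GC/Limit.lean), hence `M`; [INEQ] with the loss `0` gives `pht z ≤ 0`, so
`z j ∈ κ` (`const_of_pht`). -/
def S_LIM3 : Prop := ∀ (k0 K : Type) [Field k0] [Field K] [Algebra k0 K] [IsAlgClosed k0]
  [IsAlgClosed K] [CharZero K] (n m ν : ℕ) (A : Type) [Fintype A] (dg : A → ℕ) (E : Subfield K)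
  (_ : ∀ r : k0, algebraMap k0 K r ∈ E)
  (F : A → MvPolynomial (Fin (n + 1)) E) (DE : A → (Fin (n + 1) →₀ ℕ) → E → E)
  (_ : Gen F dg DE) (D : A → (Fin (n + 1) →₀ ℕ) → Derivation ℤ K K)
  (_ : ∀ a I (x : E), D a I x = (DE a I x : K))
  (_ : ∀ a I (r : k0), D a I (algebraMap k0 K r) = 0)
  (_ : 2 * m + 2 * ν ≤ ∑ a, (dg a + 1)) (V : Set (MvPolynomial (Fin (n + 1)) k0))
  (_ : Pool.Agent.TH145.MG.DimLE k0 V m)
  (t : Om K) (G : Polynomial (Om K)) (Q : Fin (n + 1) → Polynomial (Om K))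
  (_ : G.Monic) (_ : G.natDegree ≤ ν) (_ : G.eval t = 0)
  (_ : ∀ r, G.coeff r ∈ OE k0 (E : Set K)) (_ : ∀ j r, (Q j).coeff r ∈ OE k0 (E : Set K))
  (z : Fin (n + 1) → Om K) (_ : ∀ j, z j = (Q j).eval t) (l0 : Fin (n + 1)) (_ : z l0 = 1)
  (_ : ∀ f ∈ V, eval₂ ((cst K).comp (algebraMap k0 K)) z f = 0)
  (_ : ∀ a, eval z (map ((cst K).comp E.subtype) (F a)) = 0) (j : Fin (n + 1)),
  z j ∈ acl (cst K '' (E : Set K))

end Pool.Agent.Helper53K9.BD
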