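import Pool.Agent.TH145.GH.Rig
import Pool.Agent.Helper53K9.BD.Stm

/-!
The function field of a limit point of bounded degree ([RIG2]).
-/

set_option autoImplicit false

open FF Pool.Agent.W603.LV Pool.Agent.W602.RG Pool.Agent.TH145.GH

namespace Pool.Agent.Helper53K9.BD

variable {k0 K : Type} [Field k0] [Field K] [Algebra k0 K] [IsAlgClosed k0] [IsAlgClosed K]
  [CharZero K]

set_option maxHeartbeats 4000000 in
theorem rig2_aux (E : Subfield K) (hE : ∀ r : k0, algebraMap k0 K r ∈ E) {J : Type} [Finite J]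
    (z : J → Om K) (hz : ∀ j, z j ∈ OE k0 (E : Set K)) (ζ : Om K)
    (hζ : ζ ∈ acl (Set.range z ∪ cst K '' (E : Set K))) (hj1 : ζ ∉ acl (cst K '' (E : Set K))) :
    ∃ (κ : Subfield (Om K)) (Λ : IntermediateField κ (Om K)) (M : Subfield Λ),
      IsAlgClosed κ ∧ IsFF κ Λ ∧ (∀ x ∈ E, cst K x ∈ κ) ∧ (∀ j, z j ∈ Λ) ∧ ζ ∉ κ ∧
      (∀ m ∈ M, ((m : Λ) : Om K) ∈ CC k0 K) ∧
      (∀ D : Derivation ℤ (Om K) (Om K), (∀ w ∈ CC k0 K, D w = 0) →
        (∀ x ∈ E, ∃ x' ∈ E, D (cst K x) = cst K x') → (∀ x ∈ κ, D x ∈ κ) ∧ ∀ x ∈ Λ, D x ∈ Λ) ∧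
      ∀ P : Place κ Λ, ((∀ m ∈ M, P.ord m = 0) ∧ ∃ θ ∈ M, ∃ c : κ,
        P.ord (θ - algebraMap κ Λ c) = 1) ∨ ∃ π ∈ M, P.ord π = 1 := by
  classical
  have := Fintype.ofFinite J
  have hacOm : IsAlgClosed (Om K) := Pool.Agent.W917.RG.GAC.main K
  have hczOm : CharZero (Om K) := charZero_of_injective_algebraMap (cst K).injective |> fun h => h
  have hCC : IsAlgClosed (CC k0 K) := CC_ac
  obtain ⟨ks, hks⟩ : ∃ ks : Set (Om K), ks = cst K '' Set.range (algebraMap k0 K) := ⟨_, rfl⟩
  have hksE : ks ⊆ cst K '' (E : Set K) := by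
    rw [hks]
    exact Set.image_mono (by rintro _ ⟨r, rfl⟩; exact hE r)
  have hksC : ks ⊆ CC k0 K := by
    rw [hks]
    rintro _ ⟨_, ⟨r, rfl⟩, rfl⟩
    exact cst_mem_CC r
  -- finitely many elements
  have h1 : ∀ j, ∃ c : Finset (Om K), (c : Set (Om K)) ⊆ Set.range (mapOm k0 K) ∧
      z j ∈ Subfield.closure ((c : Set (Om K)) ∪ cst K '' (E : Set K)) := fun j =>
    fin_closure (hz j)
  choose cj hcj hzcj using h1
  obtain ⟨c, hc⟩ : ∃ c : Finset (Om K), c = Finset.univ.biUnion cj := ⟨_, rfl⟩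
  have hcC : (c : Set (Om K)) ⊆ CC k0 K := by
    intro w hw
    rw [hc, Finset.mem_coe, Finset.mem_biUnion] at hw
    obtain ⟨j, -, hw⟩ := hw
    obtain ⟨u, hu⟩ := hcj j hw
    exact ⟨u, hu⟩
  have hzc : ∀ j, z j ∈ Subfield.closure ((c : Set (Om K)) ∪ cst K '' (E : Set K)) := by
    intro j
    refine Subfield.closure_mono (Set.union_subset_union_left _ ?_) (hzcj j)
    rw [hc]
    intro w hw
    rw [Finset.mem_coe, Finset.mem_biUnion]
    exact ⟨j, Finset.mem_univ _, hw⟩
  -- a transcendence basis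
  obtain ⟨S, hS⟩ := (c.powerset.filter fun S : Finset (Om K) =>
    (c : Set (Om K)) ⊆ acl (ks ∪ (S : Set (Om K)))).exists_minimal (by
      refine ⟨c, Finset.mem_filter.2 ⟨Finset.mem_powerset.2 le_rfl, ?_⟩⟩
      exact Set.subset_union_right.trans (subset_acl _))
  obtain ⟨hSm, hSmin⟩ := hS
  rw [Finset.mem_filter, Finset.mem_powerset] at hSm
  obtain ⟨hSc, hcS⟩ := hSm
  have hSind : ∀ θ ∈ S, θ ∉ acl (ks ∪ ((S.erase θ : Finset (Om K)) : Set (Om K))) := by
    intro θ hθ h
    have h2 : S.erase θ ∈ c.powerset.filter fun S : Finset (Om K) =>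
        (c : Set (Om K)) ⊆ acl (ks ∪ (S : Set (Om K))) := by
      refine Finset.mem_filter.2 ⟨Finset.mem_powerset.2 ((Finset.erase_subset _ _).trans hSc), ?_⟩
      refine hcS.trans (acl_le ?_)
      rintro w (hw | hw)
      · exact subset_acl _ (Or.inl hw)
      · by_cases hwθ : w = θ
        · rw [hwθ]; exact h
        · exact subset_acl _ (Or.inr (by simpa [hwθ] using hw))
    have h3 := hSmin h2 (Finset.erase_subset _ _)
    exact Finset.notMem_erase θ S (h3 hθ)
  -- the variable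
  obtain ⟨S', hS'⟩ := (S.powerset.filter fun S' : Finset (Om K) =>
    ζ ∈ acl (cst K '' (E : Set K) ∪ (S' : Set (Om K)))).exists_minimal (by
      refine ⟨S, Finset.mem_filter.2 ⟨Finset.mem_powerset.2 le_rfl, ?_⟩⟩
      refine acl_le ?_ hζ
      rintro w (⟨j, rfl⟩ | hw)
      · refine (closure_le_acl _).trans (acl_le ?_) (hzc j)
        rintro w (hw | hw)
        · exact acl_mono (Set.union_subset_union_left _ hksE) (hcS hw)
        · exact subset_acl _ (Or.inl hw)
      · exact subset_acl _ (Or.inl hw))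
  obtain ⟨hSm', hSmin'⟩ := hS'
  rw [Finset.mem_filter, Finset.mem_powerset] at hSm'
  obtain ⟨hSS', hzS'⟩ := hSm'
  obtain ⟨θ, hθS'⟩ : S'.Nonempty := by
    by_contra hne
    rw [Finset.not_nonempty_iff_eq_empty] at hne
    rw [hne, Finset.coe_empty, Set.union_empty] at hzS'
    exact hj1 hzS'
  have hθS : θ ∈ S := hSS' hθS'
  have hθc : θ ∈ c := hSc hθS
  have hθC : θ ∈ CC k0 K := hcC hθc
  obtain ⟨T, hT⟩ : ∃ T : Set (Om K), T = ((S.erase θ : Finset (Om K)) : Set (Om K)) := ⟨_, rfl⟩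
  have hTC : T ⊆ CC k0 K := by
    rw [hT]
    intro w hw
    exact hcC (hSc (Finset.mem_of_mem_erase hw))
  have hTS : ks ∪ (S : Set (Om K)) ⊆ insert θ (ks ∪ T) := by
    rintro w (hw | hw)
    · exact Or.inr (Or.inl hw)
    · by_cases hwθ : w = θ
      · exact Or.inl hwθ
      · refine Or.inr (Or.inr ?_)
        rw [hT]
        simpa [hwθ] using hw
  have hθB : θ ∉ acl (ks ∪ T) := hT ▸ hSind θ hθS
  obtain ⟨κ, hκ⟩ : ∃ κ : Subfield (Om K), κ = acl (cst K '' (E : Set K) ∪ T) := ⟨_, rfl⟩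
  have hθκ : θ ∉ κ := by
    intro h
    rw [hκ] at h
    have := free (E : Set K) hTC hθC h
    rw [← hks] at this
    exact hθB this
  have hzκ : ζ ∉ κ := by
    intro h
    have h2 : ζ ∉ acl (cst K '' (E : Set K) ∪ ((S'.erase θ : Finset (Om K)) : Set (Om K))) := by
      intro h2
      have h3 : S'.erase θ ∈ S.powerset.filter fun S' : Finset (Om K) =>
          ζ ∈ acl (cst K '' (E : Set K) ∪ (S' : Set (Om K))) :=
        Finset.mem_filter.2 ⟨Finset.mem_powerset.2 ((Finset.erase_subset _ _).trans hSS'), h2⟩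
      exact Finset.notMem_erase θ S' (hSmin' h3 (Finset.erase_subset _ _) hθS')
    have h3 : ζ ∈ acl (insert θ (cst K '' (E : Set K) ∪
        ((S'.erase θ : Finset (Om K)) : Set (Om K)))) := by
      refine acl_mono ?_ hzS'
      rintro w (hw | hw)
      · exact Or.inr (Or.inl hw)
      · by_cases hwθ : w = θ
        · exact Or.inl hwθ
        · exact Or.inr (Or.inr (by simpa [hwθ] using hw))
    have h4 := acl_exch h3 h2
    apply hθκ
    rw [hκ]
    refine acl_le ?_ h4
    rintro w (rfl | hw | hw)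
    · rw [hκ] at h; exact h
    · exact subset_acl _ (Or.inl hw)
    · refine subset_acl _ (Or.inr ?_)
      rw [hT]
      exact Finset.mem_coe.2 (Finset.erase_subset_erase _ hSS' hw)
  have hκac : IsAlgClosed κ := hκ ▸ acl_isAlgClosed _
  have hκcz : CharZero κ := charZero_of_injective_algebraMap (algebraMap ℚ κ).injective
  obtain ⟨kB, hkB⟩ : ∃ kB : Subfield (Om K), kB = acl (ks ∪ T) := ⟨_, rfl⟩
  have hkBκ : kB ≤ κ := by
    rw [hkB, hκ]
    exact acl_mono (Set.union_subset_union_left _ hksE)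
  have hkBC : kB ≤ CC k0 K := by
    rw [hkB]
    exact acl_of_isAlgClosed hCC (Set.union_subset hksC hTC)
  -- the function field
  obtain ⟨Λ, hΛ⟩ : ∃ Λ : IntermediateField κ (Om K),
    Λ = IntermediateField.adjoin κ (insert θ (c : Set (Om K))) := ⟨_, rfl⟩
  have hFF : IsFF κ Λ := by
    rw [hΛ]
    refine isFF_adjoin κ hκac hκcz hθκ c fun t ht => ?_
    refine Pool.Agent.TH145.MF.alg_mono (F1 := Subfield.closure (ks ∪ (S : Set (Om K))))
      (F2 := (IntermediateField.adjoin κ {θ}).toSubfield) ?_ (mem_acl.1 (hcS ht))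
    rw [Subfield.closure_le]
    intro w hw
    rcases hTS hw with hw | hw
    · rw [hw]; exact IntermediateField.subset_adjoin _ _ rfl
    · have h2 : w ∈ κ := hkBκ (by rw [hkB]; exact subset_acl _ hw)
      exact IntermediateField.algebraMap_mem _ (⟨w, h2⟩ : κ)
  have hκΛ : ∀ w ∈ κ, w ∈ Λ := fun w hw => Λ.algebraMap_mem ⟨w, hw⟩
  have hcΛ : ∀ w ∈ c, w ∈ Λ := fun w hw => by
    rw [hΛ]; exact IntermediateField.subset_adjoin _ _ (Or.inr hw)
  have hEκ : ∀ x ∈ E, cst K x ∈ κ := fun x hx => by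
    rw [hκ]; exact subset_acl _ (Or.inl ⟨x, hx, rfl⟩)
  obtain ⟨M0, hM0⟩ : ∃ M0 : Subfield (Om K), M0 = Subfield.closure ((kB : Set (Om K)) ∪ c) :=
    ⟨_, rfl⟩
  have hM0C : M0 ≤ CC k0 K := by
    rw [hM0, Subfield.closure_le]
    exact Set.union_subset hkBC hcC
  have hM0Λ : ∀ w ∈ M0, w ∈ Λ := by
    have : M0 ≤ Λ.toSubfield := by
      rw [hM0, Subfield.closure_le]
      rintro w (hw | hw)
      · exact hκΛ w (hkBκ hw)
      · exact hcΛ w hw
    exact fun w hw => this hw
  have hM0S : M0 ≤ acl (insert θ (ks ∪ T)) := by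
    rw [hM0, Subfield.closure_le]
    rintro w (hw | hw)
    · rw [hkB] at hw
      exact acl_mono (Set.subset_insert _ _) hw
    · exact acl_mono hTS (hcS hw)
  have hcM0 : ∀ w ∈ c, w ∈ M0 := fun w hw => by
    rw [hM0]; exact Subfield.subset_closure (Or.inr hw)
  have hkBM0 : kB ≤ M0 := fun w hw => by
    rw [hM0]; exact Subfield.subset_closure (Or.inl hw)
  let v : Λ →+* Om K := algebraMap Λ (Om K)
  have hv : ∀ x : Λ, v x = (x : Om K) := fun _ => rfl
  refine ⟨κ, Λ, M0.comap v, hκac, hFF, hEκ, fun j => ?_, hzκ, ?_, ?_, ?_⟩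
  · -- the coordinates
    have h2 : Subfield.closure ((c : Set (Om K)) ∪ cst K '' (E : Set K)) ≤ Λ.toSubfield := by
      rw [Subfield.closure_le]
      rintro w (hw | ⟨x, hx, rfl⟩)
      · exact hcΛ w hw
      · exact hκΛ _ (hEκ x hx)
    exact h2 (hzc j)
  · intro m hm
    exact hM0C hm
  · -- derivations
    intro D hDC hDE
    have h2 : ∀ x ∈ κ, D x ∈ κ := by
      intro x hx
      rw [hκ] at hx ⊢
      refine der_acl D ?_ hx
      rintro s (⟨x, hx, rfl⟩ | hs)
      · obtain ⟨x', hx', h3⟩ := hDE x hx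
        rw [h3]
        exact subset_acl _ (Or.inl ⟨x', hx', rfl⟩)
      · rw [hDC s (hTC hs)]
        exact zero_mem _
    refine ⟨h2, fun x hx => ?_⟩
    have hx' : x ∈ Subfield.closure (Set.range (algebraMap κ (Om K)) ∪ insert θ (c : Set (Om K))) := by
      rw [← IntermediateField.adjoin_toSubfield, ← hΛ]
      exact hx
    refine der_closure D (H := Λ.toSubfield) ?_ hx'
    rintro s (⟨a, rfl⟩ | hs)
    · exact ⟨hκΛ _ a.2, hκΛ _ (h2 _ a.2)⟩
    · have hsc : s ∈ c := by
        rcases hs with rfl | hs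
        · exact hθc
        · exact hs
      exact ⟨hcΛ s hsc, by rw [hDC s (hcC hsc)]; exact zero_mem _⟩
  · -- the places
    intro P
    have hθΛ : θ ∈ Λ := hcΛ θ hθc
    have key := unif_dich (k := κ) (K := Λ) (kB.comap v) (M0.comap v)
      (fun x hx => hkBM0 hx) (fun x hx => ⟨⟨(x : Om K), hkBκ hx⟩, rfl⟩)
      (fun a ha => by
        have h2 : IsAlgebraic kB (a : Om K) :=
          alg_push (A := kB.comap v) (B := kB) (fun b hb => hb) ha
        change (a : Om K) ∈ kB
        rw [hkB] at h2 ⊢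
        exact mem_acl_of_alg le_rfl h2)
      (fun m hm hmB g hg => by
        have h2 : (m : Om K) ∈ acl (insert θ (ks ∪ T)) := hM0S hm
        have h3 : (m : Om K) ∉ acl (ks ∪ T) := fun h => hmB (by
          change (m : Om K) ∈ kB
          rw [hkB]; exact h)
        have h4 := acl_exch h2 h3
        have h5 : (g : Om K) ∈ acl (insert (m : Om K) (ks ∪ T)) := by
          refine acl_le ?_ (hM0S hg)
          rintro w (rfl | hw)
          · exact h4
          · exact subset_acl _ (Or.inr hw)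
        refine alg_pull (A := (IntermediateField.adjoin (kB.comap v) {m}).toSubfield)
          (B := Subfield.closure (insert (m : Om K) (ks ∪ T))) ?_ (mem_acl.1 h5)
        have h6 : Subfield.closure (insert (m : Om K) (ks ∪ T)) ≤
            (IntermediateField.adjoin (kB.comap v) {m}).toSubfield.map v := by
          rw [Subfield.closure_le]
          rintro w (rfl | hw)
          · exact ⟨m, IntermediateField.subset_adjoin _ _ rfl, rfl⟩
          · have h7 : w ∈ kB := by rw [hkB]; exact subset_acl _ hw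
            exact ⟨⟨w, hκΛ w (hkBκ h7)⟩, IntermediateField.algebraMap_mem _
              (⟨⟨w, hκΛ w (hkBκ h7)⟩, h7⟩ : kB.comap v), rfl⟩
        intro b hb
        obtain ⟨a, ha, hab⟩ := h6 hb
        exact ⟨a, ha, hab⟩)
      (θ := ⟨θ, hθΛ⟩) (hcM0 θ hθc) (fun a ha => hθκ (by
        have h2 := congrArg (fun x : Λ => (x : Om K)) ha
        change θ = (a : Om K) at h2
        rw [h2]; exact a.2))
      (fun f => by
        have hlift : ∀ a ∈ Submodule.span κ (M0 : Set (Om K)),
            ∃ a' ∈ Submodule.span κ ((M0.comap v : Subfield Λ) : Set Λ), (a' : Om K) = a := by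
          intro a ha
          induction ha using Submodule.span_induction with
          | mem x hx => exact ⟨⟨x, hM0Λ x hx⟩, Submodule.subset_span hx, rfl⟩
          | zero => exact ⟨0, zero_mem _, rfl⟩
          | add x y _ _ hx hy =>
            obtain ⟨a, ha, rfl⟩ := hx
            obtain ⟨b, hb, rfl⟩ := hy
            exact ⟨a + b, add_mem ha hb, rfl⟩
          | smul r x _ hx =>
            obtain ⟨a, ha, rfl⟩ := hx
            exact ⟨r • a, Submodule.smul_mem _ _ ha, rfl⟩
        have hadj : ∀ a ∈ Algebra.adjoin κ (insert θ (c : Set (Om K))),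
            a ∈ Submodule.span κ (M0 : Set (Om K)) := by
          intro a ha
          have h2 : a ∈ Submodule.span κ
              (Submonoid.closure (insert θ (c : Set (Om K))) : Set (Om K)) := by
            rw [← Algebra.adjoin_eq_span]
            exact ha
          refine Submodule.span_mono ?_ h2
          have h3 : Submonoid.closure (insert θ (c : Set (Om K))) ≤
              M0.toSubring.toSubmonoid := by
            rw [Submonoid.closure_le]
            rintro w (rfl | hw)
            · exact hcM0 _ hθc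
            · exact hcM0 w hw
          exact h3
        have hf : (f : Om K) ∈ IntermediateField.adjoin κ (insert θ (c : Set (Om K))) := by
          rw [← hΛ]; exact f.2
        rw [IntermediateField.mem_adjoin_iff_div] at hf
        obtain ⟨r, hr, s, hs, hrs⟩ := hf
        obtain ⟨a, ha, har⟩ := hlift r (hadj r hr)
        obtain ⟨b, hb, hbs⟩ := hlift s (hadj s hs)
        by_cases hs0 : s = 0
        · refine ⟨0, zero_mem _, 1, Submodule.subset_span (one_mem _), one_ne_zero, ?_⟩
          apply Subtype.ext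
          rw [mul_one, hrs, hs0, div_zero]
          rfl
        · refine ⟨a, ha, b, hb, ?_, ?_⟩
          · rintro rfl
            exact hs0 hbs.symm
          · apply Subtype.ext
            change (f : Om K) * (b : Om K) = (a : Om K)
            rw [hrs, har, hbs, div_mul_cancel₀ _ hs0]) P
    rcases key with ⟨h2, a, ha⟩ | ⟨π, hπ, h2⟩
    · exact Or.inl ⟨h2, ⟨θ, hθΛ⟩, hcM0 θ hθc, a, ha⟩
    · exact Or.inr ⟨π, hπ, h2⟩


theorem rig2 : S_RIG2 := by
  intro k0 K _ _ _ _ _ _ E hE J _ z hz ζ h1 h2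
  exact rig2_aux E hE z hz ζ h1 h2

end Pool.Agent.Helper53K9.BD
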