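import Pool.Agent.Helper53K9.BD.Stm

/-!
# Leaf LOC
-/

set_option autoImplicit false

open MvPolynomial FF Pool.Agent.W603.LV Pool.Agent.W603.PV Pool.Agent.W602.RG Pool.Agent.TH145.GH
open Pool.Agent.TH145.GC (Data Gen Full Cf)

namespace Pool.Agent.Helper53K9.BD

theorem loc : S_LOC := by
  intro k L M _ _ _ _ _ _ _ _ P s δ h D hS u hu
  obtain ⟨σ, hσ⟩ : ∃ σ, σ = algebraMap L M s := ⟨_, rfl⟩
  have hσ1 : 0 < P.ord σ := by rw [hσ]; exact h.pos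
  have hδσ : δ σ = 1 := by rw [hσ]; exact h.der
  rw [← hσ]
  have hσ0 : σ ≠ 0 := by
    rintro h0
    rw [h0, P.ord_zero] at hσ1
    exact lt_irrefl _ hσ1
  obtain ⟨π, hπ0, hπ⟩ := P.surj
  obtain ⟨d0, hd0⟩ := exists_der (k := k) (K := M)
  have h0 := der_pi_ne_zero hd0 P hπ
  obtain ⟨d, hd⟩ : ∃ d : Derivation k M M, d = (d0 π)⁻¹ • d0 := ⟨_, rfl⟩
  have hdπ : d π = 1 := by
    rw [hd]; simp [h0]
  have hd0' : d ≠ 0 := by
    rintro rfl
    simp at hdπ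
  -- the order of `d σ`
  obtain ⟨hdσ0, hdσ⟩ := ord_der P hd0' (f := σ) hσ1.ne'
  obtain ⟨hdπ0, hdπ'⟩ := ord_der P hd0' (f := π) (by rw [hπ]; exact one_ne_zero)
  rw [hdπ, P.ord_one, hπ] at hdπ'
  have hdσ' : P.ord (d σ) = P.ord σ - 1 := by omega
  obtain ⟨Δ, hΔ⟩ : ∃ Δ : Derivation ℤ M M, ∀ f, Δ f = D f - D σ * δ f :=
    ⟨D - D σ • (δ.restrictScalars ℤ), fun f => by simp⟩
  have hSΔ : Sem k Δ := by
    intro c
    obtain ⟨c', hc'⟩ := hS c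
    exact ⟨c', by rw [hΔ, hc', Derivation.map_algebraMap, mul_zero, sub_zero]⟩
  have hΔσ : Δ σ = 0 := by rw [hΔ, hδσ, mul_one, sub_self]
  obtain ⟨D1, hD1⟩ : ∃ D1 : Derivation ℤ M M, ∀ f, D1 f = Δ f - Δ π * d f :=
    ⟨Δ - Δ π • (d.restrictScalars ℤ), fun f => by simp⟩
  have hS1 : Sem k D1 := by
    intro c
    obtain ⟨c', hc'⟩ := hSΔ c
    exact ⟨c', by rw [hD1, hc', Derivation.map_algebraMap, mul_zero, sub_zero]⟩
  have hD1π : D1 π = 0 := by rw [hD1, hdπ, mul_one, sub_self]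
  obtain ⟨r, hr⟩ := Int.eq_ofNat_of_zero_le hσ1.le
  have hw : Ge P 1 (Δ π) := by
    have hu' : Ge P 0 (σ / π ^ r) := Or.inr (by
      rw [P.ord_div hσ0 (pow_ne_zero _ hπ0), P.ord_pow, hπ, hr, mul_one, sub_self])
    have h1 := reg_of_zero P hπ hS1 hD1π hu'
    have h2 : D1 σ = π ^ r * D1 (σ / π ^ r) := by
      have h3 : σ = π ^ r * (σ / π ^ r) := by
        rw [mul_div_cancel₀ _ (pow_ne_zero _ hπ0)]
      conv_lhs => rw [h3]
      rw [D1.leibniz, D1.leibniz_pow, hD1π]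
      simp
    have h3 : Ge P r (π ^ r) := Or.inr (by rw [P.ord_pow, hπ, mul_one])
    have h4 := h3.mul h1
    rw [← h2, hD1, hΔσ, zero_sub, add_zero] at h4
    have h5 : Ge P (1 + (P.ord σ - 1)) (d σ * Δ π) := by
      rw [mul_comm]
      have h6 := h4.neg
      rw [neg_neg] at h6
      exact h6.mono (by omega)
    exact Ge.of_mul' hdσ0 hdσ' h5
  have h1 := reg_of_unif P hπ hSΔ le_rfl (hw.mono zero_le_one) hu
  rwa [hΔ] at h1

end Pool.Agent.Helper53K9.BD
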