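import Pool.Agent.Helper53K9.BD.Stm

/-!
[MT] The poles of `δ t`.
-/

set_option autoImplicit false

open FF Pool.Agent.W603.LV Pool.Agent.W603.PV Pool.Agent.TH145.GH

namespace Pool.Agent.Helper53K9.BD

open Polynomial

namespace MtL

section

variable {k M : Type} [Field k] [Field M] [Algebra k M]

/-- the coefficients of a product of linear factors -/
theorem ge_coeff_prod (P : Place k M) (m : Multiset M) : ∀ j,
    Ge P ((m.map fun t => min 0 (P.ord t)).sum) ((m.map fun t => (X - C t)).prod.coeff j) := by
  induction m using Multiset.induction_on with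
  | empty =>
    intro j
    rw [Multiset.map_zero, Multiset.map_zero, Multiset.sum_zero, Multiset.prod_zero, coeff_one]
    split_ifs
    · exact Ge.one
    · exact Ge.zero
  | cons a m ih =>
    intro j
    rw [Multiset.map_cons, Multiset.map_cons, Multiset.sum_cons, Multiset.prod_cons, sub_mul,
      coeff_sub, coeff_C_mul]
    refine Ge.sub ?_ ?_
    · rcases j with _ | j
      · rw [coeff_X_mul_zero]; exact Ge.zero
      · rw [coeff_X_mul]
        exact (ih j).mono (by have := min_le_left 0 (P.ord a); omega)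
    · have h1 : Ge P (min 0 (P.ord a)) a := by
        right; exact min_le_right _ _
      exact h1.mul (ih j)

theorem sum_map_swap {α : Type} (T : Finset α) (m : Multiset M) (g : α → M → ℤ) :
    ∑ P ∈ T, (m.map (g P)).sum = (m.map fun t => ∑ P ∈ T, g P t).sum := by
  induction m using Multiset.induction_on with
  | empty => simp
  | cons a m ih =>
    simp only [Multiset.map_cons, Multiset.sum_cons]
    rw [Finset.sum_add_distrib, ih]

/-- the minimum of the orders of the coefficients -/
noncomputable def gam {L : Type} [Field L] [Algebra L M] (P : Place k M) (F : L[X]) : ℤ :=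
  (Finset.range (F.natDegree + 1)).inf' ⟨0, Finset.mem_range.2 (Nat.succ_pos _)⟩
    fun j => P.ord (algebraMap L M (F.coeff j))

variable {L : Type} [Field L] [Algebra L M]

theorem gam_le (P : Place k M) (F : L[X]) (j : ℕ) (hj : j ≤ F.natDegree) :
    gam P F ≤ P.ord (algebraMap L M (F.coeff j)) := by
  unfold gam
  exact Finset.inf'_le _ (Finset.mem_range.2 (by omega))

theorem ge_coeff (P : Place k M) (F : L[X]) (j : ℕ) :
    Ge P (gam P F) (algebraMap L M (F.coeff j)) := by
  by_cases hj : j ≤ F.natDegree
  · exact Or.inr (gam_le P F j hj)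
  · left
    rw [coeff_eq_zero_of_natDegree_lt (by omega), map_zero]

theorem gam_nonpos (P : Place k M) {F : L[X]} (hF : F.Monic) : gam P F ≤ 0 := by
  have h := gam_le P F F.natDegree le_rfl
  rw [hF.coeff_natDegree, map_one, P.ord_one] at h
  exact h

theorem exists_gam (P : Place k M) {F : L[X]} (hF : F.Monic) :
    ∃ j ≤ F.natDegree, F.coeff j ≠ 0 ∧ P.ord (algebraMap L M (F.coeff j)) = gam P F := by
  obtain ⟨j, hj, h⟩ := Finset.exists_mem_eq_inf' (s := Finset.range (F.natDegree + 1))
    ⟨0, Finset.mem_range.2 (Nat.succ_pos _)⟩ fun j => P.ord (algebraMap L M (F.coeff j))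
  rw [Finset.mem_range] at hj
  have h' : P.ord (algebraMap L M (F.coeff j)) = gam P F := h.symm
  by_cases h0 : F.coeff j = 0
  · refine ⟨F.natDegree, le_rfl, ?_, ?_⟩
    · rw [hF.coeff_natDegree]; exact one_ne_zero
    · rw [h0, map_zero, P.ord_zero] at h'
      rw [hF.coeff_natDegree, map_one, P.ord_one, h']
  · exact ⟨j, by omega, h0, h'⟩

theorem aeval_eq (F : L[X]) (t : M) :
    aeval t F = ∑ j ∈ Finset.range (F.natDegree + 1), algebraMap L M (F.coeff j) * t ^ j := by
  rw [aeval_eq_sum_range]
  exact Finset.sum_congr rfl fun j _ => Algebra.smul_def _ _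

theorem aeval_der_eq (F : L[X]) (t : M) : aeval t (derivative F) =
    ∑ j ∈ Finset.range (F.natDegree + 1), algebraMap L M (F.coeff j) * (j * t ^ (j - 1)) := by
  conv_lhs => rw [F.as_sum_range_C_mul_X_pow]
  rw [derivative_sum, map_sum]
  refine Finset.sum_congr rfl fun j _ => ?_
  rw [derivative_C_mul_X_pow, map_mul, map_pow, aeval_C, aeval_X, map_mul, map_natCast]
  ring

theorem leibniz_sum (δ : Derivation k M M) (n : ℕ) (b : ℕ → M) (t : M) :
    δ (∑ j ∈ Finset.range n, b j * t ^ j) = ∑ j ∈ Finset.range n, t ^ j * δ (b j) +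
      (∑ j ∈ Finset.range n, b j * (j * t ^ (j - 1))) * δ t := by
  rw [map_sum, Finset.sum_mul, ← Finset.sum_add_distrib]
  refine Finset.sum_congr rfl fun j _ => ?_
  rw [δ.leibniz, δ.leibniz_pow]
  simp only [smul_eq_mul, nsmul_eq_mul]
  ring

/-- the local estimate -/
theorem loc_ge (P : Place k M) {F : L[X]} (hF : F.Monic) (t : M) (ht : aeval t F = 0)
    (hF' : aeval t (derivative F) ≠ 0) :
    0 ≤ P.ord (aeval t (derivative F)) - gam P F - ((F.natDegree : ℤ) - 2) * min 0 (P.ord t) := by
  have ht0 : 1 ≤ F.natDegree := by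
    by_contra h
    have h0 : F.natDegree = 0 := by omega
    have h1 : F = 1 := hF.natDegree_eq_zero.1 h0
    rw [h1, map_one] at ht
    exact one_ne_zero ht
  rcases le_or_gt 0 (P.ord t) with h | h
  · rw [min_eq_left h, mul_zero, sub_zero]
    have htr : Ge P 0 t := Or.inr h
    have h1 : Ge P (gam P F) (aeval t (derivative F)) := by
      rw [aeval_der_eq]
      refine Ge.sum _ _ fun j _ => ?_
      have h2 := (ge_coeff P F j).mul ((Ge.natCast (P := P) j).mul (htr.pow (j - 1)))
      simpa using h2
    have := h1.resolve_left hF'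
    linarith
  · have htne : t ≠ 0 := by
      rintro rfl
      rw [P.ord_zero] at h
      exact lt_irrefl _ h
    rw [min_eq_right h.le]
    have e1 : t * aeval t (derivative F) = ∑ j ∈ Finset.range F.natDegree,
        algebraMap L M (F.coeff j) * (((j : ℤ) - F.natDegree : ℤ) * t ^ j) := by
      have e2 : t * aeval t (derivative F) = t * aeval t (derivative F) -
          F.natDegree * aeval t F := by rw [ht]; ring
      rw [e2, aeval_der_eq, aeval_eq, Finset.mul_sum, Finset.mul_sum, ← Finset.sum_sub_distrib,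
        Finset.sum_range_succ]
      have e3 : t * (algebraMap L M (F.coeff F.natDegree) * (F.natDegree * t ^ (F.natDegree - 1))) -
          F.natDegree * (algebraMap L M (F.coeff F.natDegree) * t ^ F.natDegree) = 0 := by
        obtain ⟨m, hm⟩ : ∃ m, F.natDegree = m + 1 := ⟨F.natDegree - 1, by omega⟩
        rw [hm, Nat.add_sub_cancel, pow_succ]
        ring
      rw [e3, add_zero]
      refine Finset.sum_congr rfl fun j _ => ?_
      rcases j with _ | j
      · push_cast; ring
      · rw [Nat.add_sub_cancel, pow_succ]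
        push_cast
        ring
    have h1 : Ge P (gam P F + ((F.natDegree : ℤ) - 1) * P.ord t) (t * aeval t (derivative F)) := by
      rw [e1]
      refine Ge.sum _ _ fun j hj => ?_
      rw [Finset.mem_range] at hj
      have h3 : Ge P (P.ord t) t := Or.inr le_rfl
      have h2 := (ge_coeff P F j).mul ((Ge.intCast (P := P) ((j : ℤ) - F.natDegree)).mul (h3.pow j))
      refine h2.mono ?_
      have h4 : (j : ℤ) ≤ F.natDegree - 1 := by omega
      nlinarith
    have h2 := h1.resolve_left (mul_ne_zero htne hF')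
    rw [P.ord_mul htne hF'] at h2
    linarith

end

section

variable {k L M : Type} [Field k] [Field L] [Field M] [Algebra k L] [Algebra L M]
  [Algebra k M] [IsScalarTower k L M] [IsAlgClosed k] [CharZero k] [IsFF k L] [IsFF k M]
  [FiniteDimensional L M]

/-- the derivative at places where `t` is integral -/
theorem der_ge (P : Place k M) (δ : Derivation k M M)
    (hA : ∀ f : L, Ge P 0 (algebraMap L M f) → Ge P 0 (δ (algebraMap L M f)))
    {F : L[X]} (hF : F.Monic) (t : M) (ht : aeval t F = 0) (hF' : aeval t (derivative F) ≠ 0)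
    (hti : Ge P 0 t) :
    Ge P (-(P.ord (aeval t (derivative F)) - gam P F)) (δ t) := by
  obtain ⟨j0, hj0, hc0, hg⟩ := exists_gam P hF
  set g : L := F.coeff j0 with hgdef
  have hg0 : algebraMap L M g ≠ 0 := by
    rw [Ne, map_eq_zero]; exact hc0
  set b : ℕ → M := fun j => algebraMap L M (F.coeff j / g) with hb
  have hbi : ∀ j, Ge P 0 (b j) := by
    intro j
    have h1 := ge_coeff (L := L) P F j
    have h2 : algebraMap L M g * b j = algebraMap L M (F.coeff j) := by
      rw [hb, ← map_mul, mul_div_cancel₀ _ hc0]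
    rw [← h2, ← hg] at h1
    have h3 := Ge.of_mul hg0 h1
    rwa [sub_self] at h3
  have e0 : ∑ j ∈ Finset.range (F.natDegree + 1), b j * t ^ j = 0 := by
    have h1 : algebraMap L M g * ∑ j ∈ Finset.range (F.natDegree + 1), b j * t ^ j = 0 := by
      rw [← ht, aeval_eq, Finset.mul_sum]
      refine Finset.sum_congr rfl fun j _ => ?_
      rw [← mul_assoc, hb, ← map_mul, mul_div_cancel₀ _ hc0]
    exact (mul_eq_zero.1 h1).resolve_left hg0
  have e1 : algebraMap L M g * (∑ j ∈ Finset.range (F.natDegree + 1), b j * (j * t ^ (j - 1))) =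
      aeval t (derivative F) := by
    rw [aeval_der_eq, Finset.mul_sum]
    refine Finset.sum_congr rfl fun j _ => ?_
    rw [← mul_assoc, hb, ← map_mul, mul_div_cancel₀ _ hc0]
  set G' : M := ∑ j ∈ Finset.range (F.natDegree + 1), b j * (j * t ^ (j - 1)) with hG'
  have hG0 : G' ≠ 0 := by
    intro h
    rw [h, mul_zero] at e1
    exact hF' e1.symm
  have hord : P.ord G' = P.ord (aeval t (derivative F)) - gam P F := by
    rw [← e1, P.ord_mul hg0 hG0, hg]; ring
  have e2 := leibniz_sum δ (F.natDegree + 1) b t
  rw [e0, map_zero] at e2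
  have e3 : G' * δ t = -∑ j ∈ Finset.range (F.natDegree + 1), t ^ j * δ (b j) := by
    rw [hG']
    linear_combination -e2
  have h1 : Ge P 0 (G' * δ t) := by
    rw [e3]
    refine (Ge.sum _ _ fun j _ => ?_).neg
    have h2 := (hti.pow j).mul (hA (F.coeff j / g) (hbi j))
    rw [mul_zero, add_zero] at h2
    exact h2
  have h2 := Ge.of_mul hG0 h1
  rw [zero_sub, hord] at h2
  exact h2

end

end MtL

theorem mt (hA2 : S_A2) : S_MT := by
  intro k L M _ _ _ _ _ _ _ _ _ _ _ _ _ s δ hat t ν hν
  classical
  have hint : IsIntegral L t := IsIntegral.of_finite L t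
  set F : L[X] := minpoly L t with hFdef
  have hFm : F.Monic := minpoly.monic hint
  have hFt : aeval t F = 0 := minpoly.aeval L t
  have : CharZero L := by
    refine ⟨fun a b h => ?_⟩
    have h1 : algebraMap k L a = algebraMap k L b := by simpa using h
    exact Nat.cast_injective ((algebraMap k L).injective h1)
  have hsep : F.Separable := (minpoly.irreducible hint).separable
  have hF' : aeval t (derivative F) ≠ 0 := hsep.aeval_derivative_ne_zero hFt
  set d := F.natDegree with hd
  have hd1 : 1 ≤ d := minpoly.natDegree_pos hint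
  set Ft : M := aeval t (derivative F) with hFt'
  set m : Multiset M := (F.map (algebraMap L M)).roots with hm
  have hspl : (F.map (algebraMap L M)).Splits := Normal.splits inferInstance t
  have hprod : F.map (algebraMap L M) = (m.map fun a => X - C a).prod :=
    hspl.eq_prod_roots_of_monic (hFm.map _)
  have hmcard : m.card = d := by
    rw [hd, ← natDegree_map (algebraMap L M), hm]
    exact hspl.natDegree_eq_card_roots.symm
  have hgam : ∀ P : Place k M, (m.map fun a => min 0 (P.ord a)).sum ≤ MtL.gam P F := by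
    intro P
    obtain ⟨j, hj, hj0, hj1⟩ := MtL.exists_gam P hFm
    rw [← hj1]
    have h1 := MtL.ge_coeff_prod P m j
    rw [← hprod, coeff_map] at h1
    refine h1.resolve_left ?_
    rw [map_eq_zero]
    exact hj0
  have hhgt : ∀ a ∈ m, hgt k a = hgt k t := by
    intro a ha
    have h1 : aeval a (minpoly L t) = 0 := by
      have h2 := (mem_roots'.1 ha).2
      rw [IsRoot.def, eval_map_algebraMap] at h2
      exact h2
    obtain ⟨σ, hσ⟩ := minpoly.exists_algEquiv_of_root' (K := L) (L := M) (x := a) (y := t)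
      hint.isAlgebraic h1
    rw [← hσ]
    have hc : ∀ (τ : M ≃ₐ[L] M) (c : k), ∃ c' : k, τ.toRingEquiv (algebraMap k M c) =
        algebraMap k M c' := by
      intro τ c
      refine ⟨c, ?_⟩
      rw [IsScalarTower.algebraMap_apply k L M]
      exact τ.commutes _
    exact hgt_equiv σ.toRingEquiv (hc σ) (hc σ.symm) t
  -- the places
  obtain ⟨T, hT⟩ := exists_supp (k := k) (insert t (insert Ft
    (((Finset.range (d + 1)).image fun j => algebraMap L M (F.coeff j)) ∪ m.toFinset))) id
  have hTt : ∀ P : Place k M, P.ord t ≠ 0 → P ∈ T := fun P => hT t (by simp) P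
  have hTF : ∀ P : Place k M, P.ord Ft ≠ 0 → P ∈ T := fun P => hT Ft (by simp) P
  have hTc : ∀ j ≤ d, ∀ P : Place k M, P.ord (algebraMap L M (F.coeff j)) ≠ 0 → P ∈ T := by
    intro j hj P
    refine hT _ ?_ P
    rw [Finset.mem_insert, Finset.mem_insert, Finset.mem_union, Finset.mem_image]
    exact Or.inr (Or.inr (Or.inl ⟨j, Finset.mem_range.2 (by omega), rfl⟩))
  have hTm : ∀ a ∈ m, ∀ P : Place k M, P.ord a ≠ 0 → P ∈ T := by
    intro a ha P
    refine hT _ ?_ P
    rw [Finset.mem_insert, Finset.mem_insert, Finset.mem_union, Multiset.mem_toFinset]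
    exact Or.inr (Or.inr (Or.inr ha))
  set μ : Place k M → ℤ := fun P =>
    P.ord Ft - MtL.gam P F - ((d : ℤ) - 2) * min 0 (P.ord t) with hμ
  have hsupp : ∀ P, μ P ≠ 0 → P ∈ T := by
    intro P hP
    by_contra hcon
    apply hP
    have h1 : P.ord Ft = 0 := by
      by_contra h; exact hcon (hTF P h)
    have h2 : P.ord t = 0 := by
      by_contra h; exact hcon (hTt P h)
    have h3 : MtL.gam P F = 0 := by
      obtain ⟨j, hj, hj0, hj1⟩ := MtL.exists_gam P hFm
      rw [← hj1]
      by_contra h
      exact hcon (hTc j hj P h)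
    rw [hμ]
    simp only [h1, h2, h3]
    simp
  refine ⟨μ, fun P => MtL.loc_ge P hFm t hFt hF', ?_, ?_, ?_⟩
  · exact T.finite_toSet.subset fun P hP => hsupp P hP
  · rw [finsum_eq_sum_of_support_subset (s := T) μ (fun P hP => hsupp P hP)]
    have h1 : ∑ P ∈ T, P.ord Ft = 0 := sum_ord_finset Ft T hTF
    have h2 : ∑ P ∈ T, min 0 (P.ord t) = - hgt k t := by
      rw [hgt_finset t T hTt, ← Finset.sum_neg_distrib]
      refine Finset.sum_congr rfl fun P _ => by omega
    have h3 : -(d * hgt k t) ≤ ∑ P ∈ T, MtL.gam P F := by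
      have h4 : ∑ P ∈ T, (m.map fun a => min 0 (P.ord a)).sum ≤ ∑ P ∈ T, MtL.gam P F :=
        Finset.sum_le_sum fun P _ => hgam P
      refine le_trans ?_ h4
      rw [MtL.sum_map_swap T m fun P a => min 0 (P.ord a)]
      have h5 : (m.map fun a => ∑ P ∈ T, min 0 (P.ord a)) = m.map fun _ => - hgt k t := by
        refine Multiset.map_congr rfl fun a ha => ?_
        rw [← hhgt a ha, hgt_finset a T (hTm a ha), ← Finset.sum_neg_distrib]
        refine Finset.sum_congr rfl fun P _ => by omega
      rw [h5, Multiset.map_const', Multiset.sum_replicate, hmcard]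
      simp
    have h6 : ∑ P ∈ T, μ P = ∑ P ∈ T, P.ord Ft - ∑ P ∈ T, MtL.gam P F -
        ((d : ℤ) - 2) * ∑ P ∈ T, min 0 (P.ord t) := by
      rw [Finset.mul_sum, ← Finset.sum_sub_distrib, ← Finset.sum_sub_distrib]
    rw [h6, h1, h2]
    have h7 : 0 ≤ hgt k t := hgt_nonneg t
    have h8 : (d : ℤ) ≤ ν := by exact_mod_cast hν
    nlinarith
  · intro P hP
    have h1 := MtL.der_ge (L := L) P (δ P) (fun f hf => hA2 k L M P (s P) (δ P) (hat P) f hf)
      hFm t hFt hF' hP
    have h2 : min 0 (P.ord t) = 0 := by
      rcases hP with rfl | h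
      · rw [P.ord_zero]; simp
      · exact min_eq_left h
    have h3 : μ P = P.ord (aeval t (derivative F)) - MtL.gam P F := by
      rw [hμ]
      simp only [h2, mul_zero, sub_zero]
      rfl
    rw [h3]
    exact h1

end Pool.Agent.Helper53K9.BD
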