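import Pool.Agent.Helper53K9.BD.Stm

/-!
[PRIM] A primitive element with few possible coefficients.
-/

set_option autoImplicit false

namespace Pool.Agent.Helper53K9.BD

open Polynomial

namespace PrimL

open Classical in
/-- few zeros of the polynomial `∑ c j T ^ j`. -/
theorem few_zeros {K : Type} [Field K] [CharZero K] {n : ℕ} (c : Fin (n + 1) → K) (hc : c ≠ 0)
    (N : ℕ) : ((Finset.range N).filter fun u : ℕ => ∑ j : Fin (n + 1), c j * (u : K) ^ (j : ℕ) = 0).card
      ≤ n := by
  classical
  set p : K[X] := ∑ j : Fin (n + 1), C (c j) * X ^ (j : ℕ) with hp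
  have hcoeff : ∀ j : Fin (n + 1), p.coeff (j : ℕ) = c j := by
    intro j
    rw [hp, finsetSum_coeff]
    simp only [coeff_C_mul, coeff_X_pow]
    rw [Finset.sum_eq_single j]
    · simp
    · intro b _ hb
      rw [if_neg (fun h => hb (Fin.ext h.symm)), mul_zero]
    · intro h; exact absurd (Finset.mem_univ j) h
  have hp0 : p ≠ 0 := by
    intro h
    apply hc
    funext j
    rw [← hcoeff j, h]; simp
  have hdeg : p.natDegree ≤ n := by
    rw [hp]
    refine natDegree_sum_le_of_forall_le _ _ fun j _ => ?_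
    refine (natDegree_C_mul_X_pow_le _ _).trans ?_
    have := j.2
    omega
  have h1 : ((Finset.range N).filter fun u : ℕ => ∑ j : Fin (n + 1), c j * (u : K) ^ (j : ℕ) = 0).card
      ≤ p.roots.toFinset.card := by
    refine Finset.card_le_card_of_injOn (fun u : ℕ => (u : K)) ?_ ?_
    · intro u hu
      rw [Finset.mem_coe, Finset.mem_filter] at hu
      rw [Finset.mem_coe, Multiset.mem_toFinset, mem_roots hp0, IsRoot.def, hp, eval_finsetSum]
      simp only [eval_mul, eval_C, eval_pow, eval_X]
      exact hu.2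
    · intro a _ b _ h
      exact Nat.cast_injective h
  exact h1.trans ((Multiset.toFinset_card_le _).trans ((card_roots' p).trans hdeg))

end PrimL

theorem prim : S_PRIM := by
  intro E K _ _ _ _ _ n ν x U hU hν hx
  classical
  set F : IntermediateField E K := IntermediateField.adjoin E (Set.range x) with hF
  have hFU : F ≤ U := by
    rw [hF, IntermediateField.adjoin_le_iff]
    rintro _ ⟨j, rfl⟩
    exact hx j
  have hFfd : FiniteDimensional E F :=
    FiniteDimensional.of_injective (IntermediateField.inclusion hFU).toLinearMap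
      (IntermediateField.inclusion hFU).injective
  have hxF : ∀ j, x j ∈ F := fun j => IntermediateField.subset_adjoin E _ ⟨j, rfl⟩
  set y : Fin (n + 1) → F := fun j => ⟨x j, hxF j⟩ with hy
  have : CharZero E := by
    refine ⟨fun a b h => ?_⟩
    have h2 := congrArg (algebraMap E K) h
    simpa using h2
  have : Algebra.IsSeparable E F := inferInstance
  have hcard : Fintype.card (F →ₐ[E] K) ≤ ν := by
    rw [AlgHom.card E F K]
    refine le_trans ?_ hν
    exact LinearMap.finrank_le_finrank_of_injective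
      (f := (IntermediateField.inclusion hFU).toLinearMap) (IntermediateField.inclusion hFU).injective
  set φ : F →ₐ[E] K := F.val with hφ
  -- bad values of `u`
  set N : ℕ := (n + 1) * ν * ν + 1 with hN
  set bad : (F →ₐ[E] K) → Finset ℕ := fun ψ => (Finset.range N).filter fun u : ℕ =>
    ∑ j : Fin (n + 1), (φ (y j) - ψ (y j)) * (u : K) ^ (j : ℕ) = 0 with hbad
  have hbc : ∀ ψ : F →ₐ[E] K, ψ ≠ φ → (bad ψ).card ≤ n := by
    intro ψ hψ
    refine PrimL.few_zeros (fun j => φ (y j) - ψ (y j)) ?_ N
    intro h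
    apply hψ
    have h2 : ∀ j, φ (y j) = ψ (y j) := fun j => sub_eq_zero.1 (congrFun h j)
    have h3 : ∀ (z : K) (hz : z ∈ F), ψ ⟨z, hz⟩ = φ ⟨z, hz⟩ := by
      intro z hz
      induction hz using IntermediateField.adjoin_induction with
      | mem z hz =>
        obtain ⟨j, rfl⟩ := hz
        exact (h2 j).symm
      | algebraMap a =>
        exact (ψ.commutes a).trans (φ.commutes a).symm
      | add a b ha hb h1 h2 =>
        have e : (⟨a + b, add_mem ha hb⟩ : F) = ⟨a, ha⟩ + ⟨b, hb⟩ := rfl
        have e' := congrArg ψ e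
        have e'' := congrArg φ e
        rw [map_add, h1, h2, ← map_add] at e'
        exact e'.trans e''.symm
      | mul a b ha hb h1 h2 =>
        have e : (⟨a * b, mul_mem ha hb⟩ : F) = ⟨a, ha⟩ * ⟨b, hb⟩ := rfl
        have e' := congrArg ψ e
        have e'' := congrArg φ e
        rw [map_mul, h1, h2, ← map_mul] at e'
        exact e'.trans e''.symm
      | inv a ha h1 =>
        have e : (⟨a⁻¹, inv_mem ha⟩ : F) = (⟨a, ha⟩ : F)⁻¹ := rfl
        have e' := congrArg ψ e
        have e'' := congrArg φ e
        rw [map_inv₀, h1, ← map_inv₀] at e'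
        exact e'.trans e''.symm
    ext z
    exact h3 z.1 z.2
  have hbu : ((Finset.univ.filter fun ψ : F →ₐ[E] K => ψ ≠ φ).biUnion bad).card < N := by
    refine lt_of_le_of_lt (Finset.card_biUnion_le_card_mul _ _ n ?_) ?_
    · intro ψ hψ
      exact hbc ψ (Finset.mem_filter.1 hψ).2
    · have h1 : (Finset.univ.filter fun ψ : F →ₐ[E] K => ψ ≠ φ).card ≤ ν :=
        (Finset.card_filter_le _ _).trans (by rw [Finset.card_univ]; exact hcard)
      have h2 : 1 ≤ ν := by
        refine le_trans ?_ hcard
        exact Fintype.card_pos_iff.2 ⟨φ⟩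
      calc _ ≤ ν * n := Nat.mul_le_mul_right _ h1
        _ < N := by
          rw [hN]
          nlinarith
  obtain ⟨u, hu, hub⟩ : ∃ u ∈ Finset.range N,
      u ∉ (Finset.univ.filter fun ψ : F →ₐ[E] K => ψ ≠ φ).biUnion bad := by
    by_contra hcon
    push Not at hcon
    have : (Finset.range N).card ≤ ((Finset.univ.filter fun ψ : F →ₐ[E] K => ψ ≠ φ).biUnion bad).card :=
      Finset.card_le_card fun u hu => hcon u hu
    rw [Finset.card_range] at this
    omega
  refine ⟨u, by rw [Finset.mem_range] at hu; omega, ?_⟩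
  -- the primitive element
  set θ : F := ∑ j : Fin (n + 1), ((u : ℕ) : F) ^ (j : ℕ) * y j with hθ
  have hval : (θ : K) = ∑ i : Fin (n + 1), (u : K) ^ (i : ℕ) * x i := by
    have : F.val θ = ∑ i : Fin (n + 1), (u : K) ^ (i : ℕ) * x i := by
      rw [hθ, map_sum]
      refine Finset.sum_congr rfl fun i _ => ?_
      rw [map_mul, map_pow, map_natCast]
      rfl
    exact this
  have hprim : IntermediateField.adjoin E {θ} = ⊤ := by
    refine (Field.primitive_element_iff_algHom_eq_of_eval E K
      (fun x => IsAlgClosed.splits _) θ φ).2 ?_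
    intro ψ hψ
    by_contra hne
    apply hub
    rw [Finset.mem_biUnion]
    refine ⟨ψ, Finset.mem_filter.2 ⟨Finset.mem_univ _, fun h => hne h.symm⟩, ?_⟩
    rw [hbad, Finset.mem_filter]
    refine ⟨hu, ?_⟩
    rw [hθ, map_sum, map_sum] at hψ
    simp only [map_mul, map_pow, map_natCast] at hψ
    have : ∑ j : Fin (n + 1), (φ (y j) - ψ (y j)) * (u : K) ^ (j : ℕ) =
        ∑ j : Fin (n + 1), (u : K) ^ (j : ℕ) * φ (y j) - ∑ j : Fin (n + 1), (u : K) ^ (j : ℕ) * ψ (y j) := by
      rw [← Finset.sum_sub_distrib]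
      refine Finset.sum_congr rfl fun j _ => by ring
    rw [this, hψ, sub_self]
  intro j
  have h1 : y j ∈ IntermediateField.adjoin E {θ} := by rw [hprim]; exact IntermediateField.mem_top
  have h2 : x j ∈ (IntermediateField.adjoin E {θ}).map F.val := ⟨y j, h1, rfl⟩
  rw [IntermediateField.adjoin_map, Set.image_singleton] at h2
  have h3 : F.val θ = ∑ i : Fin (n + 1), (u : K) ^ (i : ℕ) * x i := hval
  rw [h3] at h2
  exact h2

end Pool.Agent.Helper53K9.BD
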