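import Pool.Agent.Helper53K9.BD.Res

/-!
# Leaf SUMQ
-/

set_option autoImplicit false

open MvPolynomial FF Pool.Agent.W603.LV Pool.Agent.W603.PV Pool.Agent.W602.RG Pool.Agent.TH145.GH
open Pool.Agent.TH145.GC (Data Gen Full Cf)

namespace Pool.Agent.Helper53K9.BD

theorem sumq : S_SUMQ := by
  classical
  intro k L M _ _ _ _ _ _ _ _ _ _ _ _ e he0 hef
  choose q r hr hq using fun P : Place k M => res k L M P
  have hzf : ∀ Q : Place k L, {P : Place k M | P.ord (algebraMap L M (unif Q)) ≠ 0}.Finite :=
    fun Q => finite_support _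
  have hqz : ∀ P : Place k M, P.ord (algebraMap L M (unif (q P))) = r P := fun P => by
    rw [hq, ord_unif, mul_one]
  have hfin : {P : Place k M | r P * e (q P) ≠ 0}.Finite := by
    refine (hef.biUnion fun Q _ => hzf Q).subset fun P hP => ?_
    rw [Set.mem_iUnion₂]
    refine ⟨q P, fun h => hP (by rw [h, mul_zero]), ?_⟩
    change P.ord (algebraMap L M (unif (q P))) ≠ 0
    rw [hqz]
    have := hr P
    omega
  refine ⟨fun P => r P * e (q P), fun P => mul_nonneg (by linarith [hr P]) (he0 _), hfin, ?_, ?_⟩
  · intro P f g hf hg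
    have h1 : Ge (q P) 0 f := by
      by_cases hf0 : f = 0
      · exact Or.inl hf0
      right
      have h2 := hf.resolve_left ((_root_.map_ne_zero _).2 hf0)
      rw [hq] at h2
      have := hr P
      by_contra hcon
      push Not at hcon
      nlinarith
    have h2 := hg (q P) h1
    rcases h2 with h2 | h2
    · exact Or.inl (by rw [h2, map_zero])
    · right
      rw [hq]
      have := hr P
      nlinarith
  · rw [finsum_eq_sum_of_support_subset (s := hfin.toFinset) _ (fun P hP => by
      rw [Set.Finite.coe_toFinset]; exact hP)]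
    have hsupp : (Function.support fun Q : Place k L => e Q * hgt k (unif Q)) ⊆
        (hef.toFinset : Set (Place k L)) := by
      intro Q hQ
      rw [Set.Finite.coe_toFinset]
      intro h
      exact hQ (by change e Q * _ = 0; rw [h, zero_mul])
    rw [finsum_eq_sum_of_support_subset _ hsupp, Finset.mul_sum]
    rw [← Finset.sum_fiberwise_of_maps_to (s := hfin.toFinset) (t := hef.toFinset) (g := q)
      (fun P hP => by
        rw [Set.Finite.mem_toFinset] at hP ⊢
        intro h
        exact hP (by rw [h, mul_zero]))]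
    refine Finset.sum_le_sum fun Q _ => ?_
    have h1 : ∑ P ∈ hfin.toFinset with q P = Q, r P * e (q P) =
        e Q * ∑ P ∈ hfin.toFinset with q P = Q, r P := by
      rw [Finset.mul_sum]
      refine Finset.sum_congr rfl fun P hP => ?_
      rw [(Finset.mem_filter.1 hP).2]
      ring
    have h2 : ∑ P ∈ hfin.toFinset with q P = Q, r P ≤ Module.finrank L M * hgt k (unif Q) := by
      rw [← hgt_algebraMap, ← hgt_inv]
      obtain ⟨T, hT⟩ := exists_supp (k := k) (Finset.univ : Finset (Fin 1))
        ![(algebraMap L M (unif Q))⁻¹]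
      have h3 : ∀ P, P.ord (algebraMap L M (unif Q))⁻¹ ≠ 0 → P ∈ T := fun P =>
        hT 0 (Finset.mem_univ _) P
      rw [hgt_finset _ T h3]
      have h4 : (hfin.toFinset.filter fun P => q P = Q) ⊆ T := by
        intro P hP
        apply h3
        have h5 := (Finset.mem_filter.1 hP).2
        rw [P.ord_inv, ← h5, hqz]
        have := hr P
        omega
      refine le_trans ?_ (Finset.sum_le_sum_of_subset_of_nonneg h4 fun P _ _ => le_max_right _ _)
      refine Finset.sum_le_sum fun P hP => ?_
      have h5 := (Finset.mem_filter.1 hP).2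
      refine le_trans ?_ (le_max_left _ _)
      rw [P.ord_inv, neg_neg, ← h5, hqz]
    rw [h1]
    calc e Q * ∑ P ∈ hfin.toFinset with q P = Q, r P
        ≤ e Q * (Module.finrank L M * hgt k (unif Q)) := mul_le_mul_of_nonneg_left h2 (he0 Q)
      _ = _ := by ring

end Pool.Agent.Helper53K9.BD
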