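import Pool.Agent.Helper53K9.BD.Stm

/-!
# Leaf WSUM
-/

set_option autoImplicit false

open MvPolynomial FF Pool.Agent.W603.LV Pool.Agent.W603.PV Pool.Agent.W602.RG Pool.Agent.TH145.GH
open Pool.Agent.TH145.GC (Data Gen Full Cf)

namespace Pool.Agent.Helper53K9.BD

theorem wsum : S_WSUM := by
  classical
  intro k K _ _ _ _ _ _ n x hx0 Θ a C hC h
  have hp := pord_finite (k := k) (Function.ne_iff.1 hx0)
  obtain ⟨T, hT⟩ := exists_supp (k := k) (Finset.univ : Finset Unit) (fun _ => Θ)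
  obtain ⟨U, hU⟩ : ∃ U : Finset (Place k K), U = T ∪ (hp.toFinset ∪ hC.toFinset) := ⟨_, rfl⟩
  have h1 : ∑ P ∈ U, P.ord Θ = 0 := sum_ord_finset _ _ fun P hP => by
    rw [hU]; exact Finset.mem_union_left _ (hT () (Finset.mem_univ _) P hP)
  have h2 : pht k x = - ∑ P ∈ U, pord P x := by
    unfold pht
    rw [finsum_eq_sum_of_support_subset (s := U)]
    intro P hP
    rw [hU]
    exact Finset.mem_union_right _ (Finset.mem_union_left _ (hp.mem_toFinset.2 hP))
  have h3 : ∑ᶠ P, C P = ∑ P ∈ U, C P := by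
    rw [finsum_eq_sum_of_support_subset (s := U)]
    intro P hP
    rw [hU]
    exact Finset.mem_union_right _ (Finset.mem_union_right _ (hC.mem_toFinset.2 hP))
  have h4 := Finset.sum_le_sum (s := U) fun P _ => h P
  rw [Finset.sum_sub_distrib, ← Finset.mul_sum, h1, ← h3] at h4
  have h5 : (-a) * ∑ P ∈ U, pord P x = a * pht k x := by rw [h2]; ring
  rw [h5] at h4
  linarith

end Pool.Agent.Helper53K9.BD
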