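import Pool.Agent.Helper53K9.BD.Ineq
import Pool.Agent.Helper53K9.BD.Detl
import Pool.Agent.Helper53K9.BD.Wsum
import Pool.Agent.Helper53K9.BD.Loc
import Pool.Agent.Helper53K9.BD.Sumq
import Pool.Agent.Helper53K9.BD.Hts
import Pool.Agent.Helper53K9.BD.A2
import Pool.Agent.Helper53K9.BD.Gp
import Pool.Agent.Helper53K9.BD.Mt
import Pool.Agent.Helper53K9.BD.Prim
import Pool.Agent.Helper53K9.BD.Lag
import Pool.Agent.Helper53K9.BD.Rig2
import Pool.Agent.Helper53K9.BD.Lim3
import Pool.Agent.Helper53K9.BD.Eht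

/-!
# Points of bounded degree: the leaves together
-/

set_option autoImplicit false

namespace Pool.Agent.Helper53K9.BD

theorem gp_all : S_GP := gp (mt a2)

theorem ineq_all : S_INEQ := ineq sumq atp loc gp_all detl wsum

theorem lim3_all : S_LIM3 := lim3 ineq_all rig2

theorem eht_all : S_EHT := eht ineq_all hts lag

end Pool.Agent.Helper53K9.BD
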