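import Pool.Agent.Helper53K9.BD.Stm2

/-!
The inequality for curves in a generic complete intersection ([CURV]).
-/

set_option autoImplicit false

open MvPolynomial FF Pool.Agent.W603.LV Pool.Agent.W603.PV Pool.Agent.TH145.GH
open Pool.Agent.TH145.GC (Ev dF_sub dF_self ord_prod exists_minor Rt Cf finite_cf Tan
  der_zero_of_alg)
open Pool.Agent.TH145.GD (Ti tv St sM sM_mem mon_step sM_zero sM_top single_mem deg_St finite_St)
open Pool.Agent.W602.GT Pool.Agent.TH145.MG Pool.Agent.TH145.GE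

namespace Pool.Agent.Helper53K9.BD.CurvL

variable {k K : Type} [Field k] [Field K] [Algebra k K] [IsAlgClosed k] [CharZero k] [IsFF k K]
  {n : ℕ} {A : Type} {c0 : Fin (n + 1)} {F : A → MvPolynomial (Fin (n + 1)) K} {dg : A → ℕ}
  {D : A → (Fin (n + 1) →₀ ℕ) → Derivation ℤ K K} {ε : A → (Fin (n + 1) →₀ ℕ) → ℕ}
  {δ : Derivation k K K}

/-- The orders of the derivatives of the normalised coordinates of `x` at `P` are at least `-w`. -/
def Nrm (P : Place k K) (δ : Derivation k K K) (x : Fin (n + 1) → K) (w : ℤ) : Prop :=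
  ∀ (lam : K) (x' : Fin (n + 1) → K), lam ≠ 0 → x = lam • x' →
    (∀ l, Ge P 0 (x' l)) → (∃ e1, x' e1 = 1) → ∀ l, Ge P (-w) (δ (x' l))

open scoped Classical in
/-- The order of the determinant at a scaled point. -/
theorem ord_det (hF : ∀ a, (F a).IsHomogeneous (dg a)) (hD : DualE c0 F dg D ε) [Fintype A]
    (hS : ∀ a I, Sem k (D a I)) (hδ : δ ≠ 0) (hδF : ∀ a u, δ ((F a).coeff u) = 0) (P : Place k K)
    {x : Fin (n + 1) → K} (hx : ∀ l, Ge P 0 (x l)) {e1 : Fin (n + 1)} (he1 : x e1 = 1)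
    {b : Finset (Ix Unit n A ⊕ A)} (hb : ∀ i ∈ Vert Unit n A, i ∈ b) (σ : b → Fin (n + 1))
    (hcard : Module.finrank K (Full c0 dg D (vert δ) x) = b.card)
    (hdet : (mx c0 dg D (vert δ) x (fun a => Finsupp.single e1 (dg a)) b σ).det ≠ 0)
    (hG : ∀ a, Sum.inr a ∈ b) {w : ℤ} (hw : ∀ l, Ge P (-w) (δ (x l))) :
    -w ≤ P.ord (mx c0 dg D (vert δ) x (fun a => Finsupp.single e1 (dg a)) b σ).det := by
  have hπ := ord_unif P
  obtain ⟨π, hπd⟩ : ∃ π, π = unif P := ⟨_, rfl⟩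
  rw [← hπd] at hπ
  have hπ0 : π ≠ 0 := by
    rintro rfl
    rw [P.ord_zero] at hπ
    exact absurd hπ (by norm_num)
  have hδπ : δ π ≠ 0 := der_pi_ne_zero hδ P hπ
  obtain ⟨DP, hDP⟩ : ∃ DP : A → (Fin (n + 1) →₀ ℕ) → Derivation ℤ K K, ∀ a I,
    DP a I = D a I - (D a I π / δ π) • δ.restrictScalars ℤ := ⟨_, fun _ _ => rfl⟩
  have hDPf : ∀ a I f, DP a I f = D a I f - D a I π / δ π * δ f := fun a I f => by
    rw [hDP, Derivation.sub_apply, Derivation.smul_apply, smul_eq_mul]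
    rfl
  have hPres : Pres P c0 dg DP := by
    intro f hf a I _
    refine ge_of_kill P (fun c => ?_) hπ ?_ hf
    · obtain ⟨c', hc'⟩ := hS a I c
      refine ⟨c', ?_⟩
      rw [hDPf, hc', Derivation.map_algebraMap, mul_zero, sub_zero]
    · rw [hDPf, div_mul_cancel₀ _ hδπ, sub_self]
  have hDP' : ∀ a I f, DP a I f = D a I f + ∑ ξ : Unit, (-(D a I π / δ π)) * vert δ ξ f :=
    fun a I f => by
      rw [hDPf, Finset.univ_unique, Finset.sum_singleton]
      change _ = _ + -(D a I π / δ π) * δ f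
      ring
  have hmem : Sum.inl (some (Sum.inl ())) ∈ b := hb _ (Or.inr ⟨(), rfl⟩)
  have h1 := det_add_vert (c0 := c0) (dg := dg) (D := D) (E := vert δ)
    (κ := fun a I _ => -(D a I π / δ π)) hDP' (x := x) hb σ (fun a => Finsupp.single e1 (dg a))
  obtain ⟨u, hud⟩ : ∃ u : K, u = π ^ (-w) := ⟨_, rfl⟩
  have hu : u ≠ 0 := by rw [hud]; exact zpow_ne_zero _ hπ0
  have huo : P.ord u = -w := by rw [hud, P.ord_zpow, hπ, mul_one]
  have hu1 : ∀ l, Ge P 0 (u⁻¹ * δ (x l)) := by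
    intro l
    have h2 : Ge P w u⁻¹ := by
      right
      rw [P.ord_inv, huo, neg_neg]
    have h3 := h2.mul (hw l)
    rwa [add_neg_cancel] at h3
  obtain ⟨E', hE'⟩ : ∃ E' : Unit → Derivation ℤ K K, ∀ ξ,
    E' ξ = u⁻¹ • δ.restrictScalars ℤ := ⟨_, fun _ => rfl⟩
  have hE'f : ∀ ξ f, E' ξ f = u⁻¹ * δ f := fun ξ f => by
    rw [hE', Derivation.smul_apply, smul_eq_mul]
    rfl
  have h2 := det_smul_vert (c0 := c0) (dg := dg) (D := DP) (E := vert δ) (E' := E') (u := u)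
    (fun f => by
      rw [hE'f, ← mul_assoc, mul_inv_cancel₀ hu, one_mul]
      rfl) (x := x) hmem σ (fun a => Finsupp.single e1 (dg a))
  have hfull : Full c0 dg DP E' x = Full c0 dg D (vert δ) x := by
    apply le_antisymm
    · exact full_le (u := fun _ => u⁻¹) hDP' (fun ξ f => hE'f ξ f) x
    · refine full_le (κ := fun a I _ => D a I π / δ π * u) (u := fun _ => u)
        (fun a I f => ?_) (fun ξ f => ?_) x
      · rw [Finset.univ_unique, Finset.sum_singleton, hDPf, hE'f]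
        have : D a I π / δ π * u * (u⁻¹ * δ f) = D a I π / δ π * δ f := by
          field_simp
        rw [this]
        ring
      · rw [hE'f, ← mul_assoc, mul_inv_cancel₀ hu, one_mul]
        rfl
  have h3 : (mx c0 dg D (vert δ) x (fun a => Finsupp.single e1 (dg a)) b σ).det =
      u * (mx c0 dg DP E' x (fun a => Finsupp.single e1 (dg a)) b σ).det := by
    rw [← h1, h2]
  have hdet' : (mx c0 dg DP E' x (fun a => Finsupp.single e1 (dg a)) b σ).det ≠ 0 := by
    intro h0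
    rw [h0, mul_zero] at h3
    exact hdet h3
  have hDual : DualE c0 F dg DP ε := by
    intro a c I hI z
    have h4 := hD a c I hI z
    rw [← h4]
    refine Finset.sum_congr rfl fun v _ => ?_
    rw [hDPf, hδF, mul_zero, sub_zero]
  have h4 := Pool.Agent.TH145.GE.ord_det hF hDual hPres hx he1 (E := E') σ (by rw [hfull, hcard])
    hdet' (fun a ha => absurd (hG a) ha)
    (fun ξ l => by rw [hE'f]; exact hu1 l) (fun ξ a ha => absurd (hG a) ha)
  have h5 : (Finset.univ.filter fun a : A => Sum.inr a ∉ b) = ∅ := by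
    rw [Finset.filter_eq_empty_iff]
    intro a _ h
    exact h (hG a)
  rw [h5, Finset.sum_empty] at h4
  rw [h3, P.ord_mul hu hdet', huo]
  linarith

open scoped Classical in
/-- The local inequality. -/
theorem local_est (hF : ∀ a, (F a).IsHomogeneous (dg a)) (hD : DualE c0 F dg D ε) [Fintype A]
    (hS : ∀ a I, Sem k (D a I)) (hδ : δ ≠ 0) (hδF : ∀ a u, δ ((F a).coeff u) = 0) (P : Place k K)
    {x : Fin (n + 1) → K} (he0 : x c0 ≠ 0)
    {b : Finset (Ix Unit n A ⊕ A)} (hb : ∀ i ∈ Vert Unit n A, i ∈ b) (σ : b → Fin (n + 1))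
    (hspan : Submodule.span K (Set.range (wv c0 dg D (vert δ) x)) ≤
        Submodule.span K (wv c0 dg D (vert δ) x '' {o | Sum.inl o ∈ b}))
    (hcard : Module.finrank K (Full c0 dg D (vert δ) x) = b.card)
    (hdet : (mx c0 dg D (vert δ) x (fun a => Finsupp.single c0 (dg a)) b σ).det ≠ 0)
    (hG : ∀ a, Sum.inr a ∈ b) {w : ℤ} (hw : Nrm P δ x w) :
    ((∑ i ∈ b, rd i : ℕ) - (∑ a, dg a : ℕ)) * pord P x - w ≤
      P.ord ((mx c0 dg D (vert δ) x (fun a => Finsupp.single c0 (dg a)) b σ).det /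
        ∏ a : A, x c0 ^ dg a) := by
  have hx0 : x ≠ 0 := by
    rintro rfl
    exact he0 rfl
  obtain ⟨lam, x', hlam, hlamP, hxx, hx', e1, he1⟩ := exists_scaled P hx0
  have hdeg : ∀ a, Finsupp.single e1 (dg a) ∈ St c0 (dg a) := fun a => single_mem _
  obtain ⟨dx, hdx⟩ : ∃ dx, dx = (mx c0 dg D (vert δ) x (fun a => Finsupp.single c0 (dg a)) b σ).det :=
    ⟨_, rfl⟩
  obtain ⟨dx', hdx'⟩ : ∃ dx', dx' = (mx c0 dg D (vert δ) x' (fun a => Finsupp.single e1 (dg a)) b σ).det :=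
    ⟨_, rfl⟩
  have h1 := det_change he0 σ hspan (fun a => Finsupp.single e1 (dg a)) hdeg
  have h2 := det_lam (c0 := c0) (dg := dg) (D := D) (E := vert δ) (x := x') lam (hb _ (Or.inl rfl)) σ
    (fun a => Finsupp.single e1 (dg a))
  rw [← hxx, ← hdx'] at h2
  rw [← hdx, h2] at h1
  have hmon : ∀ a, mon x (Finsupp.single e1 (dg a)) = lam ^ dg a := fun a => by
    rw [mon_single, hxx, Pi.smul_apply, he1, smul_eq_mul, mul_one]
  simp only [hmon] at h1
  rw [← hdx] at hdet ⊢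
  obtain ⟨Z, hZ⟩ : ∃ Z, Z = ∏ a : A, x c0 ^ dg a := ⟨_, rfl⟩
  have hZ0 : Z ≠ 0 := by
    rw [hZ]
    exact Finset.prod_ne_zero_iff.2 fun a _ => pow_ne_zero _ he0
  rw [← hZ]
  have h3 : (∏ a, if Sum.inr a ∈ b then lam ^ dg a / x c0 ^ dg a else 1) * Z =
      lam ^ (∑ a, dg a) := by
    rw [hZ, ← Finset.prod_pow_eq_pow_sum, ← Finset.prod_mul_distrib]
    refine Finset.prod_congr rfl fun a _ => ?_
    rw [if_pos (hG a), div_mul_cancel₀ _ (pow_ne_zero _ he0)]
  have h4 : lam ^ (∑ i ∈ b, rd i) * dx' = dx / Z * lam ^ (∑ a, dg a) := by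
    rw [h1, ← h3]
    field_simp
  have hlp : ∀ m : ℕ, lam ^ m ≠ 0 := fun m => pow_ne_zero _ hlam
  have hq0 : dx / Z ≠ 0 := div_ne_zero hdet hZ0
  have hdx'0 : dx' ≠ 0 := by
    intro h0
    rw [h0, mul_zero] at h4
    exact mul_ne_zero hq0 (hlp _) h4.symm
  have h5 := congrArg P.ord h4
  rw [P.ord_mul (hlp _) hdx'0, P.ord_mul hq0 (hlp _), P.ord_pow, P.ord_pow, hlamP] at h5
  have h7 := ord_det hF hD hS hδ hδF P hx' he1 hb σ (by
    rw [← hcard, hxx, full_scale_eq x' hlam]) (by rw [← hdx']; exact hdx'0) hG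
    (hw lam x' hlam hxx hx' ⟨e1, he1⟩)
  rw [← hdx'] at h7
  rw [sub_mul]
  linarith

open scoped Classical in
/-- The degree inequality. -/
theorem curve_ineq (hF : ∀ a, (F a).IsHomogeneous (dg a)) (hD : DualE c0 F dg D ε) [Fintype A]
    (hS : ∀ a I, Sem k (D a I)) (hδ : δ ≠ 0) (hδF : ∀ a u, δ ((F a).coeff u) = 0)
    {m : ℕ} {x : Fin (n + 1) → K} (hx1 : x c0 = 1) {l1 : Fin (n + 1)}
    (hl1 : δ (x l1) ≠ 0) (hrk : Module.finrank K (Full c0 dg D (vert δ) x) ≤ m + 1)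
    (hC : ∀ a, eval x (F a) = 0) {ω : Place k K → ℤ} (hω : {P | ω P ≠ 0}.Finite)
    (hw : ∀ P, Nrm P δ x (ω P)) :
    ((∑ a, dg a : ℕ) + Fintype.card A - 2 * m) * pht k x ≤ ∑ᶠ P, ω P := by
  have hx0 : x c0 ≠ 0 := by rw [hx1]; exact one_ne_zero
  have hx00 : x ≠ 0 := by
    rintro rfl
    exact hx0 rfl
  have hδF' : ∀ (ξ : Unit) a u, vert δ ξ ((F a).coeff u) = 0 := fun _ a u => hδF a u
  have hind : LinearIndepOn K (vv c0 dg D (vert δ) x fun a => Finsupp.single c0 (dg a))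
      (Vert Unit n A) := by
    have h1 : Vert Unit n A = {Sum.inl none, Sum.inl (some (Sum.inl ()))} := by
      ext i
      constructor
      · rintro (rfl | ⟨⟨⟩, rfl⟩)
        · exact Or.inl rfl
        · exact Or.inr rfl
      · rintro (rfl | rfl)
        · exact Or.inl rfl
        · exact Or.inr ⟨(), rfl⟩
    rw [h1, LinearIndepOn.pair_iff _ (by simp)]
    intro r s hrs
    have h2 := congrFun hrs c0
    have h3 := congrFun hrs l1
    simp only [vv, wv, ev, Pi.add_apply, Pi.smul_apply, smul_eq_mul, Pi.zero_apply] at h2 h3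
    have h4 : vert δ () (x c0) = 0 := by
      rw [hx1]
      exact δ.map_one_eq_zero
    rw [h4, hx1, mul_one, mul_zero, add_zero] at h2
    rw [h2, zero_mul, zero_add] at h3
    exact ⟨h2, (mul_eq_zero.1 h3).resolve_right hl1⟩
  obtain ⟨b, hbV, hbC, hbi, hspan, hcard⟩ := exists_rows (C := Finset.univ) (E := vert δ) hF hD hδF'
    hx0 (fun a _ => hC a) hind
  obtain ⟨σ, hσ⟩ := exists_minor _ hbi
  have hdet : (mx c0 dg D (vert δ) x (fun a => Finsupp.single c0 (dg a)) b σ).det ≠ 0 := by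
    unfold mx
    convert hσ
  have hG : ∀ a, Sum.inr a ∈ b := fun a => hbC a (Finset.mem_univ a)
  have hrd : ∑ i ∈ b, rd i + Fintype.card A + 2 ≤ 2 * b.card := by
    obtain ⟨b', hb'⟩ : ∃ b' : Finset (Ix Unit n A ⊕ A), b' = insert (Sum.inl none)
      (insert (Sum.inl (some (Sum.inl ()))) (Finset.univ.image Sum.inr)) := ⟨_, rfl⟩
    have h1 : b' ⊆ b := by
      rw [hb']
      intro i hi
      rcases Finset.mem_insert.1 hi with rfl | hi
      · exact hbV _ (Or.inl rfl)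
      rcases Finset.mem_insert.1 hi with rfl | hi
      · exact hbV _ (Or.inr ⟨(), rfl⟩)
      · obtain ⟨a, ha, rfl⟩ := Finset.mem_image.1 hi
        exact hbC a ha
    have h2 : b'.card = Fintype.card A + 2 := by
      rw [hb', Finset.card_insert_of_notMem (by simp), Finset.card_insert_of_notMem (by simp),
        Finset.card_image_of_injective _ Sum.inr_injective, Finset.card_univ]
    have h3 : ∑ i ∈ b', rd i = b'.card := by
      rw [Finset.card_eq_sum_ones]
      refine Finset.sum_congr rfl fun i hi => ?_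
      rw [hb'] at hi
      rcases Finset.mem_insert.1 hi with rfl | hi
      · rfl
      rcases Finset.mem_insert.1 hi with rfl | hi
      · rfl
      · obtain ⟨a, ha, rfl⟩ := Finset.mem_image.1 hi
        rfl
    have h4 : ∑ i ∈ b \ b', rd i ≤ 2 * (b \ b').card := by
      rw [mul_comm, ← smul_eq_mul, ← Finset.sum_const]
      refine Finset.sum_le_sum fun i _ => ?_
      rcases i with (_ | _ | _) | _
      · exact one_le_two
      · exact one_le_two
      · exact le_rfl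
      · exact one_le_two
    have h5 := Finset.sum_sdiff (f := fun i => rd i) h1
    have h6 := Finset.card_sdiff_add_card_eq_card h1
    omega
  have hpht : 0 ≤ pht k x :=
    (hgt_nonneg _).trans (Pool.Agent.W603.CX.hgt_le_pht (k := k) x hx0 hx0)
  obtain ⟨α, hα⟩ : ∃ α : ℤ, α = (∑ a, dg a : ℕ) - (∑ i ∈ b, rd i : ℕ) := ⟨_, rfl⟩
  have h1 := sum_local' (k := k) hx00
    (Θ := (mx c0 dg D (vert δ) x (fun a => Finsupp.single c0 (dg a)) b σ).det /
        ∏ a : A, x c0 ^ dg a) (a := α) (C := ω) hω (fun P => ?_)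
  · refine le_trans (mul_le_mul_of_nonneg_right ?_ hpht) h1
    have h3 : ((∑ i ∈ b, rd i : ℕ) : ℤ) + Fintype.card A + 2 ≤ 2 * b.card := by exact_mod_cast hrd
    have h4 : (b.card : ℤ) ≤ m + 1 := by
      rw [hcard] at hrk
      exact_mod_cast hrk
    rw [hα]
    linarith
  · have h2 := local_est hF hD hS hδ hδF P hx0 hbV σ hspan hcard hdet hG (hw P)
    refine le_trans ?_ h2
    rw [hα]
    have h4 : -(((∑ a, dg a : ℕ) : ℤ) - (∑ i ∈ b, rd i : ℕ)) * pord P x =
      ((∑ i ∈ b, rd i : ℕ) - (∑ a, dg a : ℕ)) * pord P x := by ring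
    rw [h4]

end Pool.Agent.Helper53K9.BD.CurvL

namespace Pool.Agent.Helper53K9.BD

open CurvL

theorem curv : S_CURV := by
  intro k0 k L _ _ _ _ _ _ _ _ n m A _ dg V hVh hV F hF I0 h0 hind x hx hxV hxF δ hδ ω hω hw
  classical
  let _ : Algebra k0 L := ((algebraMap k L).comp (algebraMap k0 k)).toAlgebra
  have hst : IsScalarTower k0 k L := IsScalarTower.of_algebraMap_eq fun _ => rfl
  have hL : CharZero L := charZero_of_injective_algebraMap (algebraMap k L).injective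
  obtain ⟨i1, c0, hc0, hi1⟩ := hx
  obtain ⟨G, hG⟩ : ∃ G : A → MvPolynomial (Fin (n + 1)) k, ∀ a, G a =
    MvPolynomial.C ((F a).coeff (I0 a))⁻¹ * F a := ⟨_, fun _ => rfl⟩
  have hGh : ∀ a, (G a).IsHomogeneous (dg a) := fun a => by
    have := (isHomogeneous_C (Fin (n + 1)) ((F a).coeff (I0 a))⁻¹).mul (hF a)
    rwa [zero_add, ← hG] at this
  have hG1 : ∀ a, (G a).coeff (I0 a) = 1 := fun a => by
    rw [hG, coeff_C_mul, inv_mul_cancel₀ (h0 a)]
  have hGi : AlgebraicIndependent k0 fun p : Rt dg I0 => (G p.1).coeff p.2.1 := by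
    have h2 : (fun p : Rt dg I0 => (G p.1).coeff p.2.1) = fun p : Rt dg I0 =>
        (F p.1).coeff p.2.1 / (F p.1).coeff (I0 p.1) := by
      funext p
      rw [hG, coeff_C_mul, div_eq_mul_inv, mul_comm]
    rw [h2]
    exact hind
  obtain ⟨D, ε, hD, hDS, hDk⟩ := exists_dualE (L := L) hGh I0 hG1 hGi c0
  obtain ⟨H, hH⟩ : ∃ H : A → MvPolynomial (Fin (n + 1)) L, H = fun a =>
    map (algebraMap k L) (G a) := ⟨_, rfl⟩
  rw [← hH] at hD
  have hHh : ∀ a, (H a).IsHomogeneous (dg a) := fun a => by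
    rw [hH]
    exact (hGh a).map _
  have hδF : ∀ a u, δ ((H a).coeff u) = 0 := fun a u => by
    rw [hH, coeff_map]
    exact δ.map_algebraMap _
  obtain ⟨x', hx'⟩ : ∃ x' : Fin (n + 1) → L, x' = fun j => (x c0)⁻¹ * x j := ⟨_, rfl⟩
  have hcx : (x c0)⁻¹ ≠ 0 := inv_ne_zero hc0
  have hx1 : x' c0 = 1 := by
    rw [hx']
    exact inv_mul_cancel₀ hc0
  have hl1 : ∃ l1, δ (x' l1) ≠ 0 := by
    refine ⟨i1, fun h => hi1 ?_⟩
    obtain ⟨c, hc⟩ := const_of_der hδ h
    refine ⟨c, ?_⟩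
    rw [← hc, hx', div_eq_mul_inv, mul_comm]
  obtain ⟨l1, hl1⟩ := hl1
  have hxx : x' = (x c0)⁻¹ • x := by rw [hx']; rfl
  have hx00 : x' ≠ 0 := by
    rintro h
    rw [h] at hx1
    exact zero_ne_one hx1
  have hev : ∀ a, eval x' (H a) = 0 := by
    intro a
    rw [hxx, eval_smul_hom (hHh a), hH]
    dsimp only
    rw [eval_map, hG, eval₂_mul, eval₂_C]
    have h1 : eval₂ (algebraMap k L) x (F a) = 0 := hxF a
    rw [h1, mul_zero, mul_zero]
  have hVx : ∀ f ∈ V, aeval x' f = 0 := by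
    intro f hf
    have h3 : aeval x f = 0 := by
      have h4 := hxV f hf
      rw [aeval_map_algebraMap] at h4
      exact h4
    obtain ⟨e, he⟩ := hVh f hf
    rw [hxx, Pool.Agent.TH145.MG.aeval_smul he, h3, mul_zero]
  have hrk : Module.finrank L (Full c0 dg D (vert δ) x') ≤ m + 1 := by
    refine le_trans (Submodule.finrank_mono (full_le_tan (k0 := k0) hDk ?_ x'))
      (tan_rank hx1 (hV L x' hx00 hVx))
    intro _ r
    change δ (algebraMap k0 L r) = 0
    rw [IsScalarTower.algebraMap_apply k0 k L]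
    exact δ.map_algebraMap _
  have hw' : ∀ P, Nrm P δ x' (ω P) := by
    intro P lam y hlam hy hyP hy1
    refine hw P (x c0 * lam) y (mul_ne_zero hc0 hlam) ?_ hyP hy1
    rw [mul_smul, ← hy, hxx, smul_smul, mul_inv_cancel₀ hc0, one_smul]
  have key := curve_ineq hHh hD hDS hδ hδF hx1 hl1 hrk hev hω hw'
  have hp : pht k x' = pht k x := by
    rw [hx']
    exact pht_scale ⟨c0, hc0⟩ hcx
  rw [hp] at key
  refine le_trans (le_of_eq ?_) key
  congr 1
  rw [Finset.sum_add_distrib, Finset.sum_const, Finset.card_univ, smul_eq_mul, mul_one]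
  push_cast
  ring

end Pool.Agent.Helper53K9.BD
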