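import Pool.Agent.Helper53K9.BD.Stm2

/-!
The fundamental identity ([FUND]).
-/

set_option autoImplicit false

open FF Pool.Agent.W603.LV Pool.Agent.W603.PV

namespace Pool.Agent.Helper53K9.BD

namespace FundL

/-- A function with exactly one pole. -/
theorem exists_one_pole {k L : Type} [Field k] [Field L] [Algebra k L] [IsAlgClosed k] [CharZero k]
    [IsFF k L] (Q : Place k L) : ∃ f : L, Q.ord f < 0 ∧ ∀ P : Place k L, P ≠ Q → 0 ≤ P.ord f := by
  classical
  obtain ⟨γ, N, h, -⟩ := riemann k L
  obtain ⟨n, hn⟩ : ∃ n : ℤ, n = max (γ + 2) 1 := ⟨_, rfl⟩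
  obtain ⟨D, hD⟩ : ∃ D : Place k L →₀ ℤ, D = Finsupp.single Q n := ⟨_, rfl⟩
  have h1 : ddeg D = n := by
    rw [hD, ddeg_single, deg_one, Nat.cast_one, mul_one]
  have h2 : (2 : ℤ) ≤ ell D := by
    have h3 := h D
    rw [h1] at h3
    have h4 := le_max_left (γ + 2) 1
    omega
  have h3 : ¬ LL D ≤ Submodule.span k {(1 : L)} := by
    intro hle
    have h4 := Submodule.finrank_mono hle
    have h5 : Module.finrank k (Submodule.span k {(1 : L)}) = 1 :=
      finrank_span_singleton one_ne_zero
    rw [h5] at h4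
    have h6 : ell D = (Module.finrank k (LL D) : ℤ) := rfl
    omega
  obtain ⟨f, hfD, hf1⟩ := SetLike.not_le_iff_exists.1 h3
  have hf0 : f ≠ 0 := by
    rintro rfl
    exact hf1 (zero_mem _)
  have hf2 := (mem_LL.1 hfD).resolve_left hf0
  have hreg : ∀ P : Place k L, P ≠ Q → 0 ≤ P.ord f := by
    intro P hP
    have h4 := hf2 P
    rw [hD, Finsupp.single_eq_of_ne hP, neg_zero] at h4
    exact h4
  refine ⟨f, ?_, hreg⟩
  by_contra hcon
  push Not at hcon
  have h4 : hgt k f ≤ 0 := by
    unfold hgt
    rw [finsum_eq_zero_of_forall_eq_zero]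
    intro P
    by_cases hP : P = Q
    · rw [hP]
      exact max_eq_right (by linarith)
    · exact max_eq_right (by have := hreg P hP; linarith)
  obtain ⟨c, hc⟩ := const_of_hgt h4
  apply hf1
  rw [hc, Algebra.algebraMap_eq_smul_one]
  exact Submodule.smul_mem _ _ (Submodule.mem_span_singleton_self 1)

variable {k L M : Type} [Field k] [Field L] [Field M] [Algebra k L] [Algebra L M]
  [Algebra k M] [IsScalarTower k L M] [IsAlgClosed k] [CharZero k] [IsFF k L] [IsFF k M]
  [FiniteDimensional L M]

omit [FiniteDimensional L M] in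
/-- The sum of the ramification indices over a place. -/
theorem fiber {q : Place k M → Place k L} {r : Place k M → ℤ} (hr : ∀ P, 1 ≤ r P)
    (hq : ∀ P f, P.ord (algebraMap L M f) = r P * (q P).ord f) (Q : Place k L)
    (S : Finset (Place k M)) (hS : ∀ P, P ∈ S ↔ q P = Q) :
    ∑ P ∈ S, r P = Module.finrank L M := by
  classical
  obtain ⟨f, hf, hreg⟩ := exists_one_pole Q
  have h1 : hgt k f = -Q.ord f := by
    unfold hgt
    rw [finsum_eq_single _ Q fun P hP => max_eq_right (by have := hreg P hP; linarith)]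
    exact max_eq_left (by linarith)
  have h2 : hgt k (algebraMap L M f) = (-Q.ord f) * ∑ P ∈ S, r P := by
    unfold hgt
    rw [finsum_eq_sum_of_support_subset (s := S), Finset.mul_sum]
    · refine Finset.sum_congr rfl fun P hP => ?_
      rw [hq, (hS P).1 hP]
      have h3 := hr P
      rw [max_eq_left (by nlinarith)]
      ring
    · intro P hP
      rw [Finset.mem_coe, hS]
      by_contra hcon
      apply hP
      change max (-P.ord (algebraMap L M f)) 0 = 0
      rw [hq]
      have h3 := hr P
      have h4 := hreg _ hcon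
      exact max_eq_right (by nlinarith)
  rw [hgt_algebraMap, h1, mul_comm] at h2
  have h3 : -Q.ord f ≠ 0 := by omega
  exact (mul_left_cancel₀ h3 h2).symm

end FundL

theorem fund : S_FUND := by
  classical
  intro k L M _ _ _ _ _ _ _ _ _ _ _ _ q r hr hq e hef
  have hzf : ∀ Q : Place k L, {P : Place k M | P.ord (algebraMap L M (unif Q)) ≠ 0}.Finite :=
    fun Q => finite_support _
  have hqz : ∀ P : Place k M, P.ord (algebraMap L M (unif (q P))) = r P := fun P => by
    rw [hq, ord_unif, mul_one]
  have hfin : {P : Place k M | r P * e (q P) ≠ 0}.Finite := by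
    refine (hef.biUnion fun Q _ => hzf Q).subset fun P hP => ?_
    rw [Set.mem_iUnion₂]
    refine ⟨q P, fun h => hP (by rw [h, mul_zero]), ?_⟩
    change P.ord (algebraMap L M (unif (q P))) ≠ 0
    rw [hqz]
    have := hr P
    omega
  refine ⟨hfin, ?_⟩
  rw [finsum_eq_sum_of_support_subset (s := hfin.toFinset) _ (fun P hP => by
    rw [Set.Finite.coe_toFinset]; exact hP),
    finsum_eq_sum_of_support_subset (s := hef.toFinset) _ (fun P hP => by
    rw [Set.Finite.coe_toFinset]; exact hP), Finset.mul_sum,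
    ← Finset.sum_fiberwise_of_maps_to (s := hfin.toFinset) (t := hef.toFinset) (g := q)
      (fun P hP => by
        rw [Set.Finite.mem_toFinset] at hP ⊢
        intro h
        exact hP (by rw [h, mul_zero]))]
  refine Finset.sum_congr rfl fun Q hQ => ?_
  have hQ0 : e Q ≠ 0 := by
    rw [Set.Finite.mem_toFinset] at hQ
    exact hQ
  have h1 : ∑ P ∈ hfin.toFinset with q P = Q, r P * e (q P) =
      (∑ P ∈ hfin.toFinset with q P = Q, r P) * e Q := by
    rw [Finset.sum_mul]
    refine Finset.sum_congr rfl fun P hP => ?_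
    rw [(Finset.mem_filter.1 hP).2]
  rw [h1, FundL.fiber hr hq Q _ fun P => ?_]
  rw [Finset.mem_filter, Set.Finite.mem_toFinset]
  refine ⟨fun h => h.2, fun h => ⟨?_, h⟩⟩
  change r P * e (q P) ≠ 0
  rw [h]
  have h2 := hr P
  exact mul_ne_zero (by omega) hQ0

end Pool.Agent.Helper53K9.BD
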