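import Pool.Agent.Helper53K9.BD.All
import Pool.Agent.Helper53K9.BD.Curv
import Pool.Agent.Helper53K9.BD.Fund

/-!
# Families of points of bounded degree over a curve
-/

set_option autoImplicit false

open MvPolynomial FF Pool.Agent.W603.LV Pool.Agent.W603.PV Pool.Agent.TH145.GH
open Pool.Agent.TH145.MG (DimLE)
open Pool.Agent.TH145.GC (Rt)

namespace Pool.Agent.Helper53K9.BD

section

variable {k L M : Type} [Field k] [Field L] [Field M] [Algebra k L] [Algebra L M]
  [Algebra k M] [IsScalarTower k L M]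

theorem E2_map (t y : L) (G : Polynomial (Polynomial k)) :
    E2 (algebraMap L M t) (algebraMap L M y) G = algebraMap L M (E2 t y G) := by
  rw [E2_apply, E2_apply, Polynomial.hom_eval₂]
  congr 1
  apply Polynomial.ringHom_ext
  · intro a
    simp [← IsScalarTower.algebraMap_apply]
  · simp

variable [IsAlgClosed k] [CharZero k] [IsFF k L] [IsFF k M] [FiniteDimensional L M]

/-- The extension of a derivation. -/
theorem exists_ext (δL : Derivation k L L) (hδ : δL ≠ 0) : ∃ δ : Derivation k M M, δ ≠ 0 ∧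
    ∀ f, δ (algebraMap L M f) = algebraMap L M (δL f) := by
  obtain ⟨τ, hτ⟩ := IsFF.exists_transcendental (k := k) (K := L)
  have hτM : Transcendental k (algebraMap L M τ) :=
    (transcendental_algebraMap_iff (algebraMap L M).injective).2 hτ
  obtain ⟨d0, hd0⟩ := exists_der (k := k) (K := M)
  have h0 := der_ne_zero hd0 hτM
  have h1 := der_ne_zero hδ hτ
  obtain ⟨δ, hδd⟩ : ∃ δ : Derivation k M M, δ = (algebraMap L M (δL τ) / d0 (algebraMap L M τ)) • d0 :=
    ⟨_, rfl⟩
  have h2 : δ (algebraMap L M τ) = algebraMap L M (δL τ) := by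
    rw [hδd, Derivation.coe_smul, Pi.smul_apply, smul_eq_mul, div_mul_cancel₀ _ h0]
  refine ⟨δ, ?_, fun f => ?_⟩
  · rintro rfl
    rw [Derivation.coe_zero, Pi.zero_apply] at h2
    exact h1 ((map_eq_zero _).1 h2.symm)
  · obtain ⟨G, hG, hG'⟩ := exists_poly hτ f
    have h3 := chain δL τ f G
    have h4 := chain δ (algebraMap L M τ) (algebraMap L M f) G
    rw [hG, map_zero] at h3
    rw [E2_map, E2_map, E2_map, hG, map_zero, map_zero, h2] at h4
    have h5 := congrArg (algebraMap L M) h3
    rw [map_zero, map_add, map_mul, map_mul] at h5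
    have h6 : algebraMap L M (E2 τ f (Polynomial.derivative G)) ≠ 0 :=
      (_root_.map_ne_zero _).2 hG'
    have h7 : algebraMap L M (E2 τ f (Polynomial.derivative G)) *
        (δ (algebraMap L M f) - algebraMap L M (δL f)) = 0 := by
      linear_combination h5 - h4
    exact sub_eq_zero.1 ((mul_eq_zero.1 h7).resolve_left h6)

/-- The height of a point in a finite extension. -/
theorem pht_ext {n : ℕ} (x : Fin (n + 1) → L) (hx : ∃ j, x j ≠ 0) :
    pht k (fun j => algebraMap L M (x j)) = Module.finrank L M * pht k x := by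
  choose q r hr hq using fun P : Place k M => res k L M P
  have h1 := fund k L M q r hr hq (fun Q => pord Q x) (pord_finite hx)
  unfold pht
  rw [mul_neg, ← h1.2]
  congr 1
  refine finsum_congr fun P => ?_
  have hr' := hr P
  obtain ⟨j, hj⟩ := hx
  obtain ⟨i, hi, hi'⟩ := exists_pord P (f := fun j => algebraMap L M (x j))
    ⟨j, (_root_.map_ne_zero _).2 hj⟩
  obtain ⟨i2, hi2, hi2'⟩ := exists_pord (q P) (f := x) ⟨j, hj⟩
  apply le_antisymm
  · rw [← hi2', ← hq]
    exact pord_le P (f := fun j => algebraMap L M (x j)) ((_root_.map_ne_zero _).2 hi2)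
  · rw [← hi', hq]
    have hxi : x i ≠ 0 := fun h => hi (by rw [h, map_zero])
    exact mul_le_mul_of_nonneg_left (pord_le (q P) hxi) (by omega)

/-- The inequality for a Galois extension. -/
theorem curve_gal [IsGalois L M] {k0 : Type} [Field k0] [Algebra k0 k] {n m ν : ℕ} {A : Type}
    [Fintype A] {dg : A → ℕ}
    (V : Set (MvPolynomial (Fin (n + 1)) k0)) (hVh : ∀ f ∈ V, ∃ e, f.IsHomogeneous e)
    (hV : DimLE k0 V m) (F : A → MvPolynomial (Fin (n + 1)) k) (hF : ∀ a, (F a).IsHomogeneous (dg a))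
    (I0 : A → Fin (n + 1) →₀ ℕ) (h0 : ∀ a, (F a).coeff (I0 a) ≠ 0)
    (hind : AlgebraicIndependent k0 fun p : Rt dg I0 =>
      (F p.1).coeff p.2.1 / (F p.1).coeff (I0 p.1))
    (U : IntermediateField L M) (hU : Module.finrank L U ≤ ν)
    (x : Fin (n + 1) → M) (l0 : Fin (n + 1)) (hl0 : x l0 = 1) (hxU : ∀ j, x j ∈ U)
    (hx : ∃ i, x i ∉ Set.range (algebraMap k M))
    (hxV : ∀ f ∈ V, aeval x (map (algebraMap k0 k) f) = 0) (hxF : ∀ a, aeval x (F a) = 0) :
    ((∑ a, (dg a + 1) : ℕ) - 2 * m - 2 * ν + 2 : ℤ) * pht k x ≤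
      Module.finrank L M * canDeg k L := by
  obtain ⟨δL, hδL⟩ := exists_der (k := k) (K := L)
  obtain ⟨δ, hδ, hδe⟩ := exists_ext (M := M) δL hδL
  choose s dP hsd using fun P : Place k M => atp k L M P
  obtain ⟨ρ, hρ0, hρf, hρs, hρ⟩ := gp_all k L M s dP hsd n ν U hU x l0 hl0 hxU
  choose q r hr hq using fun P : Place k M => res k L M P
  have hfund := fund k L M q r hr hq (fun Q => vo Q δL) (vo_finite hδL)
  obtain ⟨v, hv⟩ : ∃ v : Place k M → ℤ, ∀ P, v P = r P * vo (q P) δL := ⟨_, fun _ => rfl⟩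
  have hv' : v = fun P => r P * vo (q P) δL := funext hv
  have hvf : {P | v P ≠ 0}.Finite := by rw [hv']; exact hfund.1
  have hvs : ∑ᶠ P, v P = - (Module.finrank L M * canDeg k L) := by
    rw [hv', hfund.2, canDeg_eq hδL, mul_neg, neg_neg]
  -- the derivative at a place
  have hδP : ∀ P : Place k M, ∃ h : M, P.ord h = v P ∧ ∀ u, δ u = h * dP P u := by
    intro P
    have hne : dP P ≠ 0 := by
      intro h
      have := (hsd P).der
      rw [h] at this
      simp at this
    obtain ⟨h, hh⟩ := der_smul (k := k) (K := M) (D := dP P) (D' := δ) hne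
    have hh' : ∀ u, δ u = h * dP P u := fun u => by rw [hh]; rfl
    refine ⟨h, ?_, hh'⟩
    have h1 : h = algebraMap L M (δL (s P)) := by
      rw [← hδe, hh', (hsd P).der, mul_one]
    have h2 : (q P).ord (s P) = 1 := by
      have h3 := (hsd P).pos
      have h4 := (hsd P).dvd (unif (q P))
      rw [hq, hq, ord_unif, mul_one] at h4
      rw [hq] at h3
      have h5 := hr P
      have h6 : (q P).ord (s P) ∣ 1 := by
        refine Int.dvd_of_mul_dvd_mul_left (a := r P) (by omega) ?_ 
        rwa [mul_one]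
      have h7 : 0 < (q P).ord (s P) := by
        by_contra h8
        push Not at h8
        nlinarith
      exact Int.eq_one_of_dvd_one h7.le h6
    have h3 := (ord_der (q P) hδL (f := s P) (by rw [h2]; exact one_ne_zero)).2
    rw [h1, hq, h3, h2, hv]
    ring
  have hωf : {P : Place k M | ρ P - v P ≠ 0}.Finite := by
    refine (hρf.union hvf).subset fun P hP => ?_
    by_contra hcon
    rw [Set.mem_union, not_or] at hcon
    have h1 : ¬ (ρ P ≠ 0) := hcon.1
    have h2 : ¬ (v P ≠ 0) := hcon.2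
    apply hP
    omega
  have hl : x l0 ≠ 0 := by rw [hl0]; exact one_ne_zero
  have hmain := curv k0 k M n m A dg V hVh hV F hF I0 h0 hind x
    (by
      obtain ⟨i, hi⟩ := hx
      exact ⟨i, l0, hl, by rw [hl0, div_one]; exact hi⟩) hxV hxF δ hδ (fun P => ρ P - v P) hωf
    (fun P lam x' hlam hxx hx' he l => by
      obtain ⟨h, hh, hh'⟩ := hδP P
      have h1 := hρ P lam x' hlam hxx hx' he l
      rw [hh']
      have h2 : Ge P (v P) h := Or.inr hh.ge
      exact (h2.mul h1).mono (by omega))
  rw [finsum_sub_distrib hρf hvf, hvs] at hmain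
  have h1 : ((∑ a, (dg a + 1) : ℕ) - 2 * m - 2 * ν + 2 : ℤ) * pht k x =
      ((∑ a, (dg a + 1) : ℕ) - 2 * m : ℤ) * pht k x - (2 * ν - 2) * pht k x := by ring
  rw [h1]
  linarith

end

/-- A Galois extension that contains a given finite extension. -/
theorem exists_gal (L M : Type) [Field L] [Field M] [Algebra L M] [CharZero L]
    [FiniteDimensional L M] : ∃ (N : Type) (_ : Field N) (_ : Algebra L N) (_ : Algebra M N),
      IsScalarTower L M N ∧ FiniteDimensional L N ∧ IsGalois L N := by
  refine ⟨IntermediateField.normalClosure L M (AlgebraicClosure M), inferInstance, inferInstance,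
    inferInstance, inferInstance, inferInstance, ?_⟩
  have : Normal L (IntermediateField.normalClosure L M (AlgebraicClosure M)) := inferInstance
  exact { }

/-- The degree inequality for families of points of bounded degree over a curve. -/
theorem curve_bd {k0 K L M : Type} [Field k0] [Field K] [Algebra k0 K] [IsAlgClosed K] [CharZero K]
    [Field L] [Algebra K L] [IsFF K L] [Field M] [Algebra L M] [Algebra K M] [IsScalarTower K L M]
    [FiniteDimensional L M] {n m ν : ℕ} {A : Type} [Fintype A] {dg : A → ℕ}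
    (V : Set (MvPolynomial (Fin (n + 1)) k0)) (hVh : ∀ f ∈ V, ∃ e, f.IsHomogeneous e)
    (hV : DimLE k0 V m) (F : A → MvPolynomial (Fin (n + 1)) K) (hF : ∀ a, (F a).IsHomogeneous (dg a))
    (I0 : A → Fin (n + 1) →₀ ℕ) (h0 : ∀ a, (F a).coeff (I0 a) ≠ 0)
    (hind : AlgebraicIndependent k0 fun p : Rt dg I0 =>
      (F p.1).coeff p.2.1 / (F p.1).coeff (I0 p.1))
    (hν : Module.finrank L M ≤ ν) (x : Fin (n + 1) → M)
    (hx : ∃ i j, x j ≠ 0 ∧ x i / x j ∉ Set.range (algebraMap K M))
    (hxV : ∀ f ∈ V, aeval x (map (algebraMap k0 K) f) = 0) (hxF : ∀ a, aeval x (F a) = 0) :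
    ((∑ a, (dg a + 1) : ℕ) - 2 * m - 2 * ν + 2 : ℤ) * pht K x ≤
      Module.finrank L M * canDeg K L := by
  have hcL : CharZero L := charZero_of_injective_algebraMap (algebraMap K L).injective
  have hFM : IsFF K M := isFF_of_finite (F := L)
  obtain ⟨N, _, _, _, hst, hfd, hgal⟩ := exists_gal L M
  let _ : Algebra K N := ((algebraMap L N).comp (algebraMap K L)).toAlgebra
  have hst1 : IsScalarTower K L N := IsScalarTower.of_algebraMap_eq fun _ => rfl
  have hst2 : IsScalarTower K M N := IsScalarTower.of_algebraMap_eq fun r => by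
    rw [IsScalarTower.algebraMap_apply K L M, ← IsScalarTower.algebraMap_apply L M N]
    rfl
  have hFN : IsFF K N := isFF_of_finite (F := L)
  have hfd2 : FiniteDimensional M N := FiniteDimensional.right L M N
  obtain ⟨i1, c0, hc0, hi1⟩ := hx
  have hcx : (x c0)⁻¹ ≠ 0 := inv_ne_zero hc0
  obtain ⟨x1, hx1⟩ : ∃ x1 : Fin (n + 1) → M, x1 = fun j => (x c0)⁻¹ * x j := ⟨_, rfl⟩
  have hx1s : x1 = (x c0)⁻¹ • x := by rw [hx1]; rfl
  obtain ⟨x', hx'⟩ : ∃ x' : Fin (n + 1) → N, x' = fun j => algebraMap M N (x1 j) := ⟨_, rfl⟩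
  have hev : ∀ (p : MvPolynomial (Fin (n + 1)) K), aeval x' p = algebraMap M N (aeval x1 p) := by
    intro p
    rw [hx']
    exact aeval_algebraMap_apply N x1 p
  have hp : pht K x' = Module.finrank M N * pht K x := by
    rw [hx', pht_ext (k := K) (L := M) (M := N) x1 ⟨c0, ?_⟩, hx1, pht_scale ⟨c0, hc0⟩ hcx]
    rw [hx1]
    exact mul_ne_zero hcx hc0
  have hfr : Module.finrank L N = Module.finrank L M * Module.finrank M N :=
    (Module.finrank_mul_finrank L M N).symm
  have hmain := curve_gal (k := K) (L := L) (M := N) (ν := ν) V hVh hV F hF I0 h0 hind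
    (IsScalarTower.toAlgHom L M N).fieldRange
    (by
      have h1 := LinearEquiv.finrank_eq (AlgEquiv.ofInjectiveField
        (IsScalarTower.toAlgHom L M N)).toLinearEquiv
      rw [h1] at hν
      exact hν) x' c0 (by
      rw [hx', hx1]
      dsimp only
      rw [inv_mul_cancel₀ hc0, map_one]) (fun j => by
      rw [hx']
      exact ⟨x1 j, rfl⟩)
    ⟨i1, by
      rintro ⟨r, hr⟩
      apply hi1
      refine ⟨r, (algebraMap M N).injective ?_⟩
      rw [← IsScalarTower.algebraMap_apply K M N, hr, hx', hx1, div_eq_mul_inv, mul_comm]⟩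
    (fun f hf => by
      rw [hev]
      obtain ⟨e, he⟩ := hVh f hf
      have h3 : aeval x1 (map (algebraMap k0 K) f) = 0 := by
        rw [hx1s, Pool.Agent.TH145.MG.aeval_smul (he.map _), hxV f hf, mul_zero]
      rw [h3, map_zero])
    (fun a => by
      rw [hev, hx1s, Pool.Agent.TH145.MG.aeval_smul (hF a), hxF a, mul_zero, map_zero])
  rw [hp, hfr] at hmain
  have hpos : (0 : ℤ) < Module.finrank M N := by exact_mod_cast Module.finrank_pos
  push_cast at hmain ⊢
  refine le_of_mul_le_mul_left ?_ hpos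
  linarith

end Pool.Agent.Helper53K9.BD
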