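import Pool.Agent.Helper53K9.BD.Gal

/-!
Heights of the points of bounded degree ([EHT]).
-/

set_option autoImplicit false

open MvPolynomial FF Pool.Agent.W603.LV Pool.Agent.W603.PV Pool.Agent.W602.RG Pool.Agent.TH145.GH
open Pool.Agent.TH145.GC (Data Gen Full Cf)

namespace Pool.Agent.Helper53K9.BD

/-- The heights of the coordinates are at most the height of the point. -/
theorem hgt_coord_le {k L : Type} [Field k] [Field L] [Algebra k L] [IsAlgClosed k] [CharZero k]
    [IsFF k L] {n : ℕ} {x : Fin (n + 1) → L} {l0 : Fin (n + 1)} (hl0 : x l0 = 1) {H : ℤ}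
    (hH : 0 ≤ H) (h : pht k x ≤ H) (j : Fin (n + 1)) : hgt k (x j) ≤ H := by
  by_cases hj : x j = 0
  · rw [hj]
    have := Pool.Agent.TH145.MG.hgt_const (k := k) (L := L) 0
    rw [map_zero] at this
    rw [this]
    exact hH
  · have h2 := Pool.Agent.W603.CX.hgt_le_pht (k := k) x hj (l := l0)
      (by rw [hl0]; exact one_ne_zero)
    rw [hl0, div_one] at h2
    exact h2.trans h

set_option maxHeartbeats 4000000 in
set_option synthInstance.maxHeartbeats 400000 in
theorem ht_core (hineq : S_INEQ) (hhts : S_HTS) {k0 k L Ω E : Type} [Field k0] [Field k] [Field L]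
    [Field Ω] [Field E] [Algebra k L] [Algebra L Ω] [Algebra k Ω] [IsScalarTower k L Ω]
    [Algebra E Ω] [IsAlgClosed k] [CharZero k] [CharZero Ω] [IsAlgClosed Ω] [IsFF k L]
    (φ : E →+* L) (hφ : ∀ x, algebraMap L Ω (φ x) = algebraMap E Ω x) (ι : k0 →+* E)
    {n m ν u : ℕ} {c : ℕ} (hc : ∀ (k M : Type) [Field k] [Field M] [Algebra k M]
      [IsAlgClosed k] [CharZero k] [IsFF k M] (s : Finset M), s.card ≤ ν → ∀ B : ℤ, 0 ≤ B →
      (∀ t ∈ s, hgt k t ≤ B) →
      (∀ i, hgt k ((∏ t ∈ s, (Polynomial.X - Polynomial.C t)).coeff i) ≤ c * B) ∧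
      ∀ Q : Polynomial M, Q.degree < s.card → (∀ t ∈ s, hgt k (Q.eval t) ≤ B) →
        ∀ i, hgt k (Q.coeff i) ≤ c * B)
    {A : Type} [Fintype A] {dg : A → ℕ} {FE : A → MvPolynomial (Fin (n + 1)) E}
    {D : A → (Fin (n + 1) →₀ ℕ) → Derivation ℤ L L} {e : Place k L → ℤ}
    (hdat : Data k (fun a => map φ (FE a)) dg D e)
    (Dh : A → (Fin (n + 1) →₀ ℕ) → Derivation ℤ Ω Ω)
    (hDh : ∀ a I f, Dh a I (algebraMap L Ω f) = algebraMap L Ω (D a I f))
    (hS : ∀ a I, Sem k (D a I)) (hDk : ∀ a I r, D a I (φ (ι r)) = 0)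
    (hd : 2 * m + 2 * ν ≤ ∑ a, (dg a + 1)) {V : Set (MvPolynomial (Fin (n + 1)) k0)}
    (hV : Pool.Agent.TH145.MG.DimLE k0 V m) (t : Ω) (G : Polynomial E)
    (Q : Fin (n + 1) → Polynomial E) (hGm : G.Monic) (hGi : Irreducible G)
    (hGν : G.natDegree ≤ ν) (hGt : Polynomial.aeval t G = 0)
    (hQd : ∀ j, (Q j).degree < G.natDegree) (x : Fin (n + 1) → Ω)
    (hx : ∀ j, x j = Polynomial.aeval t (Q j)) (l0 : Fin (n + 1)) (hl0 : x l0 = 1)
    (htx : t = ∑ j : Fin (n + 1), (u : Ω) ^ (j : ℕ) * x j)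
    (hxV : ∀ f ∈ V, eval₂ ((algebraMap E Ω).comp ι) x f = 0)
    (hxF : ∀ a, eval₂ (algebraMap E Ω) x (FE a) = 0) :
    (∀ r, hgt k (φ (G.coeff r)) ≤ c * ((n + 1) * ∑ᶠ P, e P * hgt k (unif P))) ∧
      ∀ j r, hgt k (φ ((Q j).coeff r)) ≤ c * ((n + 1) * ∑ᶠ P, e P * hgt k (unif P)) := by
  classical
  have hczL : CharZero L := charZero_of_injective_algebraMap (algebraMap k L).injective
  have hczE : CharZero E := by
    constructor
    intro a b hab
    have h1 := congrArg φ hab
    rw [map_natCast, map_natCast] at h1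
    exact Nat.cast_injective h1
  obtain ⟨B0, hB0⟩ : ∃ B0 : ℤ, B0 = ∑ᶠ P, e P * hgt k (unif P) := ⟨_, rfl⟩
  have hB0p : 0 ≤ B0 := by
    rw [hB0]
    exact finsum_nonneg fun P => mul_nonneg (hdat.e_nonneg P) (hgt_nonneg _)
  rw [← hB0]
  obtain ⟨g, hg⟩ : ∃ g : Polynomial L, g = G.map φ := ⟨_, rfl⟩
  have hgm : g.Monic := by rw [hg]; exact hGm.map φ
  have hgd : g.natDegree = G.natDegree := by rw [hg, Polynomial.natDegree_map]
  have hφc : (algebraMap L Ω).comp φ = algebraMap E Ω := RingHom.ext hφ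
  -- the splitting field
  obtain ⟨M, hM⟩ : ∃ M : IntermediateField L Ω,
    M = IntermediateField.adjoin L (g.rootSet Ω) := ⟨_, rfl⟩
  have hspl : g.IsSplittingField L M := by
    rw [hM]
    exact IntermediateField.adjoin_rootSet_isSplittingField
      (IsAlgClosed.splits (g.map (algebraMap L Ω)))
  have hfin : FiniteDimensional L M := Polynomial.IsSplittingField.finiteDimensional M g
  have hnor : Normal L M := Normal.of_isSplittingField g
  have hgal : IsGalois L M := { }
  have hFFM : IsFF k M := Pool.Agent.W603.PV.isFF_of_finite (F := L)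
  have hczM : CharZero M := charZero_of_injective_algebraMap (algebraMap k M).injective
  obtain ⟨N, hN⟩ : ∃ N : ℕ, N = Module.finrank L M := ⟨_, rfl⟩
  have hNp : 0 < N := by rw [hN]; exact Module.finrank_pos
  have hhts' : ∀ f : L, hgt k (algebraMap L M f) = N * hgt k f := fun f => by
    rw [hN]; exact hhts k L M f
  -- transfer from `t` to its conjugates
  have htr : ∀ p : Polynomial E, Polynomial.aeval t p = 0 → ∀ t' : Ω, Polynomial.aeval t' G = 0 →
      Polynomial.aeval t' p = 0 := by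
    intro p hp t' ht'
    have h1 : G = minpoly E t := minpoly.eq_of_irreducible_of_monic hGi hGt hGm
    obtain ⟨q, hq⟩ : G ∣ p := by rw [h1]; exact minpoly.dvd E t hp
    rw [hq, map_mul, ht', zero_mul]
  -- the roots
  obtain ⟨gM, hgM⟩ : ∃ gM : Polynomial M, gM = g.map (algebraMap L M) := ⟨_, rfl⟩
  have hgMm : gM.Monic := by rw [hgM]; exact hgm.map _
  have hgMs : gM.Splits := by rw [hgM]; exact hspl.splits
  have hsep : gM.Separable := by
    rw [hgM, hg]
    exact (hGi.separable.map).map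
  obtain ⟨s, hs⟩ : ∃ s : Finset M, s = gM.roots.toFinset := ⟨_, rfl⟩
  have hsval : s.val = gM.roots := by
    rw [hs, Multiset.toFinset_val]
    exact (Polynomial.nodup_roots hsep).dedup
  have hprod : ∏ t ∈ s, (Polynomial.X - Polynomial.C t) = gM := by
    rw [Finset.prod, hsval]
    exact (hgMs.eq_prod_roots_of_monic hgMm).symm
  have hcard : s.card = G.natDegree := by
    rw [Finset.card, hsval, ← hgMs.natDegree_eq_card_roots, hgM, Polynomial.natDegree_map, hgd]
  have hcν : s.card ≤ ν := hcard.le.trans hGν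
  have hsg : ∀ t' ∈ s, Polynomial.aeval t' g = 0 := by
    intro t' ht'
    rw [hs, Multiset.mem_toFinset, Polynomial.mem_roots hgMm.ne_zero] at ht'
    have h1 : Polynomial.eval t' gM = 0 := ht'
    rw [hgM, Polynomial.eval_map] at h1
    exact h1
  have hsG : ∀ t' ∈ s, Polynomial.aeval (t' : Ω) G = 0 := by
    intro t' ht'
    have h1 := congrArg (algebraMap M Ω) (hsg t' ht')
    rw [map_zero, Polynomial.aeval_def, Polynomial.hom_eval₂, hg, Polynomial.eval₂_map] at h1
    rw [Polynomial.aeval_def, ← hφc]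
    exact h1
  -- the conjugate points
  obtain ⟨q, hq⟩ : ∃ q : Fin (n + 1) → Polynomial L, ∀ j, q j = (Q j).map φ := ⟨_, fun _ => rfl⟩
  have hco : ∀ (t' : M) j, algebraMap M Ω (Polynomial.aeval t' (q j)) =
      Polynomial.aeval (t' : Ω) (Q j) := by
    intro t' j
    rw [Polynomial.aeval_def, Polynomial.hom_eval₂, hq, Polynomial.eval₂_map, Polynomial.aeval_def,
      ← hφc]
    rfl
  have hpt : ∀ t' ∈ s, (∀ j, hgt k (Polynomial.aeval t' (q j)) ≤ N * B0) ∧
      t' = ∑ j : Fin (n + 1), (u : M) ^ (j : ℕ) * Polynomial.aeval t' (q j) := by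
    intro t' ht'
    have hG' := hsG t' ht'
    obtain ⟨x', hx'⟩ : ∃ x' : Fin (n + 1) → M, ∀ j, x' j = Polynomial.aeval t' (q j) :=
      ⟨_, fun _ => rfl⟩
    have hxx : (fun j => algebraMap M Ω (x' j)) = fun j => Polynomial.aeval (t' : Ω) (Q j) := by
      funext j
      rw [hx', hco]
    have hxt : x = fun j => Polynomial.aeval t (Q j) := funext hx
    have hl0' : x' l0 = 1 := by
      apply (algebraMap M Ω).injective
      rw [map_one, hx', hco]
      have h1 := htr (Q l0 - 1) (by rw [map_sub, map_one, ← hx, hl0, sub_self]) t' hG'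
      rw [map_sub, map_one] at h1
      exact sub_eq_zero.1 h1
    have hpoly : ∀ (R : Type) [Field R] (ρ : R →+* E) (f : MvPolynomial (Fin (n + 1)) R) (w : Ω),
        Polynomial.aeval w (eval₂ (Polynomial.C.comp ρ) Q f) =
          eval₂ ((algebraMap E Ω).comp ρ) (fun j => Polynomial.aeval w (Q j)) f := by
      intro R _ ρ f w
      have h1 := hom_eval₂ f (Polynomial.C.comp ρ) ((Polynomial.aeval w).toRingHom :
        Polynomial E →+* Ω) Q
      refine h1.trans ?_
      congr 1
      ext r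
      change Polynomial.aeval w (Polynomial.C (ρ r)) = _
      rw [Polynomial.aeval_C]
      rfl
    have hV' : ∀ f ∈ V, eval₂ ((algebraMap L M).comp (φ.comp ι)) x' f = 0 := by
      intro f hf
      apply (algebraMap M Ω).injective
      rw [map_zero]
      have h1 := hom_eval₂ f ((algebraMap L M).comp (φ.comp ι)) (algebraMap M Ω) x'
      rw [h1, hxx]
      have h2 := htr (eval₂ (Polynomial.C.comp ι) Q f) (by
        rw [hpoly, ← hxt]; exact hxV f hf) t' hG'
      rw [hpoly, ← hφc] at h2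
      exact h2
    have hF' : ∀ a, eval x' (map (algebraMap L M) (map φ (FE a))) = 0 := by
      intro a
      apply (algebraMap M Ω).injective
      rw [map_zero, map_map, eval_map]
      have h1 := hom_eval₂ (FE a) ((algebraMap L M).comp φ) (algebraMap M Ω) x'
      rw [h1, hxx]
      have h2 := htr (eval₂ (Polynomial.C.comp (RingHom.id E)) Q (FE a)) (by
        rw [hpoly, ← hxt]; exact hxF a) t' hG'
      rw [hpoly, ← hφc] at h2
      exact h2
    have hsum : t' = ∑ j : Fin (n + 1), (u : M) ^ (j : ℕ) * x' j := by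
      apply (algebraMap M Ω).injective
      rw [map_sum]
      have h1 := htr (Polynomial.X - ∑ j : Fin (n + 1), (u : Polynomial E) ^ (j : ℕ) * Q j) (by
        rw [map_sub, Polynomial.aeval_X, map_sum, sub_eq_zero]
        conv_lhs => rw [htx]
        refine Finset.sum_congr rfl fun j _ => ?_
        rw [map_mul, map_pow, map_natCast, hx]) t' hG'
      rw [map_sub, Polynomial.aeval_X, map_sum, sub_eq_zero] at h1
      refine h1.trans (Finset.sum_congr rfl fun j _ => ?_)
      rw [map_mul, map_mul, map_pow, map_pow, map_natCast, map_natCast, hx', hco]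
    have hfm : ∀ j, x' j ∈ IntermediateField.adjoin L {t'} := by
      intro j
      rw [hx']
      exact IntermediateField.algebra_adjoin_le_adjoin L {t'}
        (Polynomial.aeval_mem_adjoin_singleton L t')
    have h1 := gal_ht hineq hdat Dh hDh hS (φ.comp ι) hDk hd hV g hgm (hgd.le.trans hGν) M t'
      (hsg t' ht') x' hfm l0 hl0' hV' hF'
    rw [← hN, ← hB0] at h1
    have h2 : (0 : ℤ) ≤ N * B0 := mul_nonneg (by positivity) hB0p
    refine ⟨fun j => ?_, ?_⟩
    · rw [← hx']
      exact hgt_coord_le hl0' h2 h1 j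
    · refine hsum.trans (Finset.sum_congr rfl fun j _ => ?_)
      rw [hx']
  obtain ⟨B, hB⟩ : ∃ B : ℤ, B = (n + 1) * (N * B0) := ⟨_, rfl⟩
  have hNB : (0 : ℤ) ≤ N * B0 := mul_nonneg (by positivity) hB0p
  have hBp : 0 ≤ B := by rw [hB]; exact mul_nonneg (by positivity) hNB
  have hNB' : N * B0 ≤ B := by
    rw [hB]
    nlinarith
  have hst : ∀ t' ∈ s, hgt k t' ≤ B := by
    intro t' ht'
    obtain ⟨h1, h2⟩ := hpt t' ht'
    rw [h2]
    refine (Pool.Agent.TH145.GH.hgt_sum_le _ _).trans ?_
    have h3 : ∀ j : Fin (n + 1), hgt k ((u : M) ^ (j : ℕ) * Polynomial.aeval t' (q j)) ≤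
        N * B0 := by
      intro j
      refine (Pool.Agent.TH145.MW.hgt_mul_le (k := k) _ _).trans ?_
      have h4 : (u : M) ^ (j : ℕ) = algebraMap k M ((u : k) ^ (j : ℕ)) := by
        rw [map_pow, map_natCast]
      rw [h4, Pool.Agent.TH145.MG.hgt_const, zero_add]
      exact h1 j
    refine (Finset.sum_le_sum fun j _ => h3 j).trans ?_
    rw [Finset.sum_const, Finset.card_univ, Fintype.card_fin, hB, nsmul_eq_mul]
    push_cast
    exact le_rfl
  obtain ⟨hA, hA'⟩ := hc k M s hcν B hBp hst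
  have hfinal : ∀ f : L, hgt k (algebraMap L M f) ≤ c * B → hgt k f ≤ c * ((n + 1) * B0) := by
    intro f hf
    rw [hhts', hB] at hf
    have h1 : (N : ℤ) * hgt k f ≤ N * (c * ((n + 1) * B0)) := by
      refine hf.trans (le_of_eq ?_)
      ring
    exact le_of_mul_le_mul_left h1 (by exact_mod_cast hNp)
  refine ⟨fun r => ?_, fun j r => ?_⟩
  · apply hfinal
    have h1 := hA r
    rw [hprod, hgM, Polynomial.coeff_map, hg, Polynomial.coeff_map] at h1
    exact h1
  · apply hfinal
    have h1 := hA' ((q j).map (algebraMap L M)) ?_ ?_ r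
    · rw [Polynomial.coeff_map, hq, Polynomial.coeff_map] at h1
      exact h1
    · rw [Polynomial.degree_map, hq, Polynomial.degree_map, hcard]
      exact hQd j
    · intro t' ht'
      rw [Polynomial.eval_map]
      exact ((hpt t' ht').1 j).trans hNB'

set_option maxHeartbeats 4000000 in
set_option synthInstance.maxHeartbeats 400000 in
theorem eht : S_INEQ → S_HTS → S_LAG → S_EHT := by
  intro hineq hhts hlag k0 K ι _ _ _ _ _ y E n m ν u A _ dg hy _ F DE hG D hDE hDk hDy hd V hV l0 i
  classical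
  obtain ⟨c, hc⟩ := hlag ν
  have hFF : IsFF (kap k0 y i) (LL k0 y (E : Set K) i) := LL_ff E hy i
  have hac : IsAlgClosed (kap k0 y i) := acl_isAlgClosed _
  have hcz : CharZero (kap k0 y i) := charZero_of_injective_algebraMap
    (algebraMap ℚ (kap k0 y i)).injective
  obtain ⟨φ, D', e, hφ, hD', hdat⟩ :=
    Pool.Agent.TH145.GC.exists_data_L E hy hG D hDE hDk hDy i
  let σ : E.toSubfield →+* E :=
    { toFun := fun x => ⟨x, x.2⟩
      map_one' := rfl
      map_mul' := fun _ _ => rfl
      map_zero' := rfl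
      map_add' := fun _ _ => rfl }
  let τ : E →+* LL k0 y (E : Set K) i :=
    { toFun := fun x => ⟨x, subset_LL y _ i x.2⟩
      map_one' := rfl
      map_mul' := fun _ _ => rfl
      map_zero' := rfl
      map_add' := fun _ _ => rfl }
  let ι0 : k0 →+* E := (algebraMap (IntermediateField.adjoin k0 (Set.range y)) E).comp
    (algebraMap k0 (IntermediateField.adjoin k0 (Set.range y)))
  have hστ : τ.comp σ = φ := by
    ext x
    exact (hφ x).symm
  have hSem : ∀ a I, Sem (kap k0 y i) (D' a I) := by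
    intro a I c
    refine ⟨⟨_, der_kap (D a I) (hDk a I) (hDy a I) i c.2⟩, ?_⟩
    apply Subtype.ext
    rw [hD']
    rfl
  have hdat' : Data (kap k0 y i) (fun a => map τ (map σ (F a))) dg D' e := by
    have h1 : (fun a => map τ (map σ (F a))) = fun a => map φ (F a) := by
      funext a
      rw [map_map, hστ]
    rw [h1]
    exact hdat
  refine ⟨c * ((n + 1) * ∑ᶠ P, e P * hgt (kap k0 y i) (unif P)), ?_⟩
  intro t G Q hGm hGi hGν hGt hQd x hx hl0 htx hxV hxF
  exact ht_core hineq hhts τ (fun _ => rfl) ι0 hc hdat' D (fun a I f => (hD' a I f).symm) hSem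
    (fun a I r => by
      apply Subtype.ext
      rw [hD']
      exact hDk a I r) hd hV t G Q hGm hGi hGν hGt hQd x hx l0 hl0 htx hxV (fun a => by
      rw [eval₂_map]
      have h1 := hxF a
      rw [eval_map] at h1
      exact h1)

end Pool.Agent.Helper53K9.BD
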