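import Pool.Agent.Helper53K9.BD.All

/-!
# Finiteness of the points of bounded degree
-/

set_option autoImplicit false

open MvPolynomial FF Pool.Agent.W603.LV Pool.Agent.W603.PV Pool.Agent.W602.RG Pool.Agent.TH145.GH
open Pool.Agent.TH145.GC (Data Gen Full Cf Rt exists_all exists_big indep_scale)

namespace Pool.Agent.Helper53K9.BD

section limit

variable {K E : Type} [Field K] [Field E] [Algebra E K]

/-- The limit of a sequence of polynomials of bounded degree. -/
noncomputable def PL (P : ℕ → Polynomial E) (N : ℕ) : Polynomial (Om K) :=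
  ∑ r ∈ Finset.range (N + 1), Polynomial.monomial r
    (Pool.Agent.TH145.MF.mkHom K fun n => algebraMap E K ((P n).coeff r))

theorem coeff_PL (P : ℕ → Polynomial E) {N : ℕ} (h : ∀ n, (P n).natDegree ≤ N) (r : ℕ) :
    (PL (K := K) P N).coeff r =
      Pool.Agent.TH145.MF.mkHom K fun n => algebraMap E K ((P n).coeff r) := by
  classical
  unfold PL
  rw [Polynomial.finsetSum_coeff]
  by_cases hr : r < N + 1
  · rw [Finset.sum_eq_single r]
    · rw [Polynomial.coeff_monomial, if_pos rfl]
    · intro b _ hb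
      rw [Polynomial.coeff_monomial, if_neg hb]
    · intro h1
      exact absurd (Finset.mem_range.2 hr) h1
  · rw [Finset.sum_eq_zero]
    · have h1 : (fun n => algebraMap E K ((P n).coeff r)) = 0 := by
        funext n
        rw [Polynomial.coeff_eq_zero_of_natDegree_lt (lt_of_le_of_lt (h n) (by omega)), map_zero]
        rfl
      rw [h1, map_zero]
    · intro b hb
      rw [Polynomial.coeff_monomial, if_neg]
      rintro rfl
      exact hr (Finset.mem_range.1 hb)

theorem natDegree_PL (P : ℕ → Polynomial E) (N : ℕ) : (PL (K := K) P N).natDegree ≤ N := by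
  unfold PL
  refine Polynomial.natDegree_sum_le_of_forall_le _ _ fun r hr => ?_
  exact (Polynomial.natDegree_monomial_le _).trans (by
    have := Finset.mem_range.1 hr
    omega)

theorem eval_PL (P : ℕ → Polynomial E) {N : ℕ} (h : ∀ n, (P n).natDegree ≤ N) (t : ℕ → K) :
    (PL (K := K) P N).eval (Pool.Agent.TH145.MF.mkHom K t) =
      Pool.Agent.TH145.MF.mkHom K fun n => Polynomial.aeval (t n) (P n) := by
  unfold PL
  rw [Polynomial.eval_finsetSum]
  have h1 : (fun n => Polynomial.aeval (t n) (P n)) =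
      ∑ r ∈ Finset.range (N + 1), (fun n => algebraMap E K ((P n).coeff r)) * t ^ r := by
    funext n
    rw [Finset.sum_apply, Polynomial.aeval_eq_sum_range' (Nat.lt_succ_of_le (h n))]
    refine Finset.sum_congr rfl fun r _ => ?_
    rw [Algebra.smul_def]
    rfl
  rw [h1, map_sum]
  refine Finset.sum_congr rfl fun r _ => ?_
  rw [Polynomial.eval_monomial, map_mul, map_pow]

end limit

/-- A point of degree at most `ν` has a primitive element of bounded shape. -/
theorem exists_prim {E K : Type} [Field E] [Field K] [Algebra E K] [CharZero K] [IsAlgClosed K]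
    {n ν : ℕ} (x : Fin (n + 1) → K) (U : IntermediateField E K) (hUf : FiniteDimensional E U)
    (hU : Module.finrank E U ≤ ν) (hxU : ∀ j, x j ∈ U) :
    ∃ (u : ℕ) (t : K) (G : Polynomial E) (Q : Fin (n + 1) → Polynomial E),
      u ≤ (n + 1) * ν * ν ∧ G.natDegree ≤ ν ∧
      G.Monic ∧ Irreducible G ∧ Polynomial.aeval t G = 0 ∧
      (∀ j, (Q j).degree < G.natDegree) ∧ (∀ j, x j = Polynomial.aeval t (Q j)) ∧
      t = ∑ j : Fin (n + 1), (u : K) ^ (j : ℕ) * x j := by
  obtain ⟨u, hu, hxu⟩ := prim E K n ν x U hUf hU hxU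
  obtain ⟨t, ht⟩ : ∃ t : K, t = ∑ i : Fin (n + 1), (u : K) ^ (i : ℕ) * x i := ⟨_, rfl⟩
  rw [← ht] at hxu
  have htU : t ∈ U := by
    rw [ht]
    exact sum_mem fun i _ => mul_mem (pow_mem (natCast_mem U u) _) (hxU i)
  have hti : IsIntegral E t := by
    have h2 : IsIntegral E (⟨t, htU⟩ : U) := Algebra.IsIntegral.isIntegral _
    exact h2.map U.val
  have hdeg : (minpoly E t).natDegree ≤ ν := by
    rw [← IntermediateField.adjoin.finrank hti]
    refine le_trans ?_ hU
    have h2 : IntermediateField.adjoin E {t} ≤ U := by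
      rw [IntermediateField.adjoin_simple_le_iff]
      exact htU
    exact LinearMap.finrank_le_finrank_of_injective
      (f := (IntermediateField.inclusion h2).toLinearMap) (IntermediateField.inclusion_injective h2)
  have hQ : ∀ j, ∃ q : Polynomial E, q.degree < (minpoly E t).natDegree ∧
      x j = Polynomial.aeval t q := by
    intro j
    have h2 : x j ∈ (IntermediateField.adjoin E {t}).toSubalgebra := hxu j
    rw [IntermediateField.adjoin_simple_toSubalgebra_of_isAlgebraic hti.isAlgebraic,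
      Algebra.adjoin_singleton_eq_range_aeval] at h2
    obtain ⟨p, hp⟩ := h2
    refine ⟨p %ₘ minpoly E t, ?_, ?_⟩
    · rw [← Polynomial.degree_eq_natDegree (minpoly.ne_zero hti)]
      exact Polynomial.degree_modByMonic_lt _ (minpoly.monic hti)
    · rw [Polynomial.aeval_modByMonic_eq_self_of_root (minpoly.aeval E t)]
      exact hp.symm
  choose Q hQd hQx using hQ
  exact ⟨u, t, minpoly E t, Q, hu, hdeg, minpoly.monic hti, minpoly.irreducible hti,
    minpoly.aeval E t, hQd, hQx, ht⟩

variable {k0 K ι : Type} [Field k0] [Field K] [Algebra k0 K] [IsAlgClosed K] [CharZero K]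
  {y : ι → K} (E : IntermediateField (IntermediateField.adjoin k0 (Set.range y)) K)

/-- Finiteness of the points with a primitive element of given shape. -/
theorem fin_prim {n m ν : ℕ} {A : Type} [Fintype A] {dg : A → ℕ} [IsAlgClosed k0] [Finite ι]
    (hy : IsTranscendenceBasis k0 y)
    [FiniteDimensional (IntermediateField.adjoin k0 (Set.range y)) E]
    [IsGalois (IntermediateField.adjoin k0 (Set.range y)) E]
    {F : A → MvPolynomial (Fin (n + 1)) E.toSubfield}
    {DE : A → (Fin (n + 1) →₀ ℕ) → E.toSubfield → E.toSubfield}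
    (hG : Gen F dg DE)
    (D : A → (Fin (n + 1) →₀ ℕ) → Derivation ℤ K K)
    (hDE : ∀ a I (x : E.toSubfield), D a I x = (DE a I x : K))
    (hDk : ∀ a I (r : k0), D a I (algebraMap k0 K r) = 0)
    (hDy : ∀ a I j, ∃ r : k0, D a I (y j) = algebraMap k0 K r)
    (hd : 2 * m + 2 * ν ≤ ∑ a, (dg a + 1))
    (V : Set (MvPolynomial (Fin (n + 1)) k0)) (hV : Pool.Agent.TH145.MG.DimLE k0 V m)
    (l0 : Fin (n + 1)) (g u : ℕ) (hg : g ≤ ν) :
    {x : Fin (n + 1) → K | (∃ (t : K) (G : Polynomial E) (Q : Fin (n + 1) → Polynomial E),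
      G.Monic ∧ Irreducible G ∧ G.natDegree = g ∧ Polynomial.aeval t G = 0 ∧
      (∀ j, (Q j).degree < G.natDegree) ∧ (∀ j, x j = Polynomial.aeval t (Q j)) ∧
      t = ∑ j : Fin (n + 1), (u : K) ^ (j : ℕ) * x j) ∧ x l0 = 1 ∧
      (∀ f ∈ V, eval₂ (algebraMap k0 K) x f = 0) ∧
      ∀ a, eval x (map E.toSubfield.subtype (F a)) = 0}.Finite := by
  classical
  by_contra hinf
  let f := Set.Infinite.natEmbedding _ hinf
  obtain ⟨x, hx⟩ : ∃ x : ℕ → Fin (n + 1) → K, ∀ n, x n = (f n).1 := ⟨_, fun _ => rfl⟩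
  have hxinj : Function.Injective x := by
    intro a b hab
    rw [hx, hx] at hab
    exact f.injective (Subtype.ext hab)
  have hprop : ∀ N, (∃ (t : K) (G : Polynomial E) (Q : Fin (n + 1) → Polynomial E),
      G.Monic ∧ Irreducible G ∧ G.natDegree = g ∧ Polynomial.aeval t G = 0 ∧
      (∀ j, (Q j).degree < G.natDegree) ∧ (∀ j, x N j = Polynomial.aeval t (Q j)) ∧
      t = ∑ j : Fin (n + 1), (u : K) ^ (j : ℕ) * x N j) ∧ x N l0 = 1 ∧
      (∀ f ∈ V, eval₂ (algebraMap k0 K) (x N) f = 0) ∧
      ∀ a, eval (x N) (map E.toSubfield.subtype (F a)) = 0 := fun N => by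
    rw [hx]
    exact (f N).2
  choose hpr hxl hxV hxF using hprop
  choose t G Q hGm hGi hGd hGt hQd hxQ htx using hpr
  choose B hB using fun i => eht_all k0 K ι y E n m ν u A dg hy.1 F DE hG D hDE hDk hDy hd V hV l0 i
  have hB' := fun N i => hB i (t N) (G N) (Q N) (hGm N) (hGi N) (by rw [hGd]; exact hg) (hGt N)
    (hQd N) (x N) (hxQ N) (hxl N) (htx N) (hxV N) (hxF N)
  have hQn : ∀ N j, (Q N j).natDegree ≤ g := by
    intro N j
    have h1 := Polynomial.natDegree_le_of_degree_le (hQd N j).le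
    rwa [hGd] at h1
  have hGO : ∀ r, (PL (K := K) G g).coeff r ∈ OE k0 ((E.toSubfield : Subfield K) : Set K) := by
    intro r
    rw [coeff_PL G (fun N => (hGd N).le)]
    exact lim_mem E hy (fun N => (G N).coeff r) B fun N i => (hB' N i).1 r
  have hQO : ∀ j r, (PL (K := K) (fun N => Q N j) g).coeff r ∈
      OE k0 ((E.toSubfield : Subfield K) : Set K) := by
    intro j r
    rw [coeff_PL (fun N => Q N j) (fun N => hQn N j)]
    exact lim_mem E hy (fun N => (Q N j).coeff r) B fun N i => (hB' N i).2 j r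
  have hmon : (PL (K := K) G g).Monic := by
    refine Polynomial.monic_of_natDegree_le_of_coeff_eq_one g (natDegree_PL G g) ?_
    rw [coeff_PL G (fun N => (hGd N).le)]
    have h1 : (fun N => algebraMap E K ((G N).coeff g)) = 1 := by
      funext N
      have h2 : (G N).coeff g = 1 := by
        rw [← hGd N]
        exact hGm N
      rw [h2, map_one]
      rfl
    rw [h1, map_one]
  have hz : ∀ j, (Om.mk fun N => x N j) =
      (PL (K := K) (fun N => Q N j) g).eval (Pool.Agent.TH145.MF.mkHom K t) := by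
    intro j
    rw [eval_PL (fun N => Q N j) (fun N => hQn N j)]
    exact congrArg Om.mk (funext fun N => hxQ N j)
  have hev : ∀ a, eval (fun j => Om.mk fun N => x N j)
      (map ((cst K).comp E.toSubfield.subtype) (F a)) =
      Om.mk fun N => eval (x N) (map E.toSubfield.subtype (F a)) := fun a => eval_mk (F a) x
  have hacl := lim3_all k0 K n m ν A dg E.toSubfield (fun r => k0_mem E r) F DE hG D hDE hDk hd V hV
    (Pool.Agent.TH145.MF.mkHom K t) (PL G g) (fun j => PL (fun N => Q N j) g) hmon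
    ((natDegree_PL G g).trans hg) (by
      rw [eval_PL G (fun N => (hGd N).le)]
      have h1 : (fun N => Polynomial.aeval (t N) (G N)) = 0 := by
        funext N
        rw [hGt N]
        rfl
      rw [h1, map_zero]) hGO hQO (fun j => Om.mk fun N => x N j) hz l0 (by
      have h1 : (fun N => x N l0) = fun _ => 1 := funext hxl
      rw [h1]; rfl) (fun f hf => by
      have h1 := Pool.Agent.TH145.MG.eval_mk x (map (algebraMap k0 K) f)
      have h2 : (fun N => eval (x N) (map (algebraMap k0 K) f)) = fun _ => 0 := by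
        funext N
        rw [eval_map]
        exact hxV N f hf
      rw [h2] at h1
      have h3 : eval₂ (cst K) (fun j => Om.mk fun N => x N j) (map (algebraMap k0 K) f) = 0 := h1
      rwa [eval₂_map] at h3) (fun a => by
      rw [hev]
      have h1 : (fun N => eval (x N) (map E.toSubfield.subtype (F a))) = fun _ => 0 :=
        funext fun N => hxF N a
      rw [h1]; rfl)
  choose a ha using fun j => eventually_const (hacl j)
  exact not_all_const hxinj a ha

/-- Finiteness of the points of degree at most `ν` over `E`. -/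
theorem fin_deg {n m ν : ℕ} {A : Type} [Fintype A] {dg : A → ℕ} [IsAlgClosed k0] [Finite ι]
    (hy : IsTranscendenceBasis k0 y)
    [FiniteDimensional (IntermediateField.adjoin k0 (Set.range y)) E]
    [IsGalois (IntermediateField.adjoin k0 (Set.range y)) E]
    {F : A → MvPolynomial (Fin (n + 1)) E.toSubfield}
    {DE : A → (Fin (n + 1) →₀ ℕ) → E.toSubfield → E.toSubfield}
    (hG : Gen F dg DE)
    (D : A → (Fin (n + 1) →₀ ℕ) → Derivation ℤ K K)
    (hDE : ∀ a I (x : E.toSubfield), D a I x = (DE a I x : K))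
    (hDk : ∀ a I (r : k0), D a I (algebraMap k0 K r) = 0)
    (hDy : ∀ a I j, ∃ r : k0, D a I (y j) = algebraMap k0 K r)
    (hd : 2 * m + 2 * ν ≤ ∑ a, (dg a + 1))
    (V : Set (MvPolynomial (Fin (n + 1)) k0)) (hV : Pool.Agent.TH145.MG.DimLE k0 V m)
    (l0 : Fin (n + 1)) :
    {x : Fin (n + 1) → K | (∃ U : IntermediateField E K, FiniteDimensional E U ∧
      Module.finrank E U ≤ ν ∧ ∀ j, x j ∈ U) ∧ x l0 = 1 ∧
      (∀ f ∈ V, eval₂ (algebraMap k0 K) x f = 0) ∧
      ∀ a, eval x (map E.toSubfield.subtype (F a)) = 0}.Finite := by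
  classical
  have h1 : (⋃ g ∈ Set.Iic ν, ⋃ u ∈ Set.Iic ((n + 1) * ν * ν),
      {x : Fin (n + 1) → K | (∃ (t : K) (G : Polynomial E) (Q : Fin (n + 1) → Polynomial E),
      G.Monic ∧ Irreducible G ∧ G.natDegree = g ∧ Polynomial.aeval t G = 0 ∧
      (∀ j, (Q j).degree < G.natDegree) ∧ (∀ j, x j = Polynomial.aeval t (Q j)) ∧
      t = ∑ j : Fin (n + 1), (u : K) ^ (j : ℕ) * x j) ∧ x l0 = 1 ∧
      (∀ f ∈ V, eval₂ (algebraMap k0 K) x f = 0) ∧
      ∀ a, eval x (map E.toSubfield.subtype (F a)) = 0}).Finite :=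
    (Set.finite_Iic ν).biUnion fun g hg => (Set.finite_Iic _).biUnion fun u _ =>
      fin_prim E hy hG D hDE hDk hDy hd V hV l0 g u hg
  refine h1.subset ?_
  rintro x ⟨⟨U, hUf, hU, hxU⟩, hxl, hxV, hxF⟩
  obtain ⟨u, t, G, Q, hu, hdeg, h2, h3, h4, h5, h6, h7⟩ := exists_prim x U hUf hU hxU
  exact Set.mem_biUnion (x := G.natDegree) hdeg (Set.mem_biUnion (x := u) hu
    ⟨⟨t, G, Q, h2, h3, rfl, h4, h5, h6, h7⟩, hxl, hxV, hxF⟩)

end Pool.Agent.Helper53K9.BD
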