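import Pool.Agent.Helper53K9.BD.Stm

/-!
The height inequality in the splitting field of a polynomial.
-/

set_option autoImplicit false

open MvPolynomial FF Pool.Agent.W603.LV Pool.Agent.W603.PV Pool.Agent.W602.RG Pool.Agent.TH145.GH
open Pool.Agent.TH145.GC (Data Gen Full Cf)

namespace Pool.Agent.Helper53K9.BD

/-- The restriction of a derivation to an intermediate field it preserves. -/
noncomputable def resD {L Ω : Type} [Field L] [Field Ω] [Algebra L Ω] (M : IntermediateField L Ω)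
    (D : Derivation ℤ Ω Ω) (hD : ∀ x ∈ M, D x ∈ M) : Derivation ℤ M M where
  toFun x := ⟨D x, hD x x.2⟩
  map_add' x y := by
    apply Subtype.ext
    exact map_add D (x : Ω) y
  map_smul' n x := by
    apply Subtype.ext
    change D ((n • x : M) : Ω) = ((RingHom.id ℤ n) • (⟨D x, hD x x.2⟩ : M) : M)
    push_cast
    rw [map_zsmul]
    rfl
  map_one_eq_zero' := by
    apply Subtype.ext
    exact D.map_one_eq_zero
  leibniz' x y := by
    apply Subtype.ext
    exact D.leibniz (x : Ω) y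

theorem resD_coe {L Ω : Type} [Field L] [Field Ω] [Algebra L Ω] (M : IntermediateField L Ω)
    (D : Derivation ℤ Ω Ω) (hD : ∀ x ∈ M, D x ∈ M) (x : M) : ((resD M D hD x : M) : Ω) = D x := rfl

/-- A derivation that preserves the base field preserves algebraic extensions. -/
theorem der_mem {L Ω : Type} [Field L] [Field Ω] [CharZero Ω] [Algebra L Ω]
    (M : IntermediateField L Ω) [FiniteDimensional L M] (D : Derivation ℤ Ω Ω)
    (hD : ∀ f : L, ∃ g : L, D (algebraMap L Ω f) = algebraMap L Ω g) {x : Ω} (hx : x ∈ M) :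
    D x ∈ M := by
  refine (isDer_top D).mem_of_alg M.toSubfield trivial hx ?_
  have h1 : IsAlgebraic L x := by
    have h2 : IsAlgebraic L (⟨x, hx⟩ : M) := Algebra.IsAlgebraic.isAlgebraic _
    exact (h2.algebraMap : IsAlgebraic L (algebraMap M Ω ⟨x, hx⟩))
  obtain ⟨p, hp, hpx⟩ := h1
  have hm : ∀ f : L, algebraMap L Ω f ∈ (isDer_top D).sub M.toSubfield := by
    intro f
    obtain ⟨g, hg⟩ := hD f
    exact ⟨trivial, M.algebraMap_mem f, by rw [hg]; exact M.algebraMap_mem g⟩
  let φ : L →+* (isDer_top D).sub M.toSubfield := (algebraMap L Ω).codRestrict _ hm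
  refine ⟨p.map φ, (Polynomial.map_ne_zero_iff φ.injective).2 hp, ?_⟩
  rw [Polynomial.aeval_def, Polynomial.eval₂_map]
  exact hpx

theorem gal_ht (hineq : S_INEQ) {k0 k L Ω : Type} [Field k0] [Field k] [Field L] [Field Ω]
    [Algebra k L] [Algebra L Ω] [Algebra k Ω] [IsScalarTower k L Ω] [IsAlgClosed k] [CharZero k]
    [CharZero Ω] [IsFF k L]
    {n m ν : ℕ} {A : Type} [Fintype A] {dg : A → ℕ} {F : A → MvPolynomial (Fin (n + 1)) L}
    {D : A → (Fin (n + 1) →₀ ℕ) → Derivation ℤ L L} {e : Place k L → ℤ} (hdat : Data k F dg D e)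
    (Dh : A → (Fin (n + 1) →₀ ℕ) → Derivation ℤ Ω Ω)
    (hDh : ∀ a I f, Dh a I (algebraMap L Ω f) = algebraMap L Ω (D a I f))
    (hS : ∀ a I, Sem k (D a I)) (ψ : k0 →+* L) (hDk : ∀ a I r, D a I (ψ r) = 0)
    (hd : 2 * m + 2 * ν ≤ ∑ a, (dg a + 1)) {V : Set (MvPolynomial (Fin (n + 1)) k0)}
    (hV : Pool.Agent.TH145.MG.DimLE k0 V m) (G : Polynomial L) (hG : G.Monic)
    (hGν : G.natDegree ≤ ν) (M : IntermediateField L Ω) [FiniteDimensional L M] [IsGalois L M]
    (t : M) (ht : Polynomial.aeval t G = 0) (x : Fin (n + 1) → M)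
    (hx : ∀ j, x j ∈ IntermediateField.adjoin L {t})
    (l0 : Fin (n + 1)) (hl0 : x l0 = 1)
    (hxV : ∀ f ∈ V, eval₂ ((algebraMap L M).comp ψ) x f = 0)
    (hxF : ∀ a, eval x (map (algebraMap L M) (F a)) = 0) :
    pht k x ≤ Module.finrank L M * ∑ᶠ Q, e Q * hgt k (unif Q) := by
  have hM : ∀ a I, ∀ x ∈ M, Dh a I x ∈ M := fun a I x hx =>
    der_mem M (Dh a I) (fun f => ⟨D a I f, hDh a I f⟩) hx
  have hFF : IsFF k M := Pool.Agent.W603.PV.isFF_of_finite (F := L)
  have hczM : CharZero M := charZero_of_injective_algebraMap (algebraMap k M).injective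
  have hDD : ∀ a I f, resD M (Dh a I) (hM a I) (algebraMap L M f) = algebraMap L M (D a I f) := by
    intro a I f
    apply Subtype.ext
    exact hDh a I f
  have hx0 : x ≠ 0 := by
    intro h0
    rw [h0] at hl0
    exact zero_ne_one hl0
  refine hineq k L M n m ν A dg F D e hdat (fun a I => resD M (Dh a I) (hM a I)) (fun a I c => ?_)
    hDD hd (IntermediateField.adjoin L {t}) ?_ x l0 hl0 hx hxF ?_
  · obtain ⟨c', hc'⟩ := hS a I c
    refine ⟨c', ?_⟩
    have h1 := hDD a I (algebraMap k L c)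
    rw [hc'] at h1
    rw [IsScalarTower.algebraMap_apply k L M, IsScalarTower.algebraMap_apply k L M]
    exact h1
  · have hint : IsIntegral L t := ⟨G, hG, ht⟩
    rw [IntermediateField.adjoin.finrank hint]
    refine (Polynomial.natDegree_le_of_dvd (minpoly.dvd L t ht) hG.ne_zero).trans hGν
  · let _ : Algebra k0 M := ((algebraMap L M).comp ψ).toAlgebra
    refine Pool.Agent.TH145.GC.rank_le (k0 := k0) (fun a I r => ?_) hl0 ?_
    · change resD M (Dh a I) (hM a I) (algebraMap L M (ψ r)) = 0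
      rw [hDD, hDk, map_zero]
    · exact hV M x hx0 fun f hf => hxV f hf

end Pool.Agent.Helper53K9.BD
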