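import Pool.Agent.Helper53K9.BD.Stm

/-!
# The height inequality for points of bounded degree
-/

set_option autoImplicit false

open MvPolynomial FF Pool.Agent.W603.LV Pool.Agent.W603.PV Pool.Agent.W602.RG Pool.Agent.TH145.GH
open Pool.Agent.TH145.GC (Data Gen Full Cf finite_cf exists_rows exists_minor mx vv wv tv Ev rd Ti)

namespace Pool.Agent.Helper53K9.BD

open scoped Classical in
/-- The height inequality for points of degree at most `ν`. -/
theorem ineq (hSUMQ : S_SUMQ) (hATP : S_ATP) (hLOC : S_LOC) (hGP : S_GP) (hDETL : S_DETL)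
    (hWSUM : S_WSUM) : S_INEQ := by
  intro k L M _ _ _ _ _ _ _ _ _ _ _ _ _ n m ν A _ dg F D e hdat D' hS hD' hd U hU x l0 hl0 hxU
    hxF hrk
  choose s δ hsδ using fun P : Place k M => hATP k L M P
  obtain ⟨ρ, hρ0, hρf, hρs, hρ⟩ := hGP k L M s δ hsδ n ν U hU x l0 hl0 hxU
  obtain ⟨e', he0, hef, hel, hes⟩ := hSUMQ k L M e hdat.e_nonneg hdat.fin
  have hx0 : x ≠ 0 := by
    rintro rfl
    exact zero_ne_one hl0
  have hxl0 : x l0 ≠ 0 := by rw [hl0]; exact one_ne_zero
  -- some data on `M`
  have hfcf := finite_cf n dg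
  obtain ⟨eM, heM0, heMf, heM⟩ := exists_loss_fin (k := k) (K := M)
    (ι := Cf n dg) (D := fun p => D' p.1 p.2.1) (fun p => hS p.1 p.2.1)
  have hdatM : Data k (fun a => map (algebraMap L M) (F a)) dg D' eM := by
    refine ⟨fun a => (hdat.hom a).map _, fun a b I J hI hJ => ?_, heM0,
      fun P f hf a I hI => heM P f hf ⟨a, I, hI⟩, heMf⟩
    rw [coeff_map, hD']
    exact ⟨fun hab hIJ => by rw [(hdat.dual a b I J hI hJ).1 hab hIJ, map_one],
      fun hIJ => by rw [(hdat.dual a b I J hI hJ).2 hIJ, map_zero]⟩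
  obtain ⟨b, hb0, hbC, hbi, hspan, hcard⟩ := exists_rows hdatM.hom hdatM.dual hxl0
    (C := Finset.univ) (fun a _ => hxF a)
  have hbC' : ∀ a : A, Sum.inr a ∈ b := fun a => hbC a (Finset.mem_univ a)
  obtain ⟨σ, hσ⟩ := exists_minor _ hbi
  have hdet : (mx dg D' x (fun a => Finsupp.single l0 (dg a)) b σ).det ≠ 0 := by
    unfold mx
    convert hσ
  have hrd : ∑ i ∈ b, rd i + Fintype.card A + 1 ≤ 2 * b.card := by
    obtain ⟨b', hb'⟩ : ∃ b' : Finset (Option (Ti n A) ⊕ A), b' = insert (Sum.inl none)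
      (Finset.univ.image Sum.inr) := ⟨_, rfl⟩
    have h1 : b' ⊆ b := by
      rw [hb']
      intro i hi
      rcases Finset.mem_insert.1 hi with rfl | hi
      · exact hb0
      · obtain ⟨a, ha, rfl⟩ := Finset.mem_image.1 hi
        exact hbC' a
    have h2 : b'.card = Fintype.card A + 1 := by
      rw [hb', Finset.card_insert_of_notMem (by simp), Finset.card_image_of_injective _
        Sum.inr_injective, Finset.card_univ]
    have h3 : ∑ i ∈ b', rd i = b'.card := by
      rw [Finset.card_eq_sum_ones]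
      refine Finset.sum_congr rfl fun i hi => ?_
      rw [hb'] at hi
      rcases Finset.mem_insert.1 hi with rfl | hi
      · rfl
      · obtain ⟨a, ha, rfl⟩ := Finset.mem_image.1 hi
        rfl
    have h4 : ∑ i ∈ b \ b', rd i ≤ 2 * (b \ b').card := by
      rw [mul_comm, ← smul_eq_mul, ← Finset.sum_const]
      refine Finset.sum_le_sum fun i _ => ?_
      rcases i with (_ | _) | _
      · exact one_le_two
      · exact le_rfl
      · exact one_le_two
    have h5 := Finset.sum_sdiff (f := fun i => rd i) h1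
    have h6 := Finset.card_sdiff_add_card_eq_card h1
    omega
  have hpht : 0 ≤ pht k x :=
    (hgt_nonneg _).trans (Pool.Agent.W603.CX.hgt_le_pht (k := k) x hxl0 hxl0)
  obtain ⟨Θ, hΘ⟩ : ∃ Θ, Θ = (mx dg D' x (fun a => Finsupp.single l0 (dg a)) b σ).det /
        (∏ a, if Sum.inr a ∈ b then x l0 ^ dg a else
          eval x (map (algebraMap L M) (F a))) := ⟨_, rfl⟩
  obtain ⟨a0, ha0⟩ : ∃ a0 : ℤ, a0 = (∑ a, dg a : ℕ) - (∑ i ∈ b, rd i : ℕ) := ⟨_, rfl⟩
  have hfin : {P : Place k M | e' P + ρ P ≠ 0}.Finite := by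
    refine (hef.union hρf).subset fun P hP => ?_
    by_contra hcon
    rw [Set.mem_union, not_or] at hcon
    have h1 : ¬ (e' P ≠ 0) := hcon.1
    have h2 : ¬ (ρ P ≠ 0) := hcon.2
    apply hP
    omega
  have hmain : a0 * pht k x ≤ ∑ᶠ P, (e' P + ρ P) := by
    refine hWSUM k M n x hx0 Θ a0 (fun P => e' P + ρ P) hfin fun P => ?_
    obtain ⟨lam, x', e1, hlam, hlamP, hxx, hx', he1, -, hdet', hq0, hord⟩ :=
      Pool.Agent.Helper53K9.AB.ord_scaled hdatM P hxl0 hb0 σ hspan hdet
        (fun a ha => absurd (hbC' a) ha)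
    have hdeg : ∀ a, (Finsupp.single e1 (dg a)).degree = dg a := fun a =>
      Finsupp.degree_single _ _
    -- the derivatives of `s`
    have hs0 : Ge P 0 (algebraMap L M (s P)) := Or.inr (hsδ P).pos.le
    have hDs : ∀ a, ∀ I : Fin (n + 1) →₀ ℕ, I.degree = dg a →
        Ge P (-e' P) (D' a I (algebraMap L M (s P))) := fun a I hI => by
      rw [hD']
      exact hel P _ _ hs0 fun Q hQ => hdat.loss Q _ hQ a I hI
    have hDu : ∀ a, ∀ I : Fin (n + 1) →₀ ℕ, ∀ l,
        Ge P 0 (D' a I (x' l) - D' a I (algebraMap L M (s P)) * δ P (x' l)) := fun a I l =>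
      hLOC k L M P (s P) (δ P) (hsδ P) (D' a I) (hS a I) (x' l) (hx' l)
    obtain ⟨α, hα⟩ : ∃ α : Option (Ti n A) ⊕ A → M, ∀ i, α i = match i with
      | Sum.inl none => 0
      | Sum.inl (some t) => if t.2.1.degree + 1 = dg t.1 then
          x' t.2.2.2 * D' t.1 (t.2.1 + Finsupp.single t.2.2.1 1) (algebraMap L M (s P)) -
          x' t.2.2.1 * D' t.1 (t.2.1 + Finsupp.single t.2.2.2 1) (algebraMap L M (s P)) else 0
      | Sum.inr a => D' a (Finsupp.single e1 (dg a)) (algebraMap L M (s P)) := ⟨_, fun _ => rfl⟩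
    have hge : Ge P (-(e' P + ρ P))
        (mx dg D' x' (fun a => Finsupp.single e1 (dg a)) b σ).det := by
      have h1 := hDETL k M P b (fun i => α i) (fun j => δ P (x' (σ j)))
        (fun i j => vv dg D' x' (fun a => Finsupp.single e1 (dg a)) i (σ j) -
          α i * δ P (x' (σ j))) (e' P) (ρ P) (he0 P) (hρ0 P) ?_ ?_ ?_
      · have h2 : (Matrix.of fun (i j : b) => α i * δ P (x' (σ j)) +
            (vv dg D' x' (fun a => Finsupp.single e1 (dg a)) i (σ j) -
              α i * δ P (x' (σ j)))) = mx dg D' x' (fun a => Finsupp.single e1 (dg a)) b σ := by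
          ext i j
          rw [Matrix.of_apply, add_sub_cancel]
          rfl
        rw [h2] at h1
        convert h1
      · rintro ⟨i, -⟩
        rw [hα]
        have he0P := he0 P
        rcases i with (_ | t) | a
        · exact Ge.zero
        · dsimp only
          split_ifs with ht
          · refine Ge.mono (by omega : -e' P ≤ 0 + -e' P) (Ge.sub ?_ ?_)
            · exact (hx' _).mul (hDs _ _ (by rw [map_add, Finsupp.degree_single, ht]))
            · exact (hx' _).mul (hDs _ _ (by rw [map_add, Finsupp.degree_single, ht]))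
          · exact Ge.zero
        · exact hDs a _ (hdeg a)
      · intro j
        exact hρ P lam x' hlam hxx hx' ⟨e1, he1⟩ (σ j)
      · rintro ⟨i, -⟩ j
        dsimp only
        rw [hα]
        rcases i with (_ | t) | a
        · simp only [vv, wv]
          rw [zero_mul, sub_zero]
          exact hx' _
        · simp only [vv, wv, tv]
          split_ifs with ht
          · have h3 : (x' t.2.2.2 • Ev D' x' t.1 (t.2.1 + Finsupp.single t.2.2.1 1) -
                x' t.2.2.1 • Ev D' x' t.1 (t.2.1 + Finsupp.single t.2.2.2 1)) (σ j) -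
                (x' t.2.2.2 * D' t.1 (t.2.1 + Finsupp.single t.2.2.1 1) (algebraMap L M (s P)) -
                x' t.2.2.1 * D' t.1 (t.2.1 + Finsupp.single t.2.2.2 1)
                  (algebraMap L M (s P))) * δ P (x' (σ j)) =
                x' t.2.2.2 * (D' t.1 (t.2.1 + Finsupp.single t.2.2.1 1) (x' (σ j)) -
                  D' t.1 (t.2.1 + Finsupp.single t.2.2.1 1) (algebraMap L M (s P)) *
                    δ P (x' (σ j))) -
                x' t.2.2.1 * (D' t.1 (t.2.1 + Finsupp.single t.2.2.2 1) (x' (σ j)) -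
                  D' t.1 (t.2.1 + Finsupp.single t.2.2.2 1) (algebraMap L M (s P)) *
                    δ P (x' (σ j))) := by
              simp only [Pi.sub_apply, Pi.smul_apply, smul_eq_mul, Ev]
              ring
            rw [h3]
            refine Ge.mono (by omega : (0 : ℤ) ≤ 0 + 0) (Ge.sub ?_ ?_)
            · exact (hx' _).mul (hDu _ _ _)
            · exact (hx' _).mul (hDu _ _ _)
          · rw [zero_mul, sub_zero]
            exact Ge.zero
        · simp only [vv, Ev]
          exact hDu a _ _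
    have h1 := hge.resolve_left hdet'
    have h2 : ∑ a ∈ Finset.univ.filter (fun a => Sum.inr a ∉ b),
        P.ord (eval x' (map (algebraMap L M) (F a))) = 0 := by
      refine Finset.sum_eq_zero fun a ha => ?_
      exact absurd (hbC' a) (Finset.mem_filter.1 ha).2
    rw [h2, sub_zero, ← hΘ] at hord
    rw [hord, ha0]
    linarith
  rw [finsum_add_distrib hef hρf] at hmain
  have hb : b.card ≤ m + 1 := by
    rw [← hcard]
    exact hrk
  have ha1 : (2 * ν - 1 : ℤ) ≤ a0 := by
    rw [Finset.sum_add_distrib, Finset.sum_const, smul_eq_mul, mul_one, Finset.card_univ] at hd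
    rw [ha0]
    have h1 : 2 * m + 2 * ν ≤ ∑ a, dg a + Fintype.card A := hd
    omega
  have h1 : (2 * ν - 1 : ℤ) * pht k x ≤ a0 * pht k x := mul_le_mul_of_nonneg_right ha1 hpht
  have h2 : (2 * ν - 1 : ℤ) * pht k x = (2 * ν - 2) * pht k x + pht k x := by ring
  linarith

end Pool.Agent.Helper53K9.BD
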