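import Pool.Agent.Helper53K9.BD.Fin

/-!
# Finiteness of the points of bounded degree over finitely generated fields
-/

set_option autoImplicit false

open MvPolynomial Pool.Agent.TH145.GH
open Pool.Agent.TH145.GC (Data Gen Full Cf Rt finite_cf exists_all exists_big indep_scale)

namespace Pool.Agent.Helper53K9.BD

theorem exists_U {E K : Type} [Field E] [Field K] [Algebra E K] {n ν : ℕ} (t : K)
    (G : Polynomial E) (hm : G.Monic) (hd : G.natDegree ≤ ν) (h : Polynomial.aeval t G = 0)
    (Q : Fin (n + 1) → Polynomial E) (x : Fin (n + 1) → K)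
    (hx : ∀ j, x j = Polynomial.aeval t (Q j)) :
    ∃ U : IntermediateField E K, FiniteDimensional E U ∧ Module.finrank E U ≤ ν ∧
      ∀ j, x j ∈ U := by
  have hti : IsIntegral E t := ⟨G, hm, h⟩
  refine ⟨IntermediateField.adjoin E {t}, IntermediateField.adjoin.finiteDimensional hti, ?_,
    fun j => ?_⟩
  · rw [IntermediateField.adjoin.finrank hti]
    exact (Polynomial.natDegree_le_natDegree (minpoly.min E t hm h)).trans hd
  · rw [hx]
    exact (IntermediateField.algebra_adjoin_le_adjoin E {t})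
      (Polynomial.aeval_mem_adjoin_singleton E t)

/-- Change of the field: from `K / R` to `K1 / E`, if `K1 ⊆ K`. -/
theorem transport_down {R K E K1 : Type} [Field R] [Field K] [Field E] [Field K1] [Algebra R K]
    [Algebra E K1] [CharZero K] [IsAlgClosed K] [IsAlgClosed K1] (φ : R →+* E) (ι : K1 →+* K)
    (hφ : ∀ r, ι (algebraMap E K1 (φ r)) = algebraMap R K r) {n ν : ℕ} (x : Fin (n + 1) → K)
    (h : ∃ U : IntermediateField R K, FiniteDimensional R U ∧ Module.finrank R U ≤ ν ∧
      ∀ j, x j ∈ U) :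
    ∃ x' : Fin (n + 1) → K1, (∀ j, ι (x' j) = x j) ∧
      ∃ U : IntermediateField E K1, FiniteDimensional E U ∧ Module.finrank E U ≤ ν ∧
      ∀ j, x' j ∈ U := by
  obtain ⟨U, hUf, hU, hxU⟩ := h
  obtain ⟨u, t, G, Q, hu, hdeg, h2, h3, h4, h5, h6, h7⟩ := exists_prim x U hUf hU hxU
  have hcomp : (ι.comp (algebraMap E K1)).comp φ = algebraMap R K := RingHom.ext hφ
  let _ : Algebra K1 K := ι.toAlgebra
  have hι : ∀ z, algebraMap K1 K z = ι z := fun _ => rfl
  have hGt : Polynomial.aeval t ((G.map φ).map (algebraMap E K1)) = 0 := by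
    rw [Polynomial.aeval_def, Polynomial.map_map, Polynomial.eval₂_map, ← h4,
      Polynomial.aeval_def]
    congr 1
  have hti : IsIntegral K1 t := ⟨(G.map φ).map (algebraMap E K1), (h2.map φ).map _, hGt⟩
  have h8 : (minpoly K1 t).degree = 1 :=
    IsAlgClosed.degree_eq_one_of_irreducible _ (minpoly.irreducible hti)
  obtain ⟨t', ht'⟩ := minpoly.mem_range_of_degree_eq_one K1 t h8
  have hev : ∀ P : Polynomial R, ι (Polynomial.aeval t' (P.map φ)) = Polynomial.aeval t P := by
    intro P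
    rw [Polynomial.aeval_def, Polynomial.aeval_def, Polynomial.eval₂_map, Polynomial.hom_eval₂,
      ← hι t', ht']
    congr 1
  obtain ⟨x', hx'⟩ : ∃ x' : Fin (n + 1) → K1, ∀ j, x' j = Polynomial.aeval t' ((Q j).map φ) :=
    ⟨_, fun _ => rfl⟩
  refine ⟨x', fun j => by rw [hx', hev, h6], ?_⟩
  refine exists_U t' (G.map φ) (h2.map φ) (by rw [Polynomial.natDegree_map]; exact hdeg) ?_
    (fun j => (Q j).map φ) x' hx'
  apply ι.injective
  rw [hev, h4, map_zero]

/-- Change of the field: from `K / R` to `K1 / E`, if `K ⊆ K1`. -/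
theorem transport_up {R K E K1 : Type} [Field R] [Field K] [Field E] [Field K1] [Algebra R K]
    [Algebra E K1] [CharZero K] [IsAlgClosed K] (φ : R →+* E) (ι : K →+* K1)
    (hφ : ∀ r, algebraMap E K1 (φ r) = ι (algebraMap R K r)) {n ν : ℕ} (x : Fin (n + 1) → K)
    (h : ∃ U : IntermediateField R K, FiniteDimensional R U ∧ Module.finrank R U ≤ ν ∧
      ∀ j, x j ∈ U) :
    ∃ U : IntermediateField E K1, FiniteDimensional E U ∧ Module.finrank E U ≤ ν ∧
      ∀ j, ι (x j) ∈ U := by
  obtain ⟨U, hUf, hU, hxU⟩ := h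
  obtain ⟨u, t, G, Q, hu, hdeg, h2, h3, h4, h5, h6, h7⟩ := exists_prim x U hUf hU hxU
  have hev : ∀ P : Polynomial R, Polynomial.aeval (ι t) (P.map φ) =
      ι (Polynomial.aeval t P) := by
    intro P
    rw [Polynomial.aeval_def, Polynomial.aeval_def, Polynomial.eval₂_map, Polynomial.hom_eval₂]
    congr 1
    exact RingHom.ext hφ
  refine exists_U (ι t) (G.map φ) (h2.map φ) (by rw [Polynomial.natDegree_map]; exact hdeg) ?_
    (fun j => (Q j).map φ) (fun j => ι (x j)) fun j => ?_
  · rw [hev, h4, map_zero]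
  · rw [hev, h6]

/-- A homomorphism to a field that contains the image. -/
theorem exists_hom {R E K : Type} [Field R] [Field E] [Field K] (α : R →+* K) (ψ : E →+* K)
    (h : ∀ r, ∃ e, ψ e = α r) : ∃ φ : R →+* E, ∀ r, ψ (φ r) = α r := by
  choose φ hφ using h
  refine ⟨⟨⟨⟨φ, ?_⟩, ?_⟩, ?_, ?_⟩, hφ⟩
  · apply ψ.injective
    rw [hφ, map_one, map_one]
  · intro a b
    apply ψ.injective
    change ψ (φ (a * b)) = ψ (φ a * φ b)
    rw [hφ, map_mul, map_mul, hφ, hφ]
  · apply ψ.injective
    change ψ (φ 0) = ψ 0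
    rw [hφ, map_zero, map_zero]
  · intro a b
    apply ψ.injective
    change ψ (φ (a + b)) = ψ (φ a + φ b)
    rw [hφ, map_add, map_add, hφ, hφ]

/-- Finiteness of the points of bounded degree over a finitely generated field. -/
theorem fin_points3 {k0 K : Type} [Field k0] [Field K] [Algebra k0 K] [IsAlgClosed K]
    [CharZero K] [IsAlgClosed k0] {n m ν : ℕ} {A : Type} [Fintype A] {dg : A → ℕ}
    (hd : 2 * m + 2 * ν ≤ ∑ a, (dg a + 1))
    (V : Set (MvPolynomial (Fin (n + 1)) k0)) (hV : Pool.Agent.TH145.MG.DimLE k0 V m)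
    {F : A → MvPolynomial (Fin (n + 1)) K} (hF : ∀ a, (F a).IsHomogeneous (dg a))
    (hind : AlgebraicIndependent k0 fun p : Cf n dg => (F p.1).coeff p.2.1)
    (T : Finset K) (l0 : Fin (n + 1)) :
    {x : Fin (n + 1) → K | (∃ U : IntermediateField (IntermediateField.adjoin k0 (T : Set K)) K,
      FiniteDimensional (IntermediateField.adjoin k0 (T : Set K)) U ∧
      Module.finrank (IntermediateField.adjoin k0 (T : Set K)) U ≤ ν ∧ ∀ j, x j ∈ U) ∧ x l0 = 1 ∧
      (∀ f ∈ V, aeval x f = 0) ∧ ∀ a, eval x (F a) = 0}.Finite := by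
  obtain ⟨B, hB, K1, y, E, F1, DE, D, hK1, hc, hy, h1, h2, h3, h4, h5, h6, h7, h8⟩ :=
    exists_all hF hind T
  have : Finite B := hB
  have h9 := fin_deg (ν := ν) E hy h3 D h4 h5 h6 hd V hV l0
  refine (h9.image fun x j => (x j : K)).subset ?_
  rintro x ⟨hx, hxl, hxV, hxF⟩
  obtain ⟨φ, hφ⟩ := exists_hom (algebraMap (IntermediateField.adjoin k0 (T : Set K)) K)
    ((algebraMap K1 K).comp (algebraMap E K1)) (fun r => by
      obtain ⟨e, he, her⟩ := h8 r r.2
      exact ⟨⟨e, he⟩, her⟩)
  obtain ⟨e, hex, hU⟩ := transport_down φ (algebraMap K1 K) hφ x hx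
  have hex' : (fun j => algebraMap K1 K (e j)) = x := funext hex
  have hev : ∀ a, algebraMap K1 K (eval e (map E.toSubfield.subtype (F1 a))) =
      eval x (F a) := by
    intro a
    rw [← h7, eval_map, eval_map]
    have h10 := hom_eval₂ (F1 a) E.toSubfield.subtype (algebraMap K1 K) e
    rw [h10, hex']
  refine ⟨e, ⟨hU, ?_, fun f hf => ?_, fun a => ?_⟩, funext hex⟩
  · apply (algebraMap K1 K).injective
    rw [hex, hxl, map_one]
  · apply (algebraMap K1 K).injective
    have h10 := hom_eval₂ f (algebraMap k0 K1) (algebraMap K1 K) e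
    rw [h10, map_zero, hex']
    exact hxV f hf
  · apply (algebraMap K1 K).injective
    rw [hev, hxF a, map_zero]

/-- Finiteness of the points of bounded degree, if the ratios of the coefficients are
independent. -/
theorem fin_points3' {k0 K : Type} [Field k0] [Field K] [Algebra k0 K] [IsAlgClosed K]
    [CharZero K] [IsAlgClosed k0] {n m ν : ℕ} {A : Type} [Fintype A] {dg : A → ℕ}
    (hd : 2 * m + 2 * ν ≤ ∑ a, (dg a + 1))
    (V : Set (MvPolynomial (Fin (n + 1)) k0)) (hV : Pool.Agent.TH145.MG.DimLE k0 V m)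
    (F : A → MvPolynomial (Fin (n + 1)) K) (hF : ∀ a, (F a).IsHomogeneous (dg a))
    (I0 : A → Fin (n + 1) →₀ ℕ) (h0 : ∀ a, (F a).coeff (I0 a) ≠ 0)
    (hind : AlgebraicIndependent k0 fun p : Rt dg I0 =>
      (F p.1).coeff p.2.1 / (F p.1).coeff (I0 p.1))
    (T : Finset K) (l0 : Fin (n + 1)) :
    {x : Fin (n + 1) → K | (∃ U : IntermediateField (IntermediateField.adjoin k0 (T : Set K)) K,
      FiniteDimensional (IntermediateField.adjoin k0 (T : Set K)) U ∧
      Module.finrank (IntermediateField.adjoin k0 (T : Set K)) U ≤ ν ∧ ∀ j, x j ∈ U) ∧ x l0 = 1 ∧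
      (∀ f ∈ V, aeval x f = 0) ∧ ∀ a, eval x (F a) = 0}.Finite := by
  classical
  obtain ⟨K', _, _, hK', hc, t, ht⟩ := exists_big K A
  let _ : Algebra k0 K' := ((algebraMap K K').comp (algebraMap k0 K)).toAlgebra
  have hst : IsScalarTower k0 K K' := IsScalarTower.of_algebraMap_eq fun _ => rfl
  have hI0 : ∀ a, (I0 a).degree = dg a := fun a =>
    deg_of_mem (hF a) (mem_support_iff.2 (h0 a))
  have h1 := indep_scale (k0 := k0) (K' := K') F I0 hI0 h0 hind ht
  obtain ⟨c, hc'⟩ : ∃ c : A → K', ∀ a, c a = t a / algebraMap K K' ((F a).coeff (I0 a)) :=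
    ⟨_, fun _ => rfl⟩
  obtain ⟨G, hG⟩ : ∃ G : A → MvPolynomial (Fin (n + 1)) K', ∀ a, G a =
    MvPolynomial.C (c a) * map (algebraMap K K') (F a) :=
    ⟨_, fun _ => rfl⟩
  have h2 : ∀ a, (G a).IsHomogeneous (dg a) := fun a => by
    have := (isHomogeneous_C (Fin (n + 1)) (c a)).mul
      ((hF a).map (algebraMap K K'))
    rwa [zero_add, ← hG] at this
  have h4 : (fun p : Cf n dg => (G p.1).coeff p.2.1) =
      fun p => t p.1 / algebraMap K K' ((F p.1).coeff (I0 p.1)) *
        algebraMap K K' ((F p.1).coeff p.2.1) := by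
    funext p
    rw [hG, coeff_C_mul, coeff_map, hc']
  have h5 : AlgebraicIndependent k0 (fun p : Cf n dg => (G p.1).coeff p.2.1) := by
    rw [h4]
    exact h1
  obtain ⟨T', hT'⟩ : ∃ T' : Finset K', T' = T.image (algebraMap K K') := ⟨_, rfl⟩
  have h3 := fin_points3 (k0 := k0) (ν := ν) hd V hV h2 h5 T' l0
  have hev : ∀ (a : A) (x : Fin (n + 1) → K), eval (fun j => algebraMap K K' (x j)) (G a) =
      c a * algebraMap K K' (eval x (F a)) := by
    intro a x
    rw [hG, map_mul, eval_map, eval_C]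
    have h5 := eval₂_comp_left (algebraMap K K') (RingHom.id K) x (F a)
    rw [RingHom.comp_id] at h5
    congr 1
    exact h5.symm
  have hadj : ∀ u ∈ IntermediateField.adjoin k0 (T : Set K), algebraMap K K' u ∈
      IntermediateField.adjoin k0 (T' : Set K') := by
    intro u hu
    have h4 : (IntermediateField.adjoin k0 (T : Set K)).map (IsScalarTower.toAlgHom k0 K K') =
        IntermediateField.adjoin k0 ((T.image (algebraMap K K') : Finset K') : Set K') := by
      rw [IntermediateField.adjoin_map, Finset.coe_image]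
      rfl
    rw [hT', ← h4]
    exact ⟨u, hu, rfl⟩
  obtain ⟨φ, hφ⟩ := exists_hom
    ((algebraMap K K').comp (algebraMap (IntermediateField.adjoin k0 (T : Set K)) K))
    (algebraMap (IntermediateField.adjoin k0 (T' : Set K')) K')
    (fun r => ⟨⟨_, hadj r r.2⟩, rfl⟩)
  refine Set.Finite.of_finite_image (f := fun x j => algebraMap K K' (x j)) (h3.subset ?_) ?_
  · rintro _ ⟨x, ⟨hx, hxl, hxV, hxF⟩, rfl⟩
    refine ⟨transport_up φ (algebraMap K K') hφ x hx, ?_, fun f hf => ?_, fun a => ?_⟩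
    · dsimp only
      rw [hxl, map_one]
    · have h6 := congrArg (algebraMap K K') (hxV f hf)
      rw [map_zero] at h6
      rw [← h6]
      exact (hom_eval₂ f (algebraMap k0 K) (algebraMap K K') x).symm
    · rw [hev, hxF a, map_zero, mul_zero]
  · intro x _ z _ hxz
    funext j
    exact (algebraMap K K').injective (congrFun hxz j)

end Pool.Agent.Helper53K9.BD
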