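import Pool.Agent.Helper53K9.BD.Stm

/-!
# Leaves RES, ATP
-/

set_option autoImplicit false

open MvPolynomial FF Pool.Agent.W603.LV Pool.Agent.W603.PV Pool.Agent.W602.RG Pool.Agent.TH145.GH
open Pool.Agent.TH145.GC (Data Gen Full Cf)

namespace Pool.Agent.Helper53K9.BD

theorem res : S_RES := by
  classical
  intro k L M _ _ _ _ _ _ _ _ _ _ _ _ P
  have hinj : Function.Injective (algebraMap L M) := (algebraMap L M).injective
  -- the place is not trivial on `L`
  have h1 : ∃ f : L, P.ord (algebraMap L M f) ≠ 0 := by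
    by_contra hcon
    push Not at hcon
    let P1 : Place L M :=
      { ord := P.ord
        ord_zero := P.ord_zero
        ord_mul := P.ord_mul
        ord_add := P.ord_add
        ord_const := fun {c} _ => hcon c
        surj := P.surj }
    obtain ⟨t, ht0, ht⟩ := P.surj
    have h2 : P1.ord t = 0 := P1.ord_eq_zero_of_isAlgebraic ht0 (Algebra.IsAlgebraic.isAlgebraic t)
    have h3 : P1.ord t = 1 := ht
    omega
  have h2 : ∃ n : ℕ, 0 < n ∧ ∃ f : L, P.ord (algebraMap L M f) = n := by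
    obtain ⟨f, hf⟩ := h1
    rcases lt_or_gt_of_ne hf with h | h
    · refine ⟨(P.ord (algebraMap L M f⁻¹)).toNat, ?_, f⁻¹, ?_⟩ <;>
        rw [map_inv₀, P.ord_inv] <;> omega
    · exact ⟨(P.ord (algebraMap L M f)).toNat, by omega, f, by omega⟩
  obtain ⟨r, hr, hmin⟩ : ∃ r : ℕ, (0 < r ∧ ∃ f : L, P.ord (algebraMap L M f) = r) ∧
      ∀ m < r, ¬ (0 < m ∧ ∃ f : L, P.ord (algebraMap L M f) = m) :=
    ⟨Nat.find h2, Nat.find_spec h2, fun m hm => Nat.find_min h2 hm⟩
  obtain ⟨hr0, s, hs⟩ := hr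
  have hs0 : algebraMap L M s ≠ 0 := by
    intro h
    rw [h, P.ord_zero] at hs
    omega
  have hr0' : (0 : ℤ) < r := by exact_mod_cast hr0
  have hdvd : ∀ f : L, (r : ℤ) ∣ P.ord (algebraMap L M f) := by
    intro f
    by_cases hf : algebraMap L M f = 0
    · rw [hf, P.ord_zero]
      exact dvd_zero _
    obtain ⟨q, hq⟩ : ∃ q, q = P.ord (algebraMap L M f) / r := ⟨_, rfl⟩
    have h3 : P.ord (algebraMap L M (f / s ^ q)) = P.ord (algebraMap L M f) % r := by
      rw [map_div₀, map_zpow₀, P.ord_div hf (zpow_ne_zero _ hs0), P.ord_zpow, hs, hq,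
        Int.emod_def]
      ring
    have h4 := Int.emod_nonneg (P.ord (algebraMap L M f)) hr0'.ne'
    have h5 := Int.emod_lt_of_pos (P.ord (algebraMap L M f)) hr0'
    obtain ⟨m, hm⟩ := Int.eq_ofNat_of_zero_le h4
    rw [hm] at h3 h5
    have h6 := hmin m (by exact_mod_cast h5)
    have h7 : m = 0 := by
      by_contra h8
      exact h6 ⟨Nat.pos_of_ne_zero h8, _, h3⟩
    rw [h7] at hm
    exact Int.dvd_of_emod_eq_zero hm
  refine ⟨⟨fun f => P.ord (algebraMap L M f) / r, ?_, ?_, ?_, ?_, ?_⟩, r, by omega, fun f => ?_⟩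
  · change P.ord (algebraMap L M 0) / r = 0
    rw [map_zero, P.ord_zero, Int.zero_ediv]
  · intro f g hf hg
    change P.ord (algebraMap L M (f * g)) / r = _
    rw [map_mul, P.ord_mul ((_root_.map_ne_zero _).2 hf) ((_root_.map_ne_zero _).2 hg),
      Int.add_ediv_of_dvd_left (hdvd f)]
  · intro f g hf hg hfg
    change min (P.ord (algebraMap L M f) / r) (P.ord (algebraMap L M g) / r) ≤
      P.ord (algebraMap L M (f + g)) / r
    have h3 := P.ord_add ((_root_.map_ne_zero (algebraMap L M)).2 hf)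
      ((_root_.map_ne_zero (algebraMap L M)).2 hg)
      (by rw [← map_add]; exact (_root_.map_ne_zero (algebraMap L M)).2 hfg)
    rw [← map_add] at h3
    rcases min_le_iff.1 h3 with h | h
    · exact (min_le_left _ _).trans (Int.ediv_le_ediv hr0' h)
    · exact (min_le_right _ _).trans (Int.ediv_le_ediv hr0' h)
  · intro c hc
    change P.ord (algebraMap L M (algebraMap k L c)) / r = 0
    rw [← IsScalarTower.algebraMap_apply, P.ord_const hc, Int.zero_ediv]
  · refine ⟨s, fun h => hs0 (by rw [h, map_zero]), ?_⟩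
    change P.ord (algebraMap L M s) / r = 1
    rw [hs, Int.ediv_self hr0'.ne']
  · change _ = (r : ℤ) * (P.ord (algebraMap L M f) / r)
    rw [Int.mul_ediv_cancel' (hdvd f)]

theorem atp : S_ATP := by
  intro k L M _ _ _ _ _ _ _ _ _ _ _ _ P
  obtain ⟨Q, r, hr, hQ⟩ := res k L M P
  obtain ⟨d0, hd0⟩ := exists_der (k := k) (K := M)
  have h1 : P.ord (algebraMap L M (unif Q)) = r := by rw [hQ, ord_unif, mul_one]
  have h2 : d0 (algebraMap L M (unif Q)) ≠ 0 :=
    der_ne_zero hd0 (P.transcendental_of_ord_ne (by omega))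
  refine ⟨unif Q, (d0 (algebraMap L M (unif Q)))⁻¹ • d0, by omega, fun f => ?_, ?_⟩
  · rw [h1, hQ]
    exact dvd_mul_right _ _
  · rw [Derivation.coe_smul, Pi.smul_apply, smul_eq_mul, inv_mul_cancel₀ h2]

end Pool.Agent.Helper53K9.BD
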