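import Pool.Agent.Helper53K9.BD.Stm
import Pool.Agent.TH145.GE.CurveMain

/-!
# Families of points of bounded degree over a curve: statements of two more leaves
-/

set_option autoImplicit false

open MvPolynomial FF Pool.Agent.W603.LV Pool.Agent.W603.PV Pool.Agent.TH145.GH
open Pool.Agent.TH145.MG (DimLE)
open Pool.Agent.TH145.GC (Rt)

namespace Pool.Agent.Helper53K9.BD

/-- [FUND] The fundamental identity. It is enough that for fixed `Q` the sum of the `r P` over the
finitely many `P` with `q P = Q` is `[M : L]` (then `Finset.sum_fiberwise_of_maps_to`, as in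
BD/Sumq.lean). By `riemann` (Helper386_FF_Riemann) the space `LL (N Q)` of functions has dimension at
least two for large `N`, so there is a nonconstant `f ∈ L` whose only pole is `Q`. Its poles in `M`
are the `P` with `q P = Q`, of order `r P * N'`, `N' = - Q.ord f`; so `hgt_M f = (∑ r P) N'`, and
`hgt_M f = [M : L] hgt_L f = [M : L] N'` (`hgt_algebraMap`, `hgt_finset`). -/
def S_FUND : Prop := ∀ (k L M : Type) [Field k] [Field L] [Field M] [Algebra k L] [Algebra L M]
  [Algebra k M] [IsScalarTower k L M] [IsAlgClosed k] [CharZero k] [IsFF k L] [IsFF k M]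
  [FiniteDimensional L M] (q : Place k M → Place k L) (r : Place k M → ℤ),
  (∀ P, 1 ≤ r P) → (∀ P f, P.ord (algebraMap L M f) = r P * (q P).ord f) →
  ∀ e : Place k L → ℤ, {Q | e Q ≠ 0}.Finite → {P | r P * e (q P) ≠ 0}.Finite ∧
    ∑ᶠ P, r P * e (q P) = Module.finrank L M * ∑ᶠ Q, e Q

/-- [CURV] The inequality for curves in a generic complete intersection, with the orders of the
derivatives of the normalised coordinates in place of the canonical degree (those are at least the
orders `vo P δ`, with a strict inequality where the curve is singular). Copy `ord_det_curve`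
(TH145/GE/Curve.lean), `local_est`, `curve_ineq` (CurveIneq.lean), `curve_generic` (CurveMain.lean) in
the case `C = Finset.univ` (all forms vanish at `x`, so `Sum.inr a ∈ b` for all `a`, and there are no
correction terms). The only change: in `ord_det_curve` use the step `key` for a `u` with
`P.ord u = - ω P` (then `u⁻¹ * δ (x' l)` is integral by `hωδ`; the scaled point of `exists_scaled` is a
normalisation in the sense of `hωδ`), so `vo P δ` becomes `- ω P`, and the sum of the local
inequalities (`sum_local'`) is the sum of the `ω P`. -/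
def S_CURV : Prop := ∀ (k0 k M : Type) [Field k0] [Field k] [Field M] [Algebra k0 k] [Algebra k M]
  [IsAlgClosed k] [CharZero k] [IsFF k M] (n m : ℕ) (A : Type) [Fintype A] (dg : A → ℕ)
  (V : Set (MvPolynomial (Fin (n + 1)) k0)) (_ : ∀ f ∈ V, ∃ e, f.IsHomogeneous e)
  (_ : DimLE k0 V m) (F : A → MvPolynomial (Fin (n + 1)) k) (_ : ∀ a, (F a).IsHomogeneous (dg a))
  (I0 : A → Fin (n + 1) →₀ ℕ) (_ : ∀ a, (F a).coeff (I0 a) ≠ 0)
  (_ : AlgebraicIndependent k0 fun p : Rt dg I0 =>
    (F p.1).coeff p.2.1 / (F p.1).coeff (I0 p.1))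
  (x : Fin (n + 1) → M) (_ : ∃ i j, x j ≠ 0 ∧ x i / x j ∉ Set.range (algebraMap k M))
  (_ : ∀ f ∈ V, aeval x (map (algebraMap k0 k) f) = 0) (_ : ∀ a, aeval x (F a) = 0)
  (δ : Derivation k M M) (_ : δ ≠ 0) (ω : Place k M → ℤ) (_ : {P | ω P ≠ 0}.Finite)
  (_ : ∀ (P : Place k M) (lam : M) (x' : Fin (n + 1) → M), lam ≠ 0 → x = lam • x' →
    (∀ l, Ge P 0 (x' l)) → (∃ e1, x' e1 = 1) → ∀ l, Ge P (-ω P) (δ (x' l))),
  ((∑ a, (dg a + 1) : ℕ) - 2 * m : ℤ) * pht k x ≤ ∑ᶠ P, ω P

end Pool.Agent.Helper53K9.BD
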